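import Pool.Agent.Lib.MP_3d3eb4_co.PX.Conn

/-! A fibre of the labelling meets few classes of a maximal forest. -/

namespace PlexX

open Finset

namespace Cls

variable {n : ℕ} (S : Sq n) (A : Finset (Cell n)) (Z : Finset (Ln n)) (u : ℕ)
  (cl : Fin n → Fin n)

/-- rows on which two steps lead to the same row -/
noncomputable def agr (k l : Fin n × Fin n) : Finset (Fin n) :=
  univ.filter fun z => S.mv k.1 k.2 z = S.mv l.1 l.2 z

/-- rows on which a step is unavailable or leaves the class -/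
noncomputable def bad (k : Fin n × Fin n) : Finset (Fin n) :=
  univ.filter fun z => ¬ (S.Good A k.1 k.2 z ∧ cl (S.mv k.1 k.2 z) = cl z)

/-- two steps agree on many rows -/
def Agree (T : ℕ) (k l : Fin n × Fin n) : Prop := n ≤ T * (agr S k l).card

/-- a step with live columns which stays in the class on almost all rows -/
def Null (i : ℕ) (k : Fin n × Fin n) : Prop :=
  (1, k.1) ∉ Z ∧ (1, k.2) ∉ Z ∧ (bad S A cl k).card ≤ 4 * i * u

/-- a family of `t` null steps no two of which agree -/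
def Fam (T t : ℕ) (M : Finset (Fin n × Fin n)) : Prop :=
  M.card = t ∧ (∀ k ∈ M, Null S A Z u cl t k) ∧ ∀ k ∈ M, ∀ l ∈ M, k ≠ l → ¬ Agree S T k l

variable {S A Z u cl}

theorem agr_comm (k l : Fin n × Fin n) : agr S k l = agr S l k := by
  ext z
  simp only [agr, mem_filter, mem_univ, true_and]
  exact eq_comm

theorem Agree.symm {T : ℕ} {k l : Fin n × Fin n} (h : Agree S T k l) : Agree S T l k := by
  unfold Agree at h ⊢
  rwa [agr_comm]

theorem agree_self {T : ℕ} (hT : 1 ≤ T) (k : Fin n × Fin n) : Agree S T k k := by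
  have : agr S k k = univ := by
    ext z
    simp [agr]
  unfold Agree
  rw [this, card_univ, Fintype.card_fin]
  exact Nat.le_mul_of_pos_left n hT

theorem Null.mono {i j : ℕ} {k : Fin n × Fin n} (h : Null S A Z u cl i k) (hij : i ≤ j) :
    Null S A Z u cl j k :=
  ⟨h.1, h.2.1, h.2.2.trans (Nat.mul_le_mul_right _ (Nat.mul_le_mul_left _ hij))⟩

theorem Fam.insert {T t : ℕ} (hT : 1 ≤ T) {M : Finset (Fin n × Fin n)} (h : Fam S A Z u cl T t M)
    {k : Fin n × Fin n} (hk : Null S A Z u cl (t + 1) k) (hn : ∀ l ∈ M, ¬ Agree S T l k) :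
    Fam S A Z u cl T (t + 1) (insert k M) := by
  have hkM : k ∉ M := fun hm => hn k hm (agree_self hT k)
  refine ⟨by rw [card_insert_of_notMem hkM, h.1], fun l hl => ?_, fun l hl l' hl' hne => ?_⟩
  · rcases mem_insert.1 hl with rfl | hl
    · exact hk
    · exact (h.2.1 l hl).mono (Nat.le_succ t)
  · rcases mem_insert.1 hl with e | hl <;> rcases mem_insert.1 hl' with e' | hl'
    · exact absurd (e.trans e'.symm) hne
    · rw [e]
      exact fun ha => hn l' hl' ha.symm
    · rw [e']
      exact hn l hl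
    · exact h.2.2 l hl l' hl' hne

/-- a full family forces few classes -/
theorem full {J : ℕ} (hJ : 1 ≤ J) {M : Finset (Fin n × Fin n)}
    (h : Fam S A Z u cl (27 * J ^ 3) (3 * J) M) (hn : 108 * J ^ 3 * u ≤ n) :
    J * (univ.image cl).card ≤ n := by
  classical
  obtain ⟨hc, hnull, hna⟩ := h
  set E1 := M.biUnion (bad S A cl) with hE1
  set E2 := M.offDiag.biUnion (fun p => agr S p.1 p.2) with hE2
  have c1 : E1.card ≤ 3 * J * (4 * (3 * J) * u) := by
    rw [← hc]
    refine card_biUnion_le.trans ?_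
    have := sum_le_card_nsmul M (fun k => (bad S A cl k).card) (4 * (3 * J) * u)
      fun k hk => (hnull k hk).2.2
    rw [smul_eq_mul] at this
    rw [hc] at this ⊢
    exact this
  have c2 : 27 * J ^ 3 * E2.card ≤ 3 * J * (3 * J) * n := by
    refine (Nat.mul_le_mul_left _ card_biUnion_le).trans ?_
    rw [mul_sum]
    have := sum_le_card_nsmul M.offDiag (fun p => 27 * J ^ 3 * (agr S p.1 p.2).card) n
      fun p hp => by
        obtain ⟨h1, h2, h3⟩ := mem_offDiag.1 hp
        exact (not_le.1 (hna _ h1 _ h2 h3)).le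
    rw [smul_eq_mul] at this
    refine this.trans (Nat.mul_le_mul_right _ ?_)
    rw [offDiag_card, hc]
    exact Nat.sub_le _ _
  have c2' : 3 * J * E2.card ≤ n := by
    have hpos : 0 < 9 * J ^ 2 := by positivity
    refine Nat.le_of_mul_le_mul_left ?_ hpos
    calc 9 * J ^ 2 * (3 * J * E2.card) = 27 * J ^ 3 * E2.card := by ring
      _ ≤ 3 * J * (3 * J) * n := c2
      _ = 9 * J ^ 2 * n := by ring
  set K := (univ \ (E1 ∪ E2)).image cl with hK
  have c3 : 3 * J * K.card ≤ n := by
    have := mul_card_image_le_card_of_maps_to (f := cl) (s := univ.filter fun a => cl a ∈ K)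
      (t := K) (fun a ha => (mem_filter.1 ha).2) (3 * J) ?_
    · refine this.trans ((card_filter_le _ _).trans ?_)
      rw [card_univ, Fintype.card_fin]
    intro y hy
    obtain ⟨z, hz, rfl⟩ := mem_image.1 hy
    have hz' := (mem_sdiff.1 hz).2
    rw [mem_union, not_or] at hz'
    rw [← hc]
    refine card_le_card_of_injOn (fun k => S.mv k.1 k.2 z) (fun k hk => ?_) fun k hk l hl e => ?_
    · have hb : z ∉ bad S A cl k := fun hb => hz'.1 (mem_biUnion.2 ⟨k, hk, hb⟩)
      simp only [bad, mem_filter, mem_univ, true_and, not_not] at hb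
      simp only [coe_filter, mem_filter, mem_univ, true_and, Set.mem_ofPred_eq]
      exact ⟨by rw [hb.2]; exact hy, hb.2⟩
    · by_contra hne
      exact hz'.2 (mem_biUnion.2 ⟨(k, l), mem_offDiag.2 ⟨hk, hl, hne⟩,
        mem_filter.2 ⟨mem_univ _, e⟩⟩)
  have c4 : (univ.image cl).card ≤ E1.card + E2.card + K.card := by
    have : univ.image cl ⊆ (E1 ∪ E2).image cl ∪ K := by
      intro y hy
      obtain ⟨z, -, rfl⟩ := mem_image.1 hy
      by_cases hz : z ∈ E1 ∪ E2
      · exact mem_union_left _ (mem_image_of_mem _ hz)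
      · exact mem_union_right _ (mem_image_of_mem _ (mem_sdiff.2 ⟨mem_univ _, hz⟩))
    exact (card_le_card this).trans ((card_union_le _ _).trans
      (Nat.add_le_add_right (card_image_le.trans (card_union_le _ _)) _))
  have c1' : 3 * J * E1.card ≤ n := by
    refine (Nat.mul_le_mul_left _ c1).trans (le_trans (le_of_eq ?_) hn)
    ring
  have : 3 * (J * (univ.image cl).card) ≤ 3 * n := by
    calc 3 * (J * (univ.image cl).card) = 3 * J * (univ.image cl).card := by ring
      _ ≤ 3 * J * (E1.card + E2.card + K.card) := Nat.mul_le_mul_left _ c4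
      _ = 3 * J * E1.card + 3 * J * E2.card + 3 * J * K.card := by ring
      _ ≤ 3 * n := by omega
  omega

theorem mv_inj_col (c' z : Fin n) : Function.Injective fun c => S.mv c c' z := by
  intro c d h
  have e : S.tgt c c' z = S.tgt d c' z :=
    S.ext2 (i := 0) (j := 2) (by decide) h ((S.co2_tgt c c' z).trans (S.co2_tgt d c' z).symm)
  rw [← S.co1_tgt c c' z, e, S.co1_tgt]

open Classical in
/-- few steps agree with a given step -/
theorem card_agree (hn : 0 < n) (T : ℕ) (m : Fin n × Fin n) :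
    (univ.filter fun k => Agree S T m k).card ≤ T * n := by
  have h1 : ∑ k : Fin n × Fin n, (agr S m k).card ≤ n * n := by
    rw [← card_sigma]
    refine (card_le_card_of_injOn (t := (univ : Finset (Fin n × Fin n)))
      (fun p => (p.1.2, p.2)) (fun _ _ => mem_coe.2 (mem_univ _)) ?_).trans ?_
    · rintro ⟨⟨c, c'⟩, z⟩ hp ⟨⟨d, d'⟩, w⟩ hq e
      simp only [Prod.mk.injEq] at e
      obtain ⟨rfl, rfl⟩ := e
      have hp' := (mem_filter.1 (mem_sigma.1 (mem_coe.1 hp)).2).2
      have hq' := (mem_filter.1 (mem_sigma.1 (mem_coe.1 hq)).2).2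
      obtain rfl : c = d := mv_inj_col (S := S) c' z (hp'.symm.trans hq')
      rfl
    · simp
  have h2 : (univ.filter fun k => Agree S T m k).card * n ≤ T * (n * n) := by
    calc _ = ∑ _k ∈ univ.filter fun k => Agree S T m k, n := by simp
      _ ≤ ∑ k ∈ univ.filter fun k => Agree S T m k, T * (agr S m k).card :=
        sum_le_sum fun k hk => (mem_filter.1 hk).2
      _ ≤ ∑ k, T * (agr S m k).card := sum_le_sum_of_subset (filter_subset _ _)
      _ = T * ∑ k, (agr S m k).card := (mul_sum _ _ _).symm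
      _ ≤ _ := Nat.mul_le_mul_left _ h1
  rw [← mul_assoc] at h2
  exact Nat.le_of_mul_le_mul_right h2 hn

/-- a step parallel to a step agreeing with a null step is null -/
theorem null_of_par (hS : S.Sparse A Z u) (hcl : ∀ a b, S.Gad0 A 52 (pv a b) → cl a = cl b)
    {T t : ℕ} (hn : T * (4 * u) < n) {m : Fin n × Fin n} (hm : Null S A Z u cl t m)
    {c c' d d' : Fin n} (hc : (1, c) ∉ Z) (hc' : (1, c') ∉ Z) (hd : (1, d) ∉ Z)
    (hd' : (1, d') ∉ Z) (hp : S.Par A c c' d d') (hdj : Disjoint ({d, d'} : Finset _) {m.1, m.2})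
    (ha : Agree S T m (d, d')) : Null S A Z u cl (t + 1) (c, c') := by
  have b1 := S.card_not_good hS hc hc'
  have b2 := S.card_not_good hS hd hd'
  have b3 := S.card_not_good hS hm.1 hm.2.1
  obtain ⟨z, hz, hz'⟩ : ∃ z ∈ agr S m (d, d'), z ∉ (univ.filter fun b => ¬ S.Good A d d' b) ∪
      (univ.filter fun b => ¬ S.Good A m.1 m.2 b) := by
    by_contra k
    push Not at k
    have := (card_le_card (show agr S m (d, d') ⊆ _ from k)).trans (card_union_le _ _)
    have h4 : (agr S m (d, d')).card ≤ 4 * u := by omega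
    exact absurd (ha.trans (Nat.mul_le_mul_left _ h4)) (not_le.2 hn)
  simp only [mem_union, mem_filter, mem_univ, true_and, not_or, not_not] at hz'
  have ez : S.mv m.1 m.2 z = S.mv d d' z := (mem_filter.1 hz).2
  refine ⟨hc, hc', ?_⟩
  have hsub : bad S A cl (c, c') ⊆ (univ.filter fun b => ¬ S.Good A c c' b) ∪
      (univ.filter fun b => ¬ S.Good A d d' b) ∪ bad S A cl m := by
    intro w hw
    by_contra k
    simp only [bad, mem_union, mem_filter, mem_univ, true_and, not_or, not_not] at k hw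
    obtain ⟨⟨g1, g2⟩, g3, e3⟩ := k
    refine hw ⟨g1, ?_⟩
    have q := (S.quad g2 hz'.1).sub (S.quad g3 hz'.2) hdj
    have e1 : pv (S.mv d d' w) w - pv (S.mv d d' z) z -
        (pv (S.mv m.1 m.2 w) w - pv (S.mv m.1 m.2 z) z) = pv (S.mv d d' w) (S.mv m.1 m.2 w) := by
      rw [ez]
      simp only [pv]
      abel
    rw [e1] at q
    have k1 := hcl _ _ (q.gad0 (by norm_num))
    have q2 := hp w w g1 g2
    have e2 : pv (S.mv c c' w) w - pv (S.mv d d' w) w = pv (S.mv c c' w) (S.mv d d' w) := by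
      simp only [pv]
      abel
    rw [e2] at q2
    exact (hcl _ _ q2).trans (k1.trans e3)
  have := (card_le_card hsub).trans ((card_union_le _ _).trans
    (Nat.add_le_add_right (card_union_le _ _) _))
  have h5 := hm.2.2
  calc _ ≤ 2 * u + 2 * u + 4 * t * u := by omega
    _ = _ := by ring

/-- a maximal family catches every step through a pair of the lattice -/
theorem catches (hS : S.Sparse A Z u) (hcl : ∀ a b, S.Gad0 A 52 (pv a b) → cl a = cl b)
    {T t : ℕ} (hn : T * (4 * u) < n) (hn' : 100 * u + 1000 + 4 * t ≤ n)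
    {M : Finset (Fin n × Fin n)} (h : Fam S A Z u cl T t M)
    (hmax : ∀ k, Null S A Z u cl (t + 1) k → ∃ l ∈ M, Agree S T l k)
    {b c c' : Fin n} (hg : S.Good A c c' b) (hl : pv (S.mv c c' b) b ∈ S.lat A) :
    ∃ l ∈ M, Agree S T l (c, c') := by
  set CM := M.image Prod.fst ∪ M.image Prod.snd with hCM
  have cCM : CM.card ≤ 2 * t := by
    have := (card_union_le (M.image Prod.fst) (M.image Prod.snd)).trans
      (add_le_add card_image_le card_image_le)
    rw [h.1] at this
    rw [hCM]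
    omega
  refine S.stepInd hS (by omega) (fun c c' => ∃ l ∈ M, Agree S T l (c, c'))
    (fun c c' => c ∉ CM ∧ c' ∉ CM) (fun c hc => hmax _ ⟨hc, hc, ?_⟩) (fun a b ha hb G hG => ?_)
    (fun c c' d d' hc hc' hd hd' hp hU hT => hmax _ ?_) hg hl
  · have b1 := S.card_not_good hS hc hc
    have : bad S A cl (c, c) = univ.filter fun b => ¬ S.Good A c c b := by
      ext z
      simp [bad, S.mv_self]
    rw [this]
    calc _ ≤ 2 * u := b1
      _ ≤ 4 * (t + 1) * u := Nat.mul_le_mul_right _ (by omega)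
  · have hG' := card_union_le G CM
    obtain ⟨c, c', h1, h2, h3, h4⟩ := S.exists_step hS ha hb (G ∪ CM) (by omega)
    rw [mem_union, not_or] at h1 h2
    exact ⟨c, c', h1.1, h2.1, h3, h4, h1.2, h2.2⟩
  · obtain ⟨m, hm, ha⟩ := hT
    refine null_of_par hS hcl hn (h.2.1 m hm) hc hc' hd hd' hp ?_ ha
    have m1 : m.1 ∈ CM := mem_union_left _ (mem_image_of_mem _ hm)
    have m2 : m.2 ∈ CM := mem_union_right _ (mem_image_of_mem _ hm)
    rw [disjoint_left]
    intro x hx hx'
    have hxC : x ∈ CM := by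
      rcases mem_insert.1 hx' with e | e
      · rwa [e]
      · rwa [mem_singleton.1 e]
    rcases mem_insert.1 hx with e | e
    · exact hU.1 (e ▸ hxC)
    · exact hU.2 (mem_singleton.1 e ▸ hxC)

/-- a maximal family bounds the size of a fibre -/
theorem card_fibre (hS : S.Sparse A Z u) {T t : ℕ} (hn : 4 * u < n)
    {M : Finset (Fin n × Fin n)} (hM : M.card = t) {F : Finset (Fin n)}
    (hF : ∀ a ∈ F, (0, a) ∉ Z) (hl : ∀ a ∈ F, ∀ b ∈ F, pv a b ∈ S.lat A)
    (hc : ∀ b c c', S.Good A c c' b → pv (S.mv c c' b) b ∈ S.lat A →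
      ∃ l ∈ M, Agree S T l (c, c')) : F.card ≤ 2 * (t * T) := by
  classical
  rcases F.eq_empty_or_nonempty with rfl | ⟨b, hb⟩
  · simp
  have hpos : 0 < n := by omega
  set D := (F ×ˢ (univ : Finset (Fin n))).filter
    fun p => S.pt 0 2 p.1 p.2 ∈ A ∧ S.pt 0 2 b p.2 ∈ A with hD
  set D' := (F ×ˢ (univ : Finset (Fin n))).filter
    fun p => ¬ (S.pt 0 2 p.1 p.2 ∈ A ∧ S.pt 0 2 b p.2 ∈ A) with hD'
  have c0 : D.card + D'.card = F.card * n := by
    rw [hD, hD', card_filter_add_card_filter_not, card_product, card_univ, Fintype.card_fin]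
  have c1 : D'.card ≤ 2 * u * F.card := by
    refine card_le_mul_card_image_of_maps_to (f := Prod.fst)
      (fun p hp => (mem_product.1 (mem_filter.1 hp).1).1) _ fun a ha => ?_
    refine le_trans ?_ (S.card_not_both hS (i := 0) (j := 2) (by decide) (hF a ha) (hF b hb))
    refine card_le_card_of_injOn Prod.snd (fun p hp => ?_) fun p hp q hq e => ?_
    · obtain ⟨h1, h2⟩ := mem_filter.1 (mem_coe.1 hp)
      have h3 := (mem_filter.1 h1).2
      rw [h2] at h3
      exact mem_coe.2 (mem_filter.2 ⟨mem_univ _, h3⟩)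
    · exact Prod.ext ((mem_filter.1 (mem_coe.1 hp)).2.trans (mem_filter.1 (mem_coe.1 hq)).2.symm) e
  have c2 : D.card ≤ (M.biUnion fun m => univ.filter fun k => Agree S T m k).card := by
    refine card_le_card_of_injOn
      (fun p => (S.co 1 (S.pt 0 2 p.1 p.2), S.co 1 (S.pt 0 2 b p.2))) (fun p hp => ?_)
      fun p _ q _ e => ?_
    · obtain ⟨h1, h2, h3⟩ := mem_filter.1 (mem_coe.1 hp)
      obtain ⟨t1, t2, t3⟩ := S.thru p.1 b p.2
      obtain ⟨l, hl1, hl2⟩ := hc b _ _ ⟨by rw [t1]; exact h3, by rw [t2]; exact h2⟩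
        (by rw [t3]; exact hl _ (mem_product.1 h1).1 b hb)
      exact mem_coe.2 (mem_biUnion.2 ⟨l, hl1, mem_filter.2 ⟨mem_univ _, hl2⟩⟩)
    · obtain ⟨e1, e2⟩ := Prod.mk.inj e
      have s : p.2 = q.2 :=
        (S.co_pt_bij (i := 0) (j := 2) (k := 1) (by decide) (by decide) b).1 e2
      have x : S.pt 0 2 p.1 p.2 = S.pt 0 2 q.1 q.2 :=
        S.ext2 (i := 1) (j := 2) (by decide) e1 (by
          rw [S.co_pt_snd (by decide), S.co_pt_snd (by decide), s])
      refine Prod.ext ?_ s
      rw [← S.co_pt_fst (i := 0) (j := 2) (by decide) p.1 p.2, x, S.co_pt_fst (by decide)]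
  have c3 : (M.biUnion fun m => univ.filter fun k => Agree S T m k).card ≤ t * (T * n) := by
    refine card_biUnion_le.trans ?_
    have := sum_le_card_nsmul M (fun m => (univ.filter fun k => Agree S T m k).card) (T * n)
      fun m _ => card_agree hpos T m
    rwa [smul_eq_mul, hM] at this
  have c4 : F.card * (4 * u) ≤ F.card * n := Nat.mul_le_mul_left _ hn.le
  have c5 : F.card * n ≤ 2 * (t * T) * n := by
    have e1 : F.card * (4 * u) = 2 * (2 * u * F.card) := by ring
    have e2 : 2 * (t * T) * n = 2 * (t * (T * n)) := by ring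
    omega
  exact Nat.le_of_mul_le_mul_right c5 hpos

theorem last {P : ℕ → Prop} (h0 : P 0) (j : ℕ) : P j ∨ ∃ t < j, P t ∧ ¬ P (t + 1) := by
  induction j with
  | zero => exact Or.inl h0
  | succ j ih =>
    by_cases h : P (j + 1)
    · exact Or.inl h
    rcases ih with ih | ⟨t, ht, ih⟩
    · exact Or.inr ⟨j, Nat.lt_succ_self j, ih, h⟩
    · exact Or.inr ⟨t, Nat.lt_succ_of_lt ht, ih⟩

end Cls

theorem classBound (J : ℕ) : ∃ C : ℕ, ∀ n : ℕ, ∀ (S : Sq n) (A : Finset (Cell n))
    (Z : Finset (Ln n)) (u : ℕ) (cl : Fin n → Fin n) (F : Finset (Fin n)), S.Sparse A Z u →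
    C * (u + 1) ≤ n → (∀ a b, S.Gad0 A 52 (pv a b) → cl a = cl b) → (∀ a ∈ F, (0, a) ∉ Z) →
    (∀ a ∈ F, ∀ b ∈ F, pv a b ∈ S.lat A) → J * (F.image cl).card ≤ n := by
  refine ⟨108 * J ^ 3 + 162 * J ^ 5 + 12 * J + 1000, fun n S A Z u cl F hS hn hcl hF hl => ?_⟩
  rcases Nat.eq_zero_or_pos J with rfl | hJ
  · simp
  have hT : 1 ≤ 27 * J ^ 3 := by
    have : 0 < 27 * J ^ 3 := by positivity
    omega
  have e0 : (108 * J ^ 3 + 162 * J ^ 5 + 12 * J + 1000) * (u + 1) =
      108 * J ^ 3 * u + (162 * J ^ 5 + 12 * J) * u + 1000 * u + 108 * J ^ 3 + 162 * J ^ 5 +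
        12 * J + 1000 := by ring
  rw [e0] at hn
  rcases Cls.last (P := fun t => ∃ M, Cls.Fam S A Z u cl (27 * J ^ 3) t M)
    ⟨∅, rfl, by simp, by simp⟩ (3 * J) with ⟨M, hM⟩ | ⟨t, ht, ⟨M, hM⟩, hmax⟩
  · refine le_trans (Nat.mul_le_mul_left _ (card_le_card ?_)) (Cls.full hJ hM (by omega))
    exact image_subset_image (subset_univ _)
  · have hmax' : ∀ k, Cls.Null S A Z u cl (t + 1) k → ∃ l ∈ M, Cls.Agree S (27 * J ^ 3) l k := by
      intro k hk
      by_contra hne
      push Not at hne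
      exact hmax ⟨_, hM.insert hT hk hne⟩
    have e1 : 27 * J ^ 3 * (4 * u) = 108 * J ^ 3 * u := by ring
    have c := Cls.card_fibre hS (T := 27 * J ^ 3) (by omega) hM.1 hF hl
      fun b c c' hg h => Cls.catches hS hcl (by omega) (by omega) hM hmax' hg h
    calc J * (F.image cl).card ≤ J * (2 * (3 * J * (27 * J ^ 3))) :=
          Nat.mul_le_mul_left _ (card_image_le.trans (c.trans
            (Nat.mul_le_mul_left _ (Nat.mul_le_mul_right _ ht.le))))
      _ = 162 * J ^ 5 := by ring
      _ ≤ n := by omega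

end PlexX
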