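import Pool.Agent.Lib.MP_3d3eb4_co.PX.Step

/-! Base rows and the growth of the solved set of classes. -/

namespace PlexX

open Finset

namespace Sq

variable {n : ℕ} (S : Sq n) {A : Finset (Cell n)} {Z : Finset (Ln n)} {u : ℕ}

/-- at most `u` rows are dead -/
theorem cross_live_rows (hS : S.Sparse A Z u) :
    n ≤ (univ.filter fun b : Fin n => ((0 : Fin 3), b) ∉ Z).card + u := by
  have h1 : (univ.filter fun b : Fin n => ((0 : Fin 3), b) ∈ Z).card ≤ Z.card := by
    refine Finset.card_le_card_of_injOn (fun b => ((0 : Fin 3), b)) (fun b hb => ?_) ?_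
    · exact (Finset.mem_filter.1 hb).2
    · intro b _ b' _ h
      exact (Prod.mk.inj h).2
  have h2 := Finset.card_filter_add_card_filter_not (s := (univ : Finset (Fin n)))
    (fun b : Fin n => ((0 : Fin 3), b) ∈ Z)
  rw [Finset.card_univ, Fintype.card_fin] at h2
  have := hS.cardZ
  omega

/-- some live row is good for most steps of a family of live steps -/
theorem cross_row (hS : S.Sparse A Z u) (h3 : 3 * u < n) (T : Finset (Fin n × Fin n))
    (hT : ∀ k ∈ T, ((1 : Fin 3), k.1) ∉ Z ∧ ((1 : Fin 3), k.2) ∉ Z) :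
    ∃ b : Fin n, ((0 : Fin 3), b) ∉ Z ∧
      n * (T.filter fun k => ¬ S.Good A k.1 k.2 b).card ≤ 3 * u * T.card := by
  by_contra hcon
  push Not at hcon
  set L := univ.filter fun b : Fin n => ((0 : Fin 3), b) ∉ Z with hL
  have hLc : n ≤ L.card + u := S.cross_live_rows hS
  have h1 : ∑ b : Fin n, (T.filter fun k => ¬ S.Good A k.1 k.2 b).card ≤ 2 * u * T.card := by
    have : ∑ b : Fin n, (T.filter fun k => ¬ S.Good A k.1 k.2 b).card =
        ∑ k ∈ T, (univ.filter fun b => ¬ S.Good A k.1 k.2 b).card := by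
      simp only [Finset.card_filter]
      exact Finset.sum_comm
    rw [this]
    calc _ ≤ ∑ _k ∈ T, 2 * u :=
          Finset.sum_le_sum fun k hk => S.card_not_good hS (hT k hk).1 (hT k hk).2
      _ = _ := by rw [Finset.sum_const, smul_eq_mul, mul_comm]
  have h2 : L.card * (3 * u * T.card + 1) ≤
      n * ∑ b : Fin n, (T.filter fun k => ¬ S.Good A k.1 k.2 b).card := by
    calc _ = ∑ _b ∈ L, (3 * u * T.card + 1) := by rw [Finset.sum_const, smul_eq_mul]
      _ ≤ ∑ b ∈ L, n * (T.filter fun k => ¬ S.Good A k.1 k.2 b).card :=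
          Finset.sum_le_sum fun b hb => hcon b (Finset.mem_filter.1 hb).2
      _ ≤ ∑ b : Fin n, n * (T.filter fun k => ¬ S.Good A k.1 k.2 b).card :=
          Finset.sum_le_sum_of_subset (Finset.subset_univ _)
      _ = _ := by rw [Finset.mul_sum]
  have h4 : n * ∑ b : Fin n, (T.filter fun k => ¬ S.Good A k.1 k.2 b).card ≤
      n * (2 * u * T.card) := Nat.mul_le_mul_left _ h1
  have h5 : 2 * n ≤ 3 * L.card := by omega
  have h6 : 2 * n * (u * T.card) ≤ 3 * L.card * (u * T.card) := Nat.mul_le_mul_right _ h5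
  have h7 : 0 < L.card := by omega
  nlinarith

theorem cross_base (hS : S.Sparse A Z u) (h3 : 3 * u < n) (K : ℕ) :
    ∃ b : Fin K → Fin n, (∀ j, ((0 : Fin 3), b j) ∉ Z) ∧ ∃ T : Finset (Fin n × Fin n),
      (∀ k ∈ T, ((1 : Fin 3), k.1) ∉ Z ∧ ((1 : Fin 3), k.2) ∉ Z) ∧
      n ^ K * T.card ≤ (3 * u) ^ K * n ^ 2 ∧
      ∀ c c', ((1 : Fin 3), c) ∉ Z → ((1 : Fin 3), c') ∉ Z → (c, c') ∉ T →
        ∃ j, S.Good A c c' (b j) := by
  induction K with
  | zero =>
    refine ⟨Fin.elim0, fun j => j.elim0,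
      univ.filter fun k => ((1 : Fin 3), k.1) ∉ Z ∧ ((1 : Fin 3), k.2) ∉ Z,
      fun k hk => (Finset.mem_filter.1 hk).2, ?_, fun c c' hc hc' h => ?_⟩
    · have := Finset.card_filter_le (univ : Finset (Fin n × Fin n))
        (fun k => ((1 : Fin 3), k.1) ∉ Z ∧ ((1 : Fin 3), k.2) ∉ Z)
      rw [Finset.card_univ, Fintype.card_prod, Fintype.card_fin] at this
      simpa [sq] using this
    · exact absurd (Finset.mem_filter.2 ⟨Finset.mem_univ _, hc, hc'⟩) h
  | succ K ih =>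
    obtain ⟨b, hb, T, hT, hc, hg⟩ := ih
    obtain ⟨b₀, hb₀, h⟩ := S.cross_row hS h3 T hT
    refine ⟨Fin.cons b₀ b, fun j => ?_, T.filter fun k => ¬ S.Good A k.1 k.2 b₀,
      fun k hk => hT k (Finset.mem_filter.1 hk).1, ?_, fun c c' h1 h2 h4 => ?_⟩
    · refine Fin.cases ?_ (fun j => ?_) j
      · exact hb₀
      · exact hb j
    · calc n ^ (K + 1) * (T.filter fun k => ¬ S.Good A k.1 k.2 b₀).card
          = n ^ K * (n * (T.filter fun k => ¬ S.Good A k.1 k.2 b₀).card) := by ring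
        _ ≤ n ^ K * (3 * u * T.card) := Nat.mul_le_mul_left _ h
        _ = 3 * u * (n ^ K * T.card) := by ring
        _ ≤ 3 * u * ((3 * u) ^ K * n ^ 2) := Nat.mul_le_mul_left _ hc
        _ = _ := by ring
    · by_cases hm : (c, c') ∈ T
      · refine ⟨0, ?_⟩
        by_contra hn
        exact h4 (Finset.mem_filter.2 ⟨hm, hn⟩)
      · obtain ⟨j, hj⟩ := hg c c' h1 h2 hm
        exact ⟨j.succ, hj⟩

theorem exists_base (hS : S.Sparse A Z u) (K : ℕ) (h3 : 3 * u < n)
    (hK : (3 * u) ^ K * n ^ 2 < n ^ K) :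
    ∃ b : Fin K → Fin n, (∀ j, (0, b j) ∉ Z) ∧
      ∀ c c', (1, c) ∉ Z → (1, c') ∉ Z → ∃ j, S.Good A c c' (b j) := by
  obtain ⟨b, hb, T, -, hc, hg⟩ := S.cross_base hS h3 K
  have hT : T = ∅ := by
    rw [← Finset.card_eq_zero]
    by_contra h0
    have : n ^ K * 1 ≤ n ^ K * T.card := Nat.mul_le_mul_left _ (Nat.one_le_iff_ne_zero.2 h0)
    omega
  exact ⟨b, hb, fun c c' h1 h2 => hg c c' h1 h2 (by rw [hT]; exact Finset.notMem_empty _)⟩

theorem cross_deg_mem {Λ : AddSubgroup (Ln n → ℤ)} {Q : Finset (Cell n)}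
    (h : ∀ x ∈ Q, S.vec x ∈ Λ) : S.deg Q ∈ Λ := sum_mem h

/-- the invariant of the growth process -/
def CrossInv {ι κ : Type} [DecidableEq κ] (A₁ : Finset (Cell n)) (cl : ι → κ)
    (vc : ι → Ln n → ℤ) (W : κ → Finset (Cell n)) (Λ : AddSubgroup (Ln n → ℤ))
    (Sol : Finset κ) (X In : Finset (Cell n)) : Prop :=
  X ⊆ A₁ ∧ X.card ≤ 52 * Sol.card ∧ In ⊆ X ∪ Sol.biUnion W ∧
    (∀ k ∈ Sol, ∃ ν, cl ν = k ∧ vc ν ∈ Λ) ∧
    ∀ ν, cl ν ∈ Sol → S.Solv (X ∪ Sol.biUnion W) In (vc ν)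

theorem cross_ext {ι κ : Type} [DecidableEq κ] {A₁ : Finset (Cell n)} {cl : ι → κ}
    {vc : ι → Ln n → ℤ} {W : κ → Finset (Cell n)} {Λ : AddSubgroup (Ln n → ℤ)}
    (hW : Pairwise fun k k' => Disjoint (W k) (W k')) (hA : ∀ k, Disjoint A₁ (W k))
    (hab : ∀ k, S.Absorbs {ν | cl ν = k} vc (W k)) (h₁ : ∀ x ∈ A₁, S.vec x ∈ Λ)
    (h₂ : ∀ k, ∀ x ∈ W k, S.vec x ∈ Λ) {Sol : Finset κ} {X In : Finset (Cell n)}
    (h : S.CrossInv A₁ cl vc W Λ Sol X In) {ν : ι} (hν : cl ν ∉ Sol) {w : Ln n → ℤ}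
    (hw : S.Solv (X ∪ Sol.biUnion W) In w) (hg : S.Gad0 (A₁ \ X) 52 (vc ν - w)) :
    ∃ X' In', S.CrossInv A₁ cl vc W Λ (insert (cl ν) Sol) X' In' := by
  obtain ⟨hX, hXc, hIn, hΛ, hsol⟩ := h
  obtain ⟨gp, gm, hgp, hgm, -, hc, hd⟩ := Gad.disj hg
  obtain ⟨Wp, hWp, hW'⟩ := hab (cl ν) ν rfl
  obtain ⟨In₂, hIn₂, hd₂⟩ := hw
  have hdeg : ∀ P Q G : Finset (Cell n), P ⊆ X ∪ Sol.biUnion W → Q ⊆ W (cl ν) → G ⊆ A₁ \ X →
      S.deg (P ∪ Q ∪ G) = S.deg P + S.deg Q + S.deg G := by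
    intro P Q G hP hQ hG
    have d1 : Disjoint P Q := by
      refine Finset.disjoint_left.2 fun x hx hx' => ?_
      rcases Finset.mem_union.1 (hP hx) with h | h
      · exact Finset.disjoint_left.1 (hA (cl ν)) (hX h) (hQ hx')
      · obtain ⟨k, hk, hxk⟩ := Finset.mem_biUnion.1 h
        have hne : k ≠ cl ν := fun e => hν (e ▸ hk)
        exact Finset.disjoint_left.1 (hW hne) hxk (hQ hx')
    have d2 : Disjoint (P ∪ Q) G := by
      refine Finset.disjoint_left.2 fun x hx hx' => ?_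
      obtain ⟨hxA, hxX⟩ := Finset.mem_sdiff.1 (hG hx')
      rcases Finset.mem_union.1 hx with h | h
      · rcases Finset.mem_union.1 (hP h) with h | h
        · exact hxX h
        · obtain ⟨k, -, hxk⟩ := Finset.mem_biUnion.1 h
          exact Finset.disjoint_left.1 (hA k) hxA hxk
      · exact Finset.disjoint_left.1 (hA (cl ν)) hxA (hQ h)
    rw [S.deg_union d2, S.deg_union d1]
  have hsub : ∀ P Q G : Finset (Cell n), P ⊆ X ∪ Sol.biUnion W → Q ⊆ W (cl ν) → G ⊆ gp ∪ gm →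
      P ∪ Q ∪ G ⊆ (X ∪ (gp ∪ gm)) ∪ (insert (cl ν) Sol).biUnion W := by
    intro P Q G hP hQ hG x hx
    rcases Finset.mem_union.1 hx with hx | hx
    · rcases Finset.mem_union.1 hx with hx | hx
      · rcases Finset.mem_union.1 (hP hx) with h | h
        · exact Finset.mem_union_left _ (Finset.mem_union_left _ h)
        · obtain ⟨k, hk, hxk⟩ := Finset.mem_biUnion.1 h
          exact Finset.mem_union_right _
            (Finset.mem_biUnion.2 ⟨k, Finset.mem_insert_of_mem hk, hxk⟩)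
      · exact Finset.mem_union_right _
          (Finset.mem_biUnion.2 ⟨cl ν, Finset.mem_insert_self _ _, hQ hx⟩)
    · exact Finset.mem_union_left _ (Finset.mem_union_right _ (hG hx))
  have hR : ∀ P : Finset (Cell n), P ⊆ X ∪ Sol.biUnion W → S.deg P ∈ Λ := by
    intro P hP
    refine S.cross_deg_mem fun x hx => ?_
    rcases Finset.mem_union.1 (hP hx) with h | h
    · exact h₁ x (hX h)
    · obtain ⟨k, -, hxk⟩ := Finset.mem_biUnion.1 h
      exact h₂ k x hxk
  refine ⟨X ∪ (gp ∪ gm), In ∪ Wp ∪ gp, ?_, ?_, hsub _ _ _ hIn hWp Finset.subset_union_left,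
    ?_, ?_⟩
  · exact Finset.union_subset hX (Finset.union_subset (hgp.trans Finset.sdiff_subset)
      (hgm.trans Finset.sdiff_subset))
  · rw [Finset.card_insert_of_notMem hν]
    have a1 := Finset.card_union_le X (gp ∪ gm)
    have a2 := Finset.card_union_le gp gm
    omega
  · intro k hk
    rcases Finset.mem_insert.1 hk with rfl | hk
    · refine ⟨ν, rfl, ?_⟩
      have e : vc ν = S.deg In - S.deg In₂ + (S.deg gp - S.deg gm) := by
        rw [hd, hd₂]; abel
      rw [e]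
      exact add_mem (sub_mem (hR _ hIn) (hR _ hIn₂)) (sub_mem
        (S.cross_deg_mem fun x hx => h₁ x (Finset.mem_sdiff.1 (hgp hx)).1)
        (S.cross_deg_mem fun x hx => h₁ x (Finset.mem_sdiff.1 (hgm hx)).1))
    · exact hΛ k hk
  · intro μ hμ
    rcases Finset.mem_insert.1 hμ with hμ | hμ
    · obtain ⟨W', hW'₁, hW'₂⟩ := hW' μ hμ
      refine ⟨In₂ ∪ W' ∪ gm, hsub _ _ _ hIn₂ hW'₁ Finset.subset_union_right, ?_⟩
      rw [hdeg _ _ _ hIn₂ hW'₁ hgm, hdeg _ _ _ hIn hWp hgp, hd₂, hW'₂,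
        show S.deg gp = vc ν - w + S.deg gm from by rw [← hd]; abel]
      abel
    · obtain ⟨In₃, hIn₃, hd₃⟩ := hsol μ hμ
      refine ⟨In₃ ∪ Wp ∪ gp, hsub _ _ _ hIn₃ hWp Finset.subset_union_left, ?_⟩
      rw [hdeg _ _ _ hIn₃ hWp hgp, hdeg _ _ _ hIn hWp hgp, hd₃]
      abel

theorem crossGrow {ι κ : Type} [Fintype κ] [DecidableEq κ] (A₁ : Finset (Cell n)) (cl : ι → κ)
    (vc : ι → Ln n → ℤ) (W : κ → Finset (Cell n)) (Λ : AddSubgroup (Ln n → ℤ))
    (hW : Pairwise fun k k' => Disjoint (W k) (W k')) (hA : ∀ k, Disjoint A₁ (W k))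
    (hab : ∀ k, S.Absorbs {ν | cl ν = k} vc (W k)) (h₁ : ∀ x ∈ A₁, S.vec x ∈ Λ)
    (h₂ : ∀ k, ∀ x ∈ W k, S.vec x ∈ Λ) :
    ∃ (Sol : Finset κ) (X In : Finset (Cell n)), X ⊆ A₁ ∧ X.card ≤ 52 * Sol.card ∧
      In ⊆ X ∪ univ.biUnion W ∧ (∀ k ∈ Sol, ∃ ν, cl ν = k ∧ vc ν ∈ Λ) ∧
      (∀ ν, cl ν ∈ Sol → S.Solv (X ∪ univ.biUnion W) In (vc ν)) ∧
      (∀ ν, S.Gad0 (A₁ \ X) 52 (vc ν) → cl ν ∈ Sol) ∧
      ∀ ν ν', cl ν' ∈ Sol → S.Gad0 (A₁ \ X) 52 (vc ν - vc ν') → cl ν ∈ Sol := by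
  classical
  have h0 : S.CrossInv A₁ cl vc W Λ ∅ ∅ ∅ :=
    ⟨Finset.empty_subset _, by simp, Finset.empty_subset _,
      fun k hk => absurd hk (Finset.notMem_empty _), fun ν hν => absurd hν (Finset.notMem_empty _)⟩
  obtain ⟨Sol, hSol, hmax⟩ := Finset.exists_max_image
    (univ.filter fun Sol : Finset κ => ∃ X In, S.CrossInv A₁ cl vc W Λ Sol X In) Finset.card
    ⟨∅, Finset.mem_filter.2 ⟨Finset.mem_univ _, ∅, ∅, h0⟩⟩
  obtain ⟨X, In, hI⟩ := (Finset.mem_filter.1 hSol).2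
  have key : ∀ ν w, S.Solv (X ∪ Sol.biUnion W) In w → S.Gad0 (A₁ \ X) 52 (vc ν - w) →
      cl ν ∈ Sol := by
    intro ν w hw hg
    by_contra hν
    have := hmax _ (Finset.mem_filter.2 ⟨Finset.mem_univ _,
      S.cross_ext hW hA hab h₁ h₂ hI hν hw hg⟩)
    rw [Finset.card_insert_of_notMem hν] at this
    omega
  obtain ⟨hX, hXc, hIn, hΛ, hsol⟩ := hI
  have hm : X ∪ Sol.biUnion W ⊆ X ∪ univ.biUnion W :=
    Finset.union_subset_union subset_rfl
      (Finset.biUnion_subset_biUnion_of_subset_left _ (Finset.subset_univ _))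
  refine ⟨Sol, X, In, hX, hXc, hIn.trans hm, hΛ, fun ν hν => ?_, fun ν hg => ?_,
    fun ν ν' hν' hg => key ν _ (hsol ν' hν') hg⟩
  · obtain ⟨In', h1, h2⟩ := hsol ν hν
    exact ⟨In', h1.trans hm, h2⟩
  · exact key ν 0 ⟨In, hIn, (sub_zero _).symm⟩ (by rwa [sub_zero])

/-- a family in which every member conflicts with at most two others has a conflict-free third -/
theorem exists_free_third {ι α : Type} [DecidableEq ι] (I : Finset ι) (f g : ι → α)
    (hf : Function.Injective f) (hg : Function.Injective g) :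
    ∃ I' ⊆ I, I.card ≤ 3 * I'.card ∧ ∀ s ∈ I', ∀ t ∈ I', s ≠ t → f s ≠ g t := by
  classical
  induction I using Finset.strongInduction with
  | H I ih =>
    rcases I.eq_empty_or_nonempty with rfl | ⟨s, hs⟩
    · exact ⟨∅, subset_rfl, by simp, fun s hs => absurd hs (Finset.notMem_empty _)⟩
    · set J := I.filter fun t => t ≠ s ∧ f s ≠ g t ∧ f t ≠ g s with hJ
      have hsJ : s ∉ J := fun h => (Finset.mem_filter.1 h).2.1 rfl
      have hJI : J ⊂ I := ⟨Finset.filter_subset _ _, fun h => hsJ (h hs)⟩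
      obtain ⟨J', hJ', hc, hfree⟩ := ih J hJI
      have hsJ' : s ∉ J' := fun h => hsJ (hJ' h)
      have c1 : (I.filter fun t => f s = g t).card ≤ 1 :=
        Finset.card_le_one.2 fun a ha b hb =>
          hg ((Finset.mem_filter.1 ha).2.symm.trans (Finset.mem_filter.1 hb).2)
      have c2 : (I.filter fun t => f t = g s).card ≤ 1 :=
        Finset.card_le_one.2 fun a ha b hb =>
          hf ((Finset.mem_filter.1 ha).2.trans (Finset.mem_filter.1 hb).2.symm)
      have c3 : I ⊆ insert s (J ∪ ((I.filter fun t => f s = g t) ∪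
          (I.filter fun t => f t = g s))) := by
        intro t ht
        by_cases h1 : t = s
        · exact Finset.mem_insert.2 (Or.inl h1)
        refine Finset.mem_insert_of_mem ?_
        by_cases h2 : f s = g t
        · exact Finset.mem_union_right _ (Finset.mem_union_left _ (Finset.mem_filter.2 ⟨ht, h2⟩))
        by_cases h3 : f t = g s
        · exact Finset.mem_union_right _ (Finset.mem_union_right _ (Finset.mem_filter.2 ⟨ht, h3⟩))
        exact Finset.mem_union_left _ (Finset.mem_filter.2 ⟨ht, h1, h2, h3⟩)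
      have c4 := Finset.card_le_card c3
      have c5 := Finset.card_insert_le s (J ∪ ((I.filter fun t => f s = g t) ∪
          (I.filter fun t => f t = g s)))
      have c6 := Finset.card_union_le J ((I.filter fun t => f s = g t) ∪
          (I.filter fun t => f t = g s))
      have c7 := Finset.card_union_le (I.filter fun t => f s = g t) (I.filter fun t => f t = g s)
      refine ⟨insert s J', Finset.insert_subset hs (hJ'.trans hJI.1), ?_, ?_⟩
      · rw [Finset.card_insert_of_notMem hsJ']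
        omega
      · intro a ha b hb hab
        rcases Finset.mem_insert.1 ha with ha' | ha' <;> rcases Finset.mem_insert.1 hb with hb' | hb'
        · exact absurd (ha'.trans hb'.symm) hab
        · rw [ha']; exact (Finset.mem_filter.1 (hJ' hb')).2.2.1
        · rw [hb']; exact (Finset.mem_filter.1 (hJ' ha')).2.2.2
        · exact hfree a ha' b hb' hab

end Sq

end PlexX
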