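import Pool.Agent.Lib.MP_3d3eb4_co.PX.Forest
import Pool.Agent.Lib.MP_3d3eb4_co.PX.Classes
import Pool.Agent.Lib.MP_3d3eb4_co.PX.Cross

/-! The absorber for pairs of rows of label zero. -/

namespace PlexX

open Finset

namespace Sq

variable {n : ℕ} (S : Sq n) {A : Finset (Cell n)} {Z : Finset (Ln n)} {u : ℕ}

theorem ab_sparse_sdiff (hS : S.Sparse A Z u) (X : Finset (Cell n)) :
    S.Sparse (A \ X) Z (u + X.card) := by
  refine ⟨hS.cardZ.trans (Nat.le_add_right _ _), fun x hx => hS.off x (mem_sdiff.1 hx).1,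
    fun l hl => ?_⟩
  have h1 : (A \ X)ᶜ ⊆ Aᶜ ∪ X := by
    intro x hx
    simp only [mem_compl, mem_sdiff, mem_union, not_and, not_not] at hx ⊢
    by_cases h : x ∈ A
    · exact Or.inr (hx h)
    · exact Or.inl h
  exact (S.cnt_mono h1 l).trans ((S.cnt_union_le _ _ l).trans
    (add_le_add (hS.few l hl) (S.cnt_le_card X l)))

theorem ab_card_dead (Z : Finset (Ln n)) :
    (univ.filter fun a : Fin n => ((0 : Fin 3), a) ∈ Z).card ≤ Z.card := by
  refine card_le_card_of_injOn (fun a => ((0 : Fin 3), a)) (fun a ha => ?_) ?_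
  · exact (mem_filter.1 (mem_coe.1 ha)).2
  · intro a _ b _ h
    exact (Prod.mk.inj h).2

/-- the solved classes are few -/
theorem ab_card_sol {K J : ℕ} (cl : Fin K → Fin n → Fin n) (F : Fin K → Finset (Fin n))
    (Sol : Finset (Fin n × Fin K)) (hF : ∀ j, J * ((F j).image (cl j)).card ≤ n)
    (hSol : ∀ k ∈ Sol, ∃ a, cl k.2 a = k.1 ∧ (a ∈ F k.2 ∨ ((0 : Fin 3), a) ∈ Z)) :
    J * Sol.card ≤ K * (n + J * Z.card) := by
  classical
  set D := univ.filter fun a : Fin n => ((0 : Fin 3), a) ∈ Z with hD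
  have h1 : Sol ⊆ univ.biUnion fun j : Fin K =>
      ((F j).image (cl j) ∪ D.image (cl j)).image fun i => (i, j) := by
    intro k hk
    obtain ⟨a, ha, h⟩ := hSol k hk
    refine mem_biUnion.2 ⟨k.2, mem_univ _, mem_image.2 ⟨k.1, ?_, rfl⟩⟩
    rcases h with h | h
    · exact mem_union_left _ (mem_image.2 ⟨a, h, ha⟩)
    · exact mem_union_right _ (mem_image.2 ⟨a, mem_filter.2 ⟨mem_univ _, h⟩, ha⟩)
  have h2 : Sol.card ≤ ∑ j : Fin K, (((F j).image (cl j)).card + Z.card) := by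
    refine (card_le_card h1).trans (card_biUnion_le.trans (sum_le_sum fun j _ => ?_))
    refine card_image_le.trans ((card_union_le _ _).trans ?_)
    exact Nat.add_le_add_left (card_image_le.trans (ab_card_dead Z)) _
  calc J * Sol.card ≤ J * ∑ j : Fin K, (((F j).image (cl j)).card + Z.card) :=
        Nat.mul_le_mul_left _ h2
    _ = ∑ j : Fin K, (J * ((F j).image (cl j)).card + J * Z.card) := by
        rw [mul_sum]; exact sum_congr rfl fun j _ => mul_add _ _ _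
    _ ≤ ∑ _j : Fin K, (n + J * Z.card) := sum_le_sum fun j _ => Nat.add_le_add_right (hF j) _
    _ = K * (n + J * Z.card) := by simp

/-- few symbols lead to a column of a small set -/
theorem ab_card_col (a : Fin n) (G : Finset (Fin n)) :
    (univ.filter fun s => S.co 1 (S.pt 0 2 a s) ∈ G).card ≤ G.card := by
  refine card_le_card_of_injOn (fun s => S.co 1 (S.pt 0 2 a s)) (fun s hs => ?_) ?_
  · exact (mem_filter.1 (mem_coe.1 hs)).2
  · exact (S.co_pt_bij (i := 0) (j := 2) (k := 1) (by decide) (by decide) a).1.injOn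

/-- the family of four-cell moves through a pair of rows -/
theorem ab_family (hS : S.Sparse A Z u) (G : Finset (Fin n)) (hn : 8 * u + 8 * G.card ≤ n)
    {K : ℕ} (base : Fin K → Fin n) (P : (Ln n → ℤ) → Prop) {a b : Fin n} (ha : (0, a) ∉ Z)
    (hb : (0, b) ∉ Z) (hab : a ≠ b) (hbase : ∀ j, b ≠ base j)
    (hP : ∀ c c', c ∉ G → c' ∉ G → S.Good A c c' b → S.mv c c' b = a →
      ∃ j, S.Good A c c' (base j) ∧ P (pv (S.mv c c' (base j)) (base j))) :
    ∃ (I : Finset (Fin n)) (x : Fin 4 → Fin n → Cell n), n ≤ 4 * I.card ∧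
      (∀ k, ∀ s ∈ I, x k s ∈ A) ∧ Set.InjOn (fun p : Fin 4 × Fin n => x p.1 p.2) {p | p.2 ∈ I} ∧
      ∀ s ∈ I, P (pv a b - S.vec (x 0 s) + S.vec (x 1 s) - S.vec (x 2 s) + S.vec (x 3 s)) := by
  classical
  set f : Fin n → Fin n := fun s => S.co 1 (S.pt 0 2 a s) with hf
  set g : Fin n → Fin n := fun s => S.co 1 (S.pt 0 2 b s) with hg
  have hfi : Function.Injective f :=
    (S.co_pt_bij (i := 0) (j := 2) (k := 1) (by decide) (by decide) a).1
  have hgi : Function.Injective g :=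
    (S.co_pt_bij (i := 0) (j := 2) (k := 1) (by decide) (by decide) b).1
  set I0 := univ.filter fun s => (S.pt 0 2 a s ∈ A ∧ S.pt 0 2 b s ∈ A) ∧ f s ∉ G ∧ g s ∉ G
    with hI0
  have hc0 : n ≤ I0.card + (2 * u + 2 * G.card) := by
    have h1 : (univ : Finset (Fin n)) ⊆ I0 ∪
        ((univ.filter fun s => ¬ (S.pt 0 2 a s ∈ A ∧ S.pt 0 2 b s ∈ A)) ∪
          ((univ.filter fun s => f s ∈ G) ∪ (univ.filter fun s => g s ∈ G))) := by
      intro s _
      simp only [hI0, mem_union, mem_filter, mem_univ, true_and]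
      tauto
    have h2 := card_le_card h1
    rw [card_univ, Fintype.card_fin] at h2
    have h3 := S.card_not_both hS (i := 0) (j := 2) (by decide) ha hb
    have h4 := S.ab_card_col a G
    have h5 := S.ab_card_col b G
    refine h2.trans ((card_union_le _ _).trans (Nat.add_le_add_left ?_ _))
    refine (card_union_le _ _).trans (add_le_add h3 ((card_union_le _ _).trans ?_))
    rw [two_mul]
    exact add_le_add h4 h5
  have hmv : ∀ s, S.mv (f s) (g s) b = a := fun s => (S.thru a b s).2.2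
  have hgood : ∀ s ∈ I0, S.Good A (f s) (g s) b := by
    intro s hs
    obtain ⟨⟨h1, h2⟩, -⟩ := (mem_filter.1 hs).2
    exact ⟨by rw [(S.thru a b s).1]; exact h2, by rw [(S.thru a b s).2.1]; exact h1⟩
  have hex : ∀ s, ∃ z, s ∈ I0 → b ≠ z ∧ S.Good A (f s) (g s) z ∧ P (pv (S.mv (f s) (g s) z) z) := by
    intro s
    by_cases hs : s ∈ I0
    · obtain ⟨-, h1, h2⟩ := (mem_filter.1 hs).2
      obtain ⟨j, hj⟩ := hP _ _ h1 h2 (hgood s hs) (hmv s)
      exact ⟨base j, fun _ => ⟨hbase j, hj⟩⟩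
    · exact ⟨b, fun h => absurd h hs⟩
  choose z hz using hex
  obtain ⟨I, hI, hc, hfree⟩ := exists_free_third I0 f g hfi hgi
  have hfg : ∀ s, f s ≠ g s := by
    intro s h
    have h1 := hmv s
    rw [h, S.mv_self] at h1
    exact hab h1.symm
  let x : Fin 4 → Fin n → Cell n := fun k s =>
    ![S.tgt (f s) (g s) b, S.src (g s) b, S.src (g s) (z s), S.tgt (f s) (g s) (z s)] k
  have x0 : ∀ s, x 0 s = S.tgt (f s) (g s) b := fun _ => rfl
  have x1 : ∀ s, x 1 s = S.src (g s) b := fun _ => rfl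
  have x2 : ∀ s, x 2 s = S.src (g s) (z s) := fun _ => rfl
  have x3 : ∀ s, x 3 s = S.tgt (f s) (g s) (z s) := fun _ => rfl
  have hk : ∀ k : Fin 4, k = 0 ∨ k = 1 ∨ k = 2 ∨ k = 3 := by decide
  have hcol : ∀ k s, S.co 1 (x k s) = f s ∨ S.co 1 (x k s) = g s := by
    intro k s
    rcases hk k with rfl | rfl | rfl | rfl
    · exact Or.inl (S.co1_tgt _ _ _)
    · exact Or.inr (S.co1_src _ _)
    · exact Or.inr (S.co1_src _ _)
    · exact Or.inl (S.co1_tgt _ _ _)
  refine ⟨I, x, by omega, fun k s hs => ?_, ?_, fun s hs => ?_⟩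
  · rcases hk k with rfl | rfl | rfl | rfl
    · exact (hgood s (hI hs)).2
    · exact (hgood s (hI hs)).1
    · exact (hz s (hI hs)).2.1.1
    · exact (hz s (hI hs)).2.1.2
  · rintro ⟨k, s⟩ hs ⟨k', t⟩ ht h
    have hs' : s ∈ I := hs
    have ht' : t ∈ I := ht
    have h' : x k s = x k' t := h
    have hst : s = t := by
      by_contra hne
      have e := congrArg (S.co 1) h'
      rcases hcol k s with h1 | h1 <;> rcases hcol k' t with h2 | h2 <;> rw [h1, h2] at e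
      · exact hne (hfi e)
      · exact hfree s hs' t ht' hne e
      · exact hfree t ht' s hs' (Ne.symm hne) e.symm
      · exact hne (hgi e)
    subst hst
    have hbz := (hz s (hI hs')).1
    have d1 : ∀ v w, S.tgt (f s) (g s) v ≠ S.src (g s) w := fun v w e => hfg s (by
      have e' := congrArg (S.co 1) e
      rwa [S.co1_tgt, S.co1_src] at e')
    have d2 : S.tgt (f s) (g s) b ≠ S.tgt (f s) (g s) (z s) := fun e => hbz (S.tgt_inj _ _ e)
    have d3 : S.src (g s) b ≠ S.src (g s) (z s) := fun e => hbz (S.src_inj _ e)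
    have hkk : k = k' := by
      rcases hk k with rfl | rfl | rfl | rfl <;> rcases hk k' with rfl | rfl | rfl | rfl <;>
        simp only [x0, x1, x2, x3] at h' <;>
        first
          | rfl
          | exact absurd h' (d1 _ _)
          | exact absurd h'.symm (d1 _ _)
          | exact absurd h' d2
          | exact absurd h'.symm d2
          | exact absurd h' d3
          | exact absurd h'.symm d3
    rw [hkk]
  · have e1 := S.vec_tgt_sub (f s) (g s) b
    have e2 := S.vec_tgt_sub (f s) (g s) (z s)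
    rw [hmv s] at e1
    have e : pv a b - S.vec (x 0 s) + S.vec (x 1 s) - S.vec (x 2 s) + S.vec (x 3 s) =
        pv (S.mv (f s) (g s) (z s)) (z s) := by
      rw [x0, x1, x2, x3, eq_add_of_sub_eq e1, eq_add_of_sub_eq e2]
      abel
    rw [e]
    exact (hz s (hI hs)).2.2

theorem ab_absorbs {K : ℕ} (cl : Fin K → Fin n → Fin n) (base : Fin K → Fin n)
    (W : Fin n × Fin K → Finset (Cell n))
    (h : ∀ i j, S.Absorbs {a | cl j a = i} er (W (i, j))) (k : Fin n × Fin K) :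
    S.Absorbs {ν : Fin n × Fin K | (cl ν.2 ν.1, ν.2) = k} (fun ν => pv ν.1 (base ν.2)) (W k) := by
  obtain ⟨i, j⟩ := k
  rintro ⟨r, j₁⟩ hr
  obtain ⟨hr1, hr2⟩ := Prod.mk.inj (show (cl j₁ r, j₁) = (i, j) from hr)
  subst hr2
  obtain ⟨Wp, hWp, hx⟩ := h i j₁ r hr1
  refine ⟨Wp, hWp, ?_⟩
  rintro ⟨a, j₂⟩ ha
  obtain ⟨ha1, ha2⟩ := Prod.mk.inj (show (cl j₂ a, j₂) = (i, j₁) from ha)
  subst ha2
  obtain ⟨W', hW', e⟩ := hx a ha1
  refine ⟨W', hW', ?_⟩
  rw [e]
  simp only [pv]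
  abel

/-- every step through a pair of label zero ends in solved nodes -/
theorem ab_steps {A₁ X : Finset (Cell n)} (hS : S.Sparse (A₁ \ X) Z u)
    (hn : 100 * u + 1000 ≤ n) (hX : X.card ≤ u) {K : ℕ} (base : Fin K → Fin n)
    (hbase : ∀ c c', (1, c) ∉ Z → (1, c') ∉ Z → ∃ j, S.Good A₁ c c' (base j))
    (R : Fin n × Fin K → Prop)
    (h1 : ∀ ν, S.Gad0 (A₁ \ X) 52 (pv ν.1 (base ν.2)) → R ν)
    (h2 : ∀ ν ν', R ν' → S.Gad0 (A₁ \ X) 52 (pv ν.1 (base ν.2) - pv ν'.1 (base ν'.2)) → R ν) :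
    (∀ c c', c ∉ X.image (S.co 1) → c' ∉ X.image (S.co 1) → (1, c) ∉ Z → (1, c') ∉ Z →
      ∃ j, S.Good (A₁ \ X) c c' (base j)) ∧
    ∀ b c c', S.Good (A₁ \ X) c c' b → pv (S.mv c c' b) b ∈ S.lat (A₁ \ X) →
      ∀ j, S.Good (A₁ \ X) c c' (base j) → R (S.mv c c' (base j), j) := by
  classical
  have hU : ∀ c c', c ∉ X.image (S.co 1) → c' ∉ X.image (S.co 1) → (1, c) ∉ Z → (1, c') ∉ Z →
      ∃ j, S.Good (A₁ \ X) c c' (base j) := by
    intro c c' hc hc' lc lc'
    obtain ⟨j, g1, g2⟩ := hbase c c' lc lc'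
    refine ⟨j, mem_sdiff.2 ⟨g1, fun h => hc' ?_⟩, mem_sdiff.2 ⟨g2, fun h => hc ?_⟩⟩
    · exact mem_image.2 ⟨_, h, S.co1_src _ _⟩
    · exact mem_image.2 ⟨_, h, S.co1_tgt _ _ _⟩
  refine ⟨hU, fun b c c' hg hl => ?_⟩
  refine S.stepInd hS hn
    (fun c c' => ∀ j, S.Good (A₁ \ X) c c' (base j) → R (S.mv c c' (base j), j))
    (fun c c' => ∃ j, S.Good (A₁ \ X) c c' (base j)) ?_ ?_ ?_ hg hl
  · intro c _ j _
    refine h1 _ ?_
    show S.Gad0 (A₁ \ X) 52 (pv (S.mv c c (base j)) (base j))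
    rw [S.mv_self, pv_self]
    exact Gad.zero
  · intro a b ha hb G hG
    have hc : (G ∪ X.image (S.co 1)).card ≤ 50 + u :=
      (card_union_le _ _).trans (add_le_add hG (card_image_le.trans hX))
    obtain ⟨c, c', k1, k2, k3, k4⟩ := S.exists_step hS ha hb (G ∪ X.image (S.co 1)) (by omega)
    rw [mem_union, not_or] at k1 k2
    obtain ⟨-, -, l1, l2⟩ := k3.live hS
    exact ⟨c, c', k1.1, k2.1, k3, k4, hU c c' k1.2 k2.2 l1 l2⟩
  · rintro c c' d d' - - - - hP ⟨j₀, g₀⟩ hT j g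
    exact h2 (S.mv c c' (base j), j) (S.mv d d' (base j₀), j₀) (hT j₀ g₀) (hP _ _ g g₀)

end Sq

theorem absorber (J : ℕ) : ∃ C : ℕ, ∀ n : ℕ, ∀ (S : Sq n) (A : Finset (Cell n))
    (Z : Finset (Ln n)) (u m y : ℕ), S.Sparse A Z u → S.Stable A Z (1000 * n) (9 * y) → 0 < m →
    156 * n ≤ m * y → C * (u + m + y + 1) ≤ n → (3 * (u + 9 * (m + y))) ^ 9 * n ^ 2 < n ^ 9 →
    ∃ (Z' : Finset (Ln n)) (Rs In : Finset (Cell n)), Z ⊆ Z' ∧ Z'.card ≤ u + 9 * y ∧ Rs ⊆ A ∧
      In ⊆ Rs ∧ (∀ l, J * S.cnt Rs l ≤ n) ∧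
      ∀ a b, (0, a) ∉ Z' → (0, b) ∉ Z' → a ≠ b → pv a b ∈ S.lat A →
        S.Solv Rs In (pv a b) ∨ ∃ (I : Finset (Fin n)) (x : Fin 4 → Fin n → Cell n),
          n ≤ 4 * I.card ∧ (∀ k, ∀ s ∈ I, x k s ∈ A ∧ x k s ∉ Rs ∧ S.Off Z' (x k s)) ∧
          Set.InjOn (fun p : Fin 4 × Fin n => x p.1 p.2) {p | p.2 ∈ I} ∧
          ∀ s ∈ I, S.Solv Rs In
            (pv a b - S.vec (x 0 s) + S.vec (x 1 s) - S.vec (x 2 s) + S.vec (x 3 s)) := by
  classical
  obtain ⟨C₁, hC₁⟩ := classBound (1000000 * (J + 1))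
  refine ⟨9 * C₁ + 9000000 * (J + 1), fun n S A Z u m y hS hSt hm hy hC hK => ?_⟩
  obtain ⟨cl, W, A₉, Z', hWA, hWd, hab, hWc, hWl, hA₉, hZ, hZc, hAW, hcov, hS₉, hcl⟩ :=
    S.forests hS m y hm hy 9
  obtain ⟨s, hs⟩ : ∃ s, s = u + m + y + 1 := ⟨_, rfl⟩
  obtain ⟨u₉, hu₉⟩ : ∃ v, v = u + 9 * (m + y) := ⟨_, rfl⟩
  rw [← hs] at hC
  rw [← hu₉] at hK hS₉
  have hus : u₉ + 1 ≤ 9 * s := by omega
  have hJs : 9 * (C₁ * s) + 9000000 * (J * s) + 9000000 * s ≤ n := by
    refine le_of_eq_of_le ?_ hC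
    ring
  have hC9 : C₁ * (u₉ + 1) ≤ n := by
    have h1 : C₁ * (u₉ + 1) ≤ C₁ * (9 * s) := Nat.mul_le_mul_left _ hus
    have h2 : C₁ * (9 * s) = 9 * (C₁ * s) := by ring
    omega
  obtain ⟨base, hbl, hbase⟩ := S.exists_base hS₉ 9 (by omega) hK
  obtain ⟨Sol, X, In, hXA, hXc, hIn, hSol, hsolv, hg1, hg2⟩ :=
    S.crossGrow A₉ (fun ν : Fin n × Fin 9 => (cl ν.2 ν.1, ν.2)) (fun ν => pv ν.1 (base ν.2)) W
      (S.lat A) hWd hAW (S.ab_absorbs cl base W hab) (fun x hx => S.vec_mem_lat (hA₉ hx))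
      (fun k x hx => S.vec_mem_lat (hWA k hx))
  have hrem : ∀ Y : Finset (Cell n), ((A \ (A₉ \ Y)).filter (S.Off Z')).card ≤
      9 * (52 * n) + Y.card := by
    intro Y
    have h1 : (A \ (A₉ \ Y)).filter (S.Off Z') ⊆ univ.biUnion W ∪ Y := by
      intro x hx
      obtain ⟨h1, h2⟩ := mem_filter.1 hx
      obtain ⟨h3, h4⟩ := mem_sdiff.1 h1
      rcases hcov x h3 h2 with h | h
      · refine mem_union_right _ ?_
        by_contra h5
        exact h4 (mem_sdiff.2 ⟨h, h5⟩)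
      · exact mem_union_left _ h
    exact (card_le_card h1).trans ((card_union_le _ _).trans (Nat.add_le_add_right hWc _))
  have hSolc : 1000000 * (J + 1) * Sol.card ≤ 9 * (n + 1000000 * (J + 1) * Z'.card) := by
    refine Sq.ab_card_sol cl
      (fun j => univ.filter fun a => ((0 : Fin 3), a) ∉ Z' ∧ pv a (base j) ∈ S.lat A) Sol
      (fun j => ?_) (fun k hk => ?_)
    · refine hC₁ n S A₉ Z' u₉ (cl j) _ hS₉ hC9 (hcl j) (fun a ha => (mem_filter.1 ha).2.1)
        (fun a ha b hb => ?_)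
      obtain ⟨la, ma⟩ := (mem_filter.1 ha).2
      obtain ⟨lb, mb⟩ := (mem_filter.1 hb).2
      have h0 := hrem ∅
      rw [sdiff_empty, card_empty] at h0
      refine hSt A₉ Z' u₉ hA₉ hZ hS₉ (by omega) hZc (by omega) a b la lb ?_
      have e : pv a b = pv a (base j) - pv b (base j) := by
        simp only [pv]
        abel
      rw [e]
      exact sub_mem ma mb
    · obtain ⟨ν, h1, h2⟩ := hSol k hk
      obtain ⟨h3, h4⟩ := Prod.ext_iff.1 h1
      have h4' : ν.2 = k.2 := h4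
      have h3' : cl ν.2 ν.1 = k.1 := h3
      refine ⟨ν.1, h4' ▸ h3', ?_⟩
      by_cases hl : ((0 : Fin 3), ν.1) ∈ Z'
      · exact Or.inr hl
      · exact Or.inl (mem_filter.2 ⟨mem_univ _, hl, h4' ▸ h2⟩)
  have hZs : Z'.card ≤ 9 * s := by
    have := hS₉.cardZ
    omega
  have hX1 : 1000000 * (J * X.card) + 1000000 * X.card ≤ 936 * n := by
    have h1 : 1000000 * (J + 1) * X.card ≤ 1000000 * (J + 1) * (52 * Sol.card) :=
      Nat.mul_le_mul_left _ hXc
    have h2 : 1000000 * (J + 1) * Z'.card ≤ 1000000 * (J + 1) * (9 * s) :=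
      Nat.mul_le_mul_left _ hZs
    have h3 : 1000000 * (J + 1) * (9 * s) = 9000000 * (J * s) + 9000000 * s := by ring
    have h4 : 1000000 * (J + 1) * (52 * Sol.card) = 52 * (1000000 * (J + 1) * Sol.card) := by ring
    have h5 : 1000000 * (J + 1) * X.card = 1000000 * (J * X.card) + 1000000 * X.card := by ring
    omega
  have hS' := S.ab_sparse_sdiff hS₉ X
  have hn' : 100 * (u₉ + X.card) + 1000 ≤ n := by omega
  obtain ⟨hU, hT⟩ := S.ab_steps hS' hn' (Nat.le_add_left _ _) base hbase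
    (fun ν => (cl ν.2 ν.1, ν.2) ∈ Sol) hg1 hg2
  refine ⟨Z', X ∪ univ.biUnion W, In, hZ, ?_, ?_, hIn, fun l => ?_, fun a b ha hb hne hl => ?_⟩
  · have h1 : Z'.card ≤ (Z' \ Z).card + Z.card := card_le_card_sdiff_add_card
    have h2 := hS.cardZ
    omega
  · exact union_subset (hXA.trans hA₉) (biUnion_subset.2 fun k _ => hWA k)
  · have h1 : S.cnt (X ∪ univ.biUnion W) l ≤ X.card + 468 * s :=
      (S.cnt_union_le _ _ l).trans (add_le_add (S.cnt_le_card X l) ((hWl l).trans (by omega)))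
    have h2 := Nat.mul_le_mul_left J h1
    have h3 : J * (X.card + 468 * s) = J * X.card + 468 * (J * s) := by ring
    omega
  · have hl' : pv a b ∈ S.lat (A₉ \ X) := by
      have h0 := hrem X
      exact hSt (A₉ \ X) Z' _ (sdiff_subset.trans hA₉) hZ hS' hn' hZc (by omega) a b ha hb hl
    by_cases hbj : ∃ j, b = base j
    · obtain ⟨j, rfl⟩ := hbj
      obtain ⟨c, c', -, -, k3, k4⟩ := S.exists_step hS' ha hb ∅ (by rw [card_empty]; omega)
      have h1 := hT _ c c' k3 (by rw [k4]; exact hl') j k3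
      rw [k4] at h1
      exact Or.inl (hsolv (a, j) h1)
    · have hG : (X.image (S.co 1)).card ≤ X.card := card_image_le
      obtain ⟨I, x, k1, k2, k3, k4⟩ := S.ab_family hS' (X.image (S.co 1)) (by omega) base
        (S.Solv (X ∪ univ.biUnion W) In) ha hb hne (fun j h => hbj ⟨j, h⟩) (by
          intro c c' hc hc' hg hmv
          obtain ⟨-, -, l1, l2⟩ := hg.live hS'
          obtain ⟨j, hj⟩ := hU c c' hc hc' l1 l2
          exact ⟨j, hj, hsolv (S.mv c c' (base j), j)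
            (hT b c c' hg (by rw [hmv]; exact hl') j hj)⟩)
      refine Or.inr ⟨I, x, k1, fun k t ht => ?_, k3, k4⟩
      obtain ⟨h1, h2⟩ := mem_sdiff.1 (k2 k t ht)
      refine ⟨hA₉ h1, fun h => ?_, hS₉.off _ h1⟩
      rcases mem_union.1 h with h | h
      · exact h2 h
      · obtain ⟨k', -, hk'⟩ := mem_biUnion.1 h
        exact disjoint_left.1 (hAW k') h1 hk'

end PlexX
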