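import Pool.Agent.Lib.MP_3d3eb4_co.PX.Defs

/-! Filling up lines with private cells. -/

namespace PlexX

open Finset

theorem Sq.fillUp {n : ℕ} (S : Sq n) (Z : Finset (Ln n)) (In G : Finset (Cell n)) (h : ℕ)
    (hd : Disjoint In G)
    (hG : ∀ x ∈ G, ∀ i j, (i, S.co i x) ∈ Z → (j, S.co j x) ∈ Z → i = j)
    (hz : ∀ z ∈ Z, S.cnt In z ≤ h ∧ h ≤ S.cnt In z + S.cnt G z) :
    ∃ Y ⊆ G, (∀ x ∈ Y, ¬ S.Off Z x) ∧ ∀ z ∈ Z, S.cnt (In ∪ Y) z = h := by
  have h1 : ∀ z ∈ Z, ∃ T ⊆ G.filter fun x => S.co z.1 x = z.2, T.card = h - S.cnt In z :=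
    fun z hz' => exists_subset_card_eq (by
      have := hz z hz'
      change _ ≤ S.cnt G z
      omega)
  choose! T hT hT' using h1
  have hsub : Z.biUnion T ⊆ G := biUnion_subset.2 fun z hz' => (hT z hz').trans (filter_subset _ _)
  refine ⟨Z.biUnion T, hsub, fun x hx ho => ?_, fun z hz' => ?_⟩
  · obtain ⟨z, hz', hx⟩ := mem_biUnion.1 hx
    exact ho z.1 (by rw [(mem_filter.1 (hT z hz' hx)).2]; exact hz')
  · have : (Z.biUnion T).filter (fun x => S.co z.1 x = z.2) = T z := by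
      refine Subset.antisymm (fun x hx => ?_) fun x hx =>
        mem_filter.2 ⟨mem_biUnion.2 ⟨z, hz', hx⟩, (mem_filter.1 (hT z hz' hx)).2⟩
      obtain ⟨hx, e⟩ := mem_filter.1 hx
      obtain ⟨z', hz'', hx⟩ := mem_biUnion.1 hx
      obtain ⟨hxG, e'⟩ := mem_filter.1 (hT z' hz'' hx)
      have := hG x hxG z.1 z'.1 (by rw [e]; exact hz') (by rw [e']; exact hz'')
      rwa [show z = z' from Prod.ext this (by rw [← e, ← e', this])]
    have h2 := hz z hz'
    have h3 : S.cnt (Z.biUnion T) z = h - S.cnt In z := by rw [Sq.cnt, this, hT' z hz']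
    rw [S.cnt_union (hd.mono_right hsub), h3]
    omega

/-- on a line of `Z` few cells lie on a second line of `Z` -/
theorem Sq.cnt_double {n : ℕ} (S : Sq n) (Z : Finset (Ln n)) (Q : Finset (Cell n)) (l : Ln n)
    (hQ : ∀ x ∈ Q, ∃ i j, i ≠ j ∧ (i, S.co i x) ∈ Z ∧ (j, S.co j x) ∈ Z) :
    S.cnt Q l ≤ Z.card := by
  have h : S.cnt Q l = S.cnt (Q.filter fun x => S.co l.1 x = l.2) l := by
    simp [Sq.cnt, filter_filter]
  rw [h]
  refine (S.cnt_on_le (Z.erase l) _ l (notMem_erase l Z) fun x hx ho => ?_).trans card_erase_le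
  obtain ⟨i, j, hij, hi, hj⟩ := hQ x (mem_filter.1 hx).1
  by_cases e : i = l.1
  · exact ho j (mem_erase.2 ⟨fun e' => hij (by rw [e, ← e']), hj⟩)
  · exact ho i (mem_erase.2 ⟨fun e' => e (by rw [← e']), hi⟩)

end PlexX
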