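import Pool.Agent.Lib.MP_3d3eb4_co.PX.Step
import Pool.Agent.Lib.MP_3d3eb4_co.PX.Fill

/-! The assembly of the exceptional cells, the random part and the absorber. -/

namespace PlexX

open Finset

namespace Sq

variable {n : ℕ} (S : Sq n)

theorem finish {P Q Rs In : Finset (Cell n)} {v : Ln n → ℤ} {h : ℕ} (hQ : Q ⊆ P) (hR : Rs ⊆ P)
    (hI : Q ∩ Rs = In) (hd : S.deg Q = (fun _ => (h : ℤ)) + v) (hs : S.Solv Rs In v) :
    ∃ Q' ⊆ P, ∀ l, S.cnt Q' l = h := by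
  obtain ⟨In', h1, h2⟩ := hs
  have hd' : Disjoint (Q \ In) In' := disjoint_left.2 fun x hx hx' =>
    (mem_sdiff.1 hx).2 (hI ▸ mem_inter.2 ⟨(mem_sdiff.1 hx).1, h1 hx'⟩)
  refine ⟨(Q \ In) ∪ In', union_subset (sdiff_subset.trans hQ) (h1.trans hR), fun l => ?_⟩
  have : S.deg ((Q \ In) ∪ In') = fun _ => (h : ℤ) := by
    rw [S.deg_union hd', S.deg_sdiff (hI ▸ inter_subset_left), hd, h2]
    abel
  have := congrFun this l
  rw [deg_apply] at this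
  exact_mod_cast this

theorem move4 {Q : Finset (Cell n)} {x₀ x₁ x₂ x₃ : Cell n} (h0 : x₀ ∈ Q) (h1 : x₁ ∉ Q)
    (h2 : x₂ ∈ Q) (h3 : x₃ ∉ Q) (h02 : x₀ ≠ x₂) (h13 : x₁ ≠ x₃) :
    S.deg ((Q \ {x₀, x₂}) ∪ {x₁, x₃}) =
      S.deg Q - S.vec x₀ + S.vec x₁ - S.vec x₂ + S.vec x₃ := by
  rw [S.deg_union (by simp [disjoint_right, h1, h3]),
    S.deg_sdiff (by simp [insert_subset_iff, h0, h2]), S.deg_pair h02, S.deg_pair h13]
  abel

/-- the assembly, with all estimates as hypotheses -/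
theorem assemble {H : Type} [AddCommGroup H] {P A : Finset (Cell n)} {Z Z' : Finset (Ln n)}
    {Rs In : Finset (Cell n)} {lab : Ln n → H} {u e J : ℕ} (hAP : A ⊆ P) (hS : S.Sparse A Z u)
    (h0 : ∀ x ∈ A, S.df lab x = 0)
    (hl : ∀ a b, (0, a) ∉ Z → (0, b) ∉ Z → lab (0, a) = lab (0, b) → pv a b ∈ S.lat A)
    (hG : S.Goal P A Z lab e) (hZ : Z ⊆ Z') (hR : Rs ⊆ A) (hI : In ⊆ Rs)
    (e1 : ∀ l, u + S.cnt Rs l + Z'.card ≤ e) (e2 : ∀ l, J * (u + S.cnt Rs l + Z'.card) ≤ n)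
    (e3 : n ≤ 20000 * e) (e4 : 3 ≤ e)
    (hab : ∀ a b, (0, a) ∉ Z' → (0, b) ∉ Z' → a ≠ b → pv a b ∈ S.lat A →
        S.Solv Rs In (pv a b) ∨ ∃ (I : Finset (Fin n)) (x : Fin 4 → Fin n → Cell n),
          n ≤ 4 * I.card ∧ (∀ k, ∀ s ∈ I, x k s ∈ A ∧ x k s ∉ Rs ∧ S.Off Z' (x k s)) ∧
          Set.InjOn (fun p : Fin 4 × Fin n => x p.1 p.2) {p | p.2 ∈ I} ∧
          ∀ s ∈ I, S.Solv Rs In
            (pv a b - S.vec (x 0 s) + S.vec (x 1 s) - S.vec (x 2 s) + S.vec (x 3 s)))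
    (hon : ∀ (Z : Finset (Ln n)) (Fx In : Finset (Cell n)) (h : ℕ)
      (I : Fin n → Fin n → Finset (Fin n)) (x : Fin n → Fin n → Fin 4 → Fin n → Cell n),
      In ⊆ Fx → n ≤ 20000 * h → n + 20000 * h ≤ 20000 * n → (∀ x, x ∉ Fx → S.Off Z x) →
      (∀ z ∈ Z, S.cnt In z = h) → (∀ l, l ∉ Z → J * S.cnt Fx l ≤ n) →
      (∀ a b k, ∀ s ∈ I a b, x a b k s ∉ Fx) →
      (∀ a b, Set.InjOn (fun p : Fin 4 × Fin n => x a b p.1 p.2) {p | p.2 ∈ I a b}) →
      ∃ (Q : Finset (Cell n)) (a b : Fin n), Q ∩ Fx = In ∧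
        S.deg Q = (fun _ => (h : ℤ)) + pv a b ∧
        (n ≤ 4 * (I a b).card → ∃ s ∈ I a b, x a b 0 s ∈ Q ∧ x a b 1 s ∉ Q ∧ x a b 2 s ∈ Q ∧
          x a b 3 s ∉ Q)) :
    ∃ h : ℕ, 0 < h ∧ h + 2 < n ∧ ∃ Q ⊆ P, ∀ l, S.cnt Q l = h := by
  classical
  obtain ⟨h, Y, g1, g2, g3, g4, g5⟩ := hG
  refine ⟨h, by omega, by omega, ?_⟩
  have hY : Y ⊆ Aᶜ := fun x hx => mem_compl.2 (mem_sdiff.1 (g3 hx)).2
  have hIA : In ⊆ A := hI.trans hR
  have dYI : Disjoint Y In := disjoint_left.2 fun x hx hx' => mem_compl.1 (hY hx) (hIA hx')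
  -- fill up the new dead lines
  let D : Finset (Cell n) :=
    univ.filter fun x => ∃ i j, i ≠ j ∧ (i, S.co i x) ∈ Z' ∧ (j, S.co j x) ∈ Z'
  let G : Finset (Cell n) := (A \ Rs) \ D
  have hGA : ∀ x ∈ G, x ∈ A ∧ x ∉ Rs := fun x hx => mem_sdiff.1 (mem_sdiff.1 hx).1
  have cA : ∀ z ∈ Z, ∀ Q ⊆ A, S.cnt Q z = 0 := fun z hz Q hQ =>
    card_eq_zero.2 (filter_eq_empty_iff.2 fun x hx hx' => hS.off x (hQ hx) z.1 (by
      rw [hx']; exact hz))
  obtain ⟨Y₁, y1, y2, y3⟩ := S.fillUp Z' (Y ∪ In) G h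
    (disjoint_left.2 fun x hx hx' => by
      rcases mem_union.1 hx with hx | hx
      · exact mem_compl.1 (hY hx) (hGA x hx').1
      · exact (hGA x hx').2 (hI hx))
    (fun x hx i j hi hj => by
      by_contra k
      exact (mem_sdiff.1 hx).2 (mem_filter.2 ⟨mem_univ _, i, j, k, hi, hj⟩))
    (fun z _ => by
      rw [S.cnt_union dYI]
      by_cases hz : z ∈ Z
      · rw [g4 z hz, cA z hz In hIA]
        omega
      · have a1 := (S.cnt_mono hY z).trans (hS.few z hz)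
        have a2 := S.cnt_mono hI z
        have a3 := e1 z
        have a4 := S.cnt_double Z' D z fun x hx => (mem_filter.1 hx).2
        have a5 : S.cnt univ z ≤ S.cnt (Aᶜ ∪ Rs ∪ D ∪ G) z := S.cnt_mono (fun x _ => by
          by_contra k
          simp only [G, mem_union, mem_compl, mem_sdiff, not_or, not_not, not_and] at k
          exact k.1.2 (k.2 ⟨k.1.1.1, k.1.1.2⟩)) z
        have a6 := S.cnt_union_le (Aᶜ ∪ Rs ∪ D) G z
        have a7 := S.cnt_union_le (Aᶜ ∪ Rs) D z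
        have a8 := S.cnt_union_le Aᶜ Rs z
        have a9 := hS.few z hz
        rw [S.cnt_univ] at a5
        omega)
  let On : Finset (Cell n) := univ.filter fun x => ¬ S.Off Z' x
  let Fx : Finset (Cell n) := Aᶜ ∪ Rs ∪ On
  have hFx : ∀ x, x ∉ Fx ↔ x ∈ A ∧ x ∉ Rs ∧ S.Off Z' x := fun x => by
    simp only [Fx, On, mem_union, mem_compl, mem_filter, mem_univ, true_and, not_or, not_not,
      and_assoc]
  -- the families
  have fam : ∀ a b : Fin n, ∃ (I : Finset (Fin n)) (x : Fin 4 → Fin n → Cell n),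
      (∀ k, ∀ s ∈ I, x k s ∉ Fx) ∧
      Set.InjOn (fun p : Fin 4 × Fin n => x p.1 p.2) {p | p.2 ∈ I} ∧
      (∀ s ∈ I, S.Solv Rs In
        (pv a b - S.vec (x 0 s) + S.vec (x 1 s) - S.vec (x 2 s) + S.vec (x 3 s))) ∧
      ((0, a) ∉ Z' → (0, b) ∉ Z' → a ≠ b → pv a b ∈ S.lat A →
        S.Solv Rs In (pv a b) ∨ n ≤ 4 * I.card) := fun a b => by
    by_cases k : (0, a) ∉ Z' → (0, b) ∉ Z' → a ≠ b → pv a b ∈ S.lat A → S.Solv Rs In (pv a b)
    · exact ⟨∅, fun _ _ => (a, b), by simp, by simp [Set.InjOn], by simp,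
        fun k1 k2 k3 k4 => Or.inl (k k1 k2 k3 k4)⟩
    · push Not at k
      obtain ⟨k1, k2, k3, k4, k5⟩ := k
      obtain ⟨I, x, x1, x2, x3, x4⟩ := (hab a b k1 k2 k3 k4).resolve_left k5
      exact ⟨I, x, fun k s hs => (hFx _).2 (x2 k s hs), x3, x4, fun _ _ _ _ => Or.inr x1⟩
  choose I x f1 f2 f3 f4 using fam
  have hT : Y ∪ In ∪ Y₁ ⊆ Fx := union_subset (union_subset
    (hY.trans (subset_union_left.trans subset_union_left))
    (hI.trans (subset_union_right.trans subset_union_left)))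
    fun x hx => mem_union_right _ (mem_filter.2 ⟨mem_univ _, y2 x hx⟩)
  obtain ⟨Q, a, b, q1, q2, q3⟩ := hon Z' Fx (Y ∪ In ∪ Y₁) h I x hT (by omega) (by omega)
    (fun x hx => ((hFx x).1 hx).2.2) y3 (fun l hl => by
      refine le_trans (Nat.mul_le_mul_left _ ?_) (e2 l)
      have a1 := S.cnt_union_le (Aᶜ ∪ Rs) On l
      have a2 := S.cnt_union_le Aᶜ Rs l
      have a3 := hS.few l fun k => hl (hZ k)
      have a4 := S.cnt_on_le Z' On l hl fun x hx => (mem_filter.1 hx).2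
      exact a1.trans (by omega)) f1 f2
  have hm : ∀ x ∈ Q, x ∈ Y ∨ x ∈ A := fun x hx => by
    by_cases k : x ∈ Fx
    · have : x ∈ Y ∪ In ∪ Y₁ := q1 ▸ mem_inter.2 ⟨hx, k⟩
      rcases mem_union.1 this with k' | k'
      · exact (mem_union.1 k').imp_right fun k'' => hIA k''
      · exact Or.inr (hGA x (y1 k')).1
    · exact Or.inr ((hFx x).1 k).1
  have hQP : Q ⊆ P := fun x hx => (hm x hx).elim (fun k => (mem_sdiff.1 (g3 k)).1) fun k => hAP k
  have hTQ : Y ∪ In ∪ Y₁ ⊆ Q := q1 ▸ inter_subset_left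
  have hQR : Q ∩ Rs = In := by
    ext x
    rw [mem_inter]
    refine ⟨fun ⟨k1, k2⟩ => ?_, fun k => ⟨hTQ (mem_union_left _ (mem_union_right _ k)), hI k⟩⟩
    have : x ∈ Y ∪ In ∪ Y₁ := q1 ▸ mem_inter.2 ⟨k1, mem_union_left _ (mem_union_right _ k2)⟩
    rcases mem_union.1 this with k' | k'
    · exact (mem_union.1 k').resolve_left fun k'' => mem_compl.1 (hY k'') (hR k2)
    · exact absurd k2 (hGA x (y1 k')).2
  by_cases hne : a = b
  · exact S.finish (v := 0) hQP (hR.trans hAP) hQR (by rw [q2, hne, pv_self])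
      ⟨In, hI, (sub_zero _).symm⟩
  have live : ∀ z ∈ Z', pv a b z = 0 := fun z hz => by
    have a1 : S.cnt Q z = S.cnt (Y ∪ In ∪ Y₁) z := by
      rw [← q1, cnt, cnt]
      congr 1
      ext x
      simp only [mem_filter, mem_inter]
      refine ⟨fun k => ⟨⟨k.1, ?_⟩, k.2⟩, fun k => ⟨k.1.1, k.2⟩⟩
      by_contra k'
      exact ((hFx x).1 k').2.2 z.1 (by rw [k.2]; exact hz)
    have a2 := congrFun q2 z
    rw [deg_apply, a1, y3 z hz, Pi.add_apply] at a2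
    omega
  have ha : (0, a) ∉ Z' := fun k => by
    have := live _ k
    simp [pv, er, hne] at this
  have hb : (0, b) ∉ Z' := fun k => by
    have := live _ k
    simp [pv, er, Ne.symm hne] at this
  have hlab : lab (0, a) = lab (0, b) := by
    have a1 : ∑ x ∈ Q, S.df lab x = ∑ x ∈ Y, S.df lab x :=
      (sum_subset (subset_union_left.trans (subset_union_left.trans hTQ)) fun x hx hx' =>
        h0 x ((hm x hx).resolve_left hx')).symm
    rw [g5, S.sum_df, q2] at a1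
    simp only [Pi.add_apply, add_smul, sum_add_distrib, pv, er, Pi.sub_apply, sub_smul,
      sum_sub_distrib, natCast_zsmul, ← smul_sum, Pi.single_apply, ite_smul, one_smul, zero_smul,
      sum_ite_eq', mem_univ, if_true] at a1
    exact sub_eq_zero.1 (add_eq_left.1 a1)
  rcases f4 a b ha hb hne (hl a b (fun k => ha (hZ k)) (fun k => hb (hZ k)) hlab) with k | k
  · exact S.finish hQP (hR.trans hAP) hQR q2 k
  obtain ⟨s, hs, s0, s1, s2, s3⟩ := q3 k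
  have ne : ∀ i j : Fin 4, i ≠ j → x a b i s ≠ x a b j s := fun i j hij k' =>
    hij (congrArg Prod.fst (f2 a b (x₁ := (i, s)) hs (x₂ := (j, s)) hs k'))
  have hx : ∀ i, x a b i s ∈ A ∧ x a b i s ∉ Rs ∧ S.Off Z' (x a b i s) := fun i =>
    (hFx _).1 (f1 a b i s hs)
  refine S.finish (Q := (Q \ {x a b 0 s, x a b 2 s}) ∪ {x a b 1 s, x a b 3 s})
    (union_subset (sdiff_subset.trans hQP) ?_) (hR.trans hAP) ?_ ?_ (f3 a b s hs)
  · simp [insert_subset_iff, hAP (hx 1).1, hAP (hx 3).1]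
  · rw [← hQR]
    ext w
    simp only [mem_inter, mem_union, mem_sdiff, mem_insert, mem_singleton]
    refine ⟨fun ⟨k1, k2⟩ => ⟨?_, k2⟩, fun ⟨k1, k2⟩ => ⟨Or.inl ⟨k1, ?_⟩, k2⟩⟩
    · rcases k1 with k1 | rfl | rfl
      exacts [k1.1, absurd k2 (hx 1).2.1, absurd k2 (hx 3).2.1]
    · rintro (rfl | rfl)
      exacts [(hx 0).2.1 k2, (hx 2).2.1 k2]
  · rw [S.move4 s0 s1 s2 s3 (ne 0 2 (by decide)) (ne 1 3 (by decide)), q2]
    abel

end Sq

end PlexX
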