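import Mathlib

/-! The choice of the scales. -/

namespace PlexX

open Filter Topology

theorem asym_pow (D : ℕ) : ∃ K : ℕ, ∀ j, K ≤ j → D * (j + 2) ^ 8 ≤ 2 ^ j := by
  have h := tendsto_pow_const_div_const_pow_of_one_lt 8 (r := 2) one_lt_two
  have hpos : (0 : ℝ) < 1 / (4 * (D : ℝ) + 1) := by positivity
  obtain ⟨K, hK⟩ := eventually_atTop.1 (h.eventually (gt_mem_nhds hpos))
  refine ⟨K, fun j hj => ?_⟩
  have h1 := hK (j + 2) (by omega)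
  rw [div_lt_div_iff₀ (by positivity) (by positivity), one_mul, pow_add] at h1
  have h2 : (0 : ℝ) ≤ ((j + 2 : ℕ) : ℝ) ^ 8 := by positivity
  have h3 : (D : ℝ) * ((j + 2 : ℕ) : ℝ) ^ 8 ≤ 2 ^ j := by nlinarith
  exact_mod_cast h3

theorem asym (C : ℕ) : ∃ N : ℕ, ∀ n : ℕ, N ≤ n → ∃ t L : ℕ, 0 < t ∧ n ≤ t ^ 3 ∧ 2 * n < 2 ^ L ∧
    (C * (t ^ 2 * (L + 1) ^ 2)) ^ 4 ≤ n ^ 3 := by
  obtain ⟨K, hK⟩ := asym_pow (C ^ 4 * 256 * 6561)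
  refine ⟨8 ^ K + 1, fun n hn => ?_⟩
  have hK0 : 0 < 8 ^ K := by positivity
  have h1 : n ≤ 8 ^ Nat.clog 8 n := Nat.le_pow_clog (by norm_num) n
  have h2 : 8 ^ (Nat.clog 8 n).pred < n := Nat.pow_pred_clog_lt_self (by norm_num) (by omega)
  have h3 : K < Nat.clog 8 n :=
    (Nat.pow_lt_pow_iff_right (a := 8) (by norm_num)).1 (by omega)
  obtain ⟨j, hj⟩ : ∃ j, Nat.clog 8 n = j + 1 := ⟨Nat.clog 8 n - 1, by omega⟩
  rw [hj] at h1 h2 h3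
  rw [Nat.pred_succ] at h2
  have e8 : ∀ i : ℕ, (8 : ℕ) ^ i = (2 ^ i) ^ 3 := fun i => by
    rw [← pow_mul, mul_comm, pow_mul]
    norm_num
  rw [e8] at h1 h2
  have h4 := hK j (by omega)
  refine ⟨2 ^ (j + 1), 3 * j + 5, by positivity, h1, ?_, ?_⟩
  · have e : 2 ^ (3 * j + 5) = 4 * (2 ^ (j + 1)) ^ 3 := by ring
    omega
  · calc (C * ((2 ^ (j + 1)) ^ 2 * (3 * j + 5 + 1) ^ 2)) ^ 4
        = (C ^ 4 * 256 * 6561 * (j + 2) ^ 8) * (2 ^ j) ^ 8 := by ring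
      _ ≤ 2 ^ j * (2 ^ j) ^ 8 := Nat.mul_le_mul_right _ h4
      _ = ((2 ^ j) ^ 3) ^ 3 := by ring
      _ ≤ n ^ 3 := Nat.pow_le_pow_left h2.le 3

end PlexX
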