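import Pool.Agent.Lib.MP_3d3eb4_co.PX.Defs

/-! A latin square cannot agree with a larger cyclic group outside two cells per line. -/

namespace PlexX

open Finset

set_option linter.unusedSectionVars false

section Core

variable {α H : Type} [Fintype α] [DecidableEq α] [AddCommGroup H] [Fintype H] [DecidableEq H]

theorem card_sol [IsAddCyclic H] (m : ℕ) (hm : 0 < m) (c : H) :
    (univ.filter fun y : H => m • y = c).card ≤ m := by
  rcases (univ.filter fun y : H => m • y = c).eq_empty_or_nonempty with h | ⟨y₀, h⟩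
  · rw [h]; simp
  have h₀ := (mem_filter.1 h).2
  refine le_trans (card_le_card_of_injOn (fun y => y - y₀) (fun y hy => ?_)
    (fun y _ y' _ e => sub_left_injective e)) (IsAddCyclic.card_nsmul_eq_zero_le hm)
  have h₁ := (mem_filter.1 (mem_coe.1 hy)).2
  exact mem_coe.2 (mem_filter.2 ⟨mem_univ _, by rw [smul_sub, h₀, h₁, sub_self]⟩)

/-- the exceptional values -/
def Xc (ζ y : H) : Prop := 4 • y = 2 • ζ ∨ 3 • y = ζ ∨ 5 • y = ζ ∨ 5 • y = 2 • ζ

instance (ζ y : H) : Decidable (Xc ζ y) := by unfold Xc; infer_instance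

theorem card_Xc [IsAddCyclic H] (ζ : H) : (univ.filter (Xc ζ)).card ≤ 17 := by
  have h1 := card_sol 4 (by norm_num) (2 • ζ)
  have h2 := card_sol 3 (by norm_num) ζ
  have h3 := card_sol 5 (by norm_num) ζ
  have h4 := card_sol 5 (by norm_num) (2 • ζ)
  have : univ.filter (Xc ζ) ⊆ (univ.filter fun y : H => 4 • y = 2 • ζ) ∪
      ((univ.filter fun y : H => 3 • y = ζ) ∪ ((univ.filter fun y : H => 5 • y = ζ) ∪
      (univ.filter fun y : H => 5 • y = 2 • ζ))) := by
    intro y hy
    simpa [Xc] using hy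
  refine (card_le_card this).trans ((card_union_le _ _).trans ?_)
  refine (add_le_add h1 ((card_union_le _ _).trans (add_le_add h2
    ((card_union_le _ _).trans (add_le_add h3 h4))))).trans (by norm_num)

theorem cnt_X [IsAddCyclic H] (ζ : H) (f g : α → H)
    (inj : ∀ x y, f x = f y → g x = g y → x = y) :
    (univ.filter fun x => Xc ζ (f x) ∧ Xc ζ (g x)).card ≤ 289 := by
  have h := card_Xc ζ
  refine le_trans (card_le_card_of_injOn (t := univ.filter (Xc ζ) ×ˢ univ.filter (Xc ζ))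
    (fun x => (f x, g x)) (fun x hx => ?_) (fun x _ y _ e => ?_)) ?_
  · simpa using hx
  · exact inj x y (Prod.mk.inj e).1 (Prod.mk.inj e).2
  · rw [card_product]; exact (Nat.mul_le_mul h h).trans (by norm_num)

theorem cnt_D (ζ : H) (f g : α → H) (R T : Finset H)
    (ex : ∀ a ∈ R, ∀ b ∈ T, ∃ x, f x = a ∧ g x = b) :
    R.card + T.card ≤ (univ.filter fun x => f x + g x = ζ).card + Fintype.card H := by
  have h1 : (R ∩ T.image (ζ - ·)).card ≤ (univ.filter fun x => f x + g x = ζ).card := by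
    refine le_trans (card_le_card (t := (univ.filter fun x => f x + g x = ζ).image f)
      fun a ha => ?_) card_image_le
    obtain ⟨h, h'⟩ := mem_inter.1 ha
    obtain ⟨b, hb, rfl⟩ := mem_image.1 h'
    obtain ⟨x, h1, h2⟩ := ex _ h b hb
    exact mem_image.2 ⟨x, mem_filter.2 ⟨mem_univ _, by rw [h1, h2]; abel⟩, h1⟩
  have h2 := card_union_add_card_inter R (T.image (ζ - ·))
  have h3 := card_le_univ (R ∪ T.image (ζ - ·))
  rw [card_image_of_injective _ sub_right_injective] at h2
  omega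

theorem cnt_Q [IsAddCyclic H] (ζ : H) (f g h : α → H) (R T : Finset H)
    (ex : ∀ a ∈ R, ∀ b ∈ T, ∃ x, f x = a ∧ g x = b) (hR : ∀ x, f x ∈ R) (h0 : ∀ x, f x ≠ 0)
    (inj : ∀ x y, f x = f y → g x = g y → x = y) (inj' : ∀ x y, f x = f y → h x = h y → x = y) :
    (univ.filter fun x => f x + g x = ζ ∧ h x + g x = ζ).card ≤
      (univ.filter fun x => f x + f x + g x = ζ ∧ f x + g x + h x ≠ ζ).card + 2 * Tᶜ.card := by
  have h1 : (univ.filter fun a : H => ζ - 2 • a ∈ Tᶜ).card ≤ 2 * Tᶜ.card := by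
    refine card_le_mul_card_image_of_maps_to (f := fun a => ζ - 2 • a)
      (fun a ha => (mem_filter.1 ha).2) 2 fun b _ => ?_
    refine le_trans (card_le_card fun a ha => ?_) (card_sol 2 (by norm_num) (ζ - b))
    have := (mem_filter.1 ha).2
    exact mem_filter.2 ⟨mem_univ _, by rw [← this]; abel⟩
  have h2 : ((univ.filter fun x => f x + g x = ζ ∧ h x + g x = ζ).image f) ⊆
      (univ.filter fun x => f x + f x + g x = ζ ∧ f x + g x + h x ≠ ζ).image f ∪
      univ.filter fun a : H => ζ - 2 • a ∈ Tᶜ := by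
    intro a ha
    obtain ⟨t, ht, rfl⟩ := mem_image.1 ha
    obtain ⟨e1, e2⟩ := (mem_filter.1 ht).2
    by_cases hT : ζ - 2 • f t ∈ T
    · obtain ⟨x, x1, x2⟩ := ex _ (hR t) _ hT
      refine mem_union_left _ (mem_image.2 ⟨x, mem_filter.2 ⟨mem_univ _, ?_, fun e => ?_⟩, x1⟩)
      · rw [x1, x2, two_nsmul]; abel
      · have e3 : h x = h t := by
          rw [x1, x2, two_nsmul] at e
          have : h t = f t := add_right_cancel (e2.trans e1.symm)
          rw [this, ← sub_eq_zero, ← sub_eq_zero.2 e]; abel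
        have e4 := inj' x t x1 e3
        subst e4
        refine h0 x ?_
        rw [two_nsmul] at x2
        rw [← sub_eq_zero.2 e1, x2]
        rw [x2] at e1
        have : f x = f x + f x - (f x + (ζ - (f x + f x)) - ζ) - (f x + f x) := by abel
        rw [sub_eq_zero.2 e1] at this ⊢
        rw [this]; abel
    · exact mem_union_right _ (mem_filter.2 ⟨mem_univ _, mem_compl.2 hT⟩)
  rw [← card_image_of_injOn (f := f) (fun x hx y hy e => inj x y e (by
    have e1 := (mem_filter.1 (mem_coe.1 hx)).2.1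
    have e2 := (mem_filter.1 (mem_coe.1 hy)).2.1
    rw [e] at e1
    exact add_left_cancel (e1.trans e2.symm)))]
  exact (card_le_card h2).trans ((card_union_le _ _).trans (add_le_add card_image_le h1))

theorem bool_ineq : ∀ d0 d1 d2 q01 q10 q02 q20 q12 q21 : Bool,
    (d2 && q01 || d2 && q10 || d1 && q02 || d1 && q20 || d0 && q12 || d0 && q21 ||
      q01 && q10 || q02 && q20 || q12 && q21 ||
      d2 && (q02 || q20) && (q12 || q21) || d1 && (q01 || q10) && (q12 || q21) ||
      d0 && (q01 || q10) && (q02 || q20) || d2 && d1 && (q12 || q21) ||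
      d2 && d0 && (q02 || q20) || d1 && d0 && (q01 || q10) || d0 && d1 && d2) = false →
    3 * (d0.toNat + d1.toNat + d2.toNat) +
      (q01.toNat + q10.toNat + q02.toNat + q20.toNat + q12.toNat + q21.toNat) ≤
      4 + 2 * ((d2 && d1).toNat + (d2 && d0).toNat + (d1 && d0).toNat) := by
  decide

theorem x_qq {ζ a b : H} (h1 : a + a + b = ζ) (h2 : b + b + a = ζ) : Xc ζ a ∧ Xc ζ b :=
  ⟨Or.inr (Or.inl (by linear_combination (norm := abel1) 2 • h1 - h2)),
    Or.inr (Or.inl (by linear_combination (norm := abel1) 2 • h2 - h1))⟩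

theorem x_d {ζ a b c : H} (h : a + b = ζ) (h1 : a + a + c = ζ ∨ c + c + a = ζ)
    (h2 : b + b + c = ζ ∨ c + c + b = ζ) :
    Xc ζ a ∧ Xc ζ b ∨ Xc ζ a ∧ Xc ζ c ∨ Xc ζ b ∧ Xc ζ c := by
  rcases h1 with h1 | h1 <;> rcases h2 with h2 | h2
  · exact Or.inl ⟨Or.inl (by linear_combination (norm := abel1) 2 • h + h1 - h2),
      Or.inl (by linear_combination (norm := abel1) 2 • h + h2 - h1)⟩
  · exact Or.inr (Or.inl ⟨Or.inr (Or.inr (Or.inr
      (by linear_combination (norm := abel1) 2 • h1 + h - h2))), Or.inr (Or.inr (Or.inl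
      (by linear_combination (norm := abel1) h1 + 2 • h2 - 2 • h)))⟩)
  · exact Or.inr (Or.inr ⟨Or.inr (Or.inr (Or.inr
      (by linear_combination (norm := abel1) 2 • h2 + h - h1))), Or.inr (Or.inr (Or.inl
      (by linear_combination (norm := abel1) h2 + 2 • h1 - 2 • h)))⟩)
  · exact Or.inl ⟨Or.inl (by linear_combination (norm := abel1) 2 • h + 2 • h1 - 2 • h2),
      Or.inl (by linear_combination (norm := abel1) 2 • h + 2 • h2 - 2 • h1)⟩

theorem x_dd {ζ a b c : H} (h : a + b = ζ) (h' : a + c = ζ)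
    (h2 : b + b + c = ζ ∨ c + c + b = ζ) : Xc ζ b ∧ Xc ζ c := by
  obtain rfl : b = c := add_left_cancel (h.trans h'.symm)
  have : b + b + b = ζ := h2.elim id id
  exact x_qq this this

theorem x_ddd {ζ a b c : H} (h : a + b = ζ) (h' : a + c = ζ) (h2 : b + c = ζ) :
    Xc ζ a ∧ Xc ζ b :=
  ⟨Or.inl (by linear_combination (norm := abel1) 2 • h + 2 • h' - 2 • h2),
    Or.inl (by linear_combination (norm := abel1) 2 • h - 2 • h' + 2 • h2)⟩

theorem not_dq {ζ a b : H} (ha : a ≠ 0) (h : a + b = ζ) (h' : a + a + b = ζ) : False :=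
  ha (by linear_combination (norm := abel1) h' - h)

/-- the indicator of a proposition -/
def ind (p : Prop) [Decidable p] : ℕ := if p then 1 else 0

theorem ind_le (p : Prop) [Decidable p] : ind p ≤ 1 := by unfold ind; split_ifs <;> simp

theorem ind_eq (p : Prop) [Decidable p] : ind p = (decide p).toNat := by
  unfold ind; split_ifs with h <;> simp [h]

theorem ind_mono {p q : Prop} [Decidable p] [Decidable q] (h : p → q) : ind p ≤ ind q := by
  unfold ind; split_ifs with h1 h2 <;> simp; exact h2 (h h1)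

theorem ind_pos {p : Prop} [Decidable p] (h : p) : ind p = 1 := if_pos h

theorem ind_neg {p : Prop} [Decidable p] (h : ¬ p) : ind p = 0 := if_neg h

theorem sum_ind (p : α → Prop) [DecidablePred p] : ∑ x, ind (p x) = (univ.filter p).card :=
  (card_filter _ _).symm

theorem point1 {ζ a b c : H} (ha : a ≠ 0) (hb : b ≠ 0) (hc : c ≠ 0)
    (x1 : ¬ (Xc ζ a ∧ Xc ζ b)) (x2 : ¬ (Xc ζ a ∧ Xc ζ c)) (x3 : ¬ (Xc ζ b ∧ Xc ζ c)) :
    3 * (ind (b + c = ζ) + ind (a + c = ζ) + ind (a + b = ζ)) +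
      (ind (a + a + b = ζ) + ind (b + b + a = ζ) + ind (a + a + c = ζ) + ind (c + c + a = ζ) +
        ind (b + b + c = ζ) + ind (c + c + b = ζ)) ≤
      4 + 2 * (ind (a + b = ζ ∧ a + c = ζ) + ind (a + b = ζ ∧ b + c = ζ) +
        ind (a + c = ζ ∧ b + c = ζ)) := by
  simp only [ind_eq, Bool.decide_and]
  refine bool_ineq _ _ _ _ _ _ _ _ _ ?_
  rw [← Bool.not_eq_true]
  simp only [Bool.or_eq_true, Bool.and_eq_true, decide_eq_true_eq, not_or]
  refine ⟨⟨⟨⟨⟨⟨⟨⟨⟨⟨⟨⟨⟨⟨⟨?_, ?_⟩, ?_⟩, ?_⟩, ?_⟩, ?_⟩, ?_⟩, ?_⟩, ?_⟩, ?_⟩, ?_⟩, ?_⟩, ?_⟩, ?_⟩, ?_⟩, ?_⟩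
  · exact fun h => not_dq ha h.1 h.2
  · exact fun h => not_dq hb ((add_comm _ _).trans h.1) h.2
  · exact fun h => not_dq ha h.1 h.2
  · exact fun h => not_dq hc ((add_comm _ _).trans h.1) h.2
  · exact fun h => not_dq hb h.1 h.2
  · exact fun h => not_dq hc ((add_comm _ _).trans h.1) h.2
  · exact fun h => x1 (x_qq h.1 h.2)
  · exact fun h => x2 (x_qq h.1 h.2)
  · exact fun h => x3 (x_qq h.1 h.2)
  · exact fun h => (x_d h.1.1 h.1.2 h.2).elim x1 (·.elim x2 x3)
  · exact fun h => (x_d h.1.1 h.1.2 h.2.symm).elim x2 (·.elim x1 fun k => x3 k.symm)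
  · exact fun h => (x_d h.1.1 h.1.2.symm h.2.symm).elim x3
      (·.elim (fun k => x1 k.symm) fun k => x2 k.symm)
  · exact fun h => x3 (x_dd h.1.1 h.1.2 h.2)
  · exact fun h => x2 (x_dd ((add_comm _ _).trans h.1.1) h.1.2 h.2)
  · exact fun h => x1 (x_dd ((add_comm _ _).trans h.1.1) ((add_comm _ _).trans h.1.2) h.2)
  · exact fun h => x1 (x_ddd h.2 h.1.2 h.1.1)

theorem point2 {ζ a b c : H} (ha : a ≠ 0) (hb : b ≠ 0) (hc : c ≠ 0) :
    3 * (ind (b + c = ζ) + ind (a + c = ζ) + ind (a + b = ζ)) +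
      (ind (a + a + b = ζ ∧ a + b + c ≠ ζ) + ind (b + b + a = ζ ∧ b + a + c ≠ ζ) +
        ind (a + a + c = ζ ∧ a + c + b ≠ ζ) + ind (c + c + a = ζ ∧ c + a + b ≠ ζ) +
        ind (b + b + c = ζ ∧ b + c + a ≠ ζ) + ind (c + c + b = ζ ∧ c + b + a ≠ ζ)) ≤
      4 * ind (a + b + c ≠ ζ) + ((ind (a + b = ζ ∧ c + b = ζ) + ind (b + a = ζ ∧ c + a = ζ) +
        ind (a + c = ζ ∧ b + c = ζ) + ind (c + a = ζ ∧ b + a = ζ) +
        ind (b + c = ζ ∧ a + c = ζ) + ind (c + b = ζ ∧ a + b = ζ)) +
      15 * (ind (Xc ζ a ∧ Xc ζ b) + ind (Xc ζ a ∧ Xc ζ c) + ind (Xc ζ b ∧ Xc ζ c))) := by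
  by_cases hg : a + b + c = ζ
  · rw [ind_neg (p := b + c = ζ) fun h => ha (by linear_combination (norm := abel1) hg - h),
      ind_neg (p := a + c = ζ) fun h => hb (by linear_combination (norm := abel1) hg - h),
      ind_neg (p := a + b = ζ) fun h => hc (by linear_combination (norm := abel1) hg - h),
      ind_neg (p := _ ∧ a + b + c ≠ ζ) fun h => h.2 hg,
      ind_neg (p := _ ∧ b + a + c ≠ ζ) fun h => h.2 (by rw [← hg]; abel),
      ind_neg (p := _ ∧ a + c + b ≠ ζ) fun h => h.2 (by rw [← hg]; abel),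
      ind_neg (p := _ ∧ c + a + b ≠ ζ) fun h => h.2 (by rw [← hg]; abel),
      ind_neg (p := _ ∧ b + c + a ≠ ζ) fun h => h.2 (by rw [← hg]; abel),
      ind_neg (p := _ ∧ c + b + a ≠ ζ) fun h => h.2 (by rw [← hg]; abel)]
    exact Nat.zero_le _
  rw [ind_pos (p := a + b + c ≠ ζ) hg]
  have q1 : ind (a + a + b = ζ ∧ a + b + c ≠ ζ) ≤ ind (a + a + b = ζ) := ind_mono And.left
  have q2 : ind (b + b + a = ζ ∧ b + a + c ≠ ζ) ≤ ind (b + b + a = ζ) := ind_mono And.left
  have q3 : ind (a + a + c = ζ ∧ a + c + b ≠ ζ) ≤ ind (a + a + c = ζ) := ind_mono And.left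
  have q4 : ind (c + c + a = ζ ∧ c + a + b ≠ ζ) ≤ ind (c + c + a = ζ) := ind_mono And.left
  have q5 : ind (b + b + c = ζ ∧ b + c + a ≠ ζ) ≤ ind (b + b + c = ζ) := ind_mono And.left
  have q6 : ind (c + c + b = ζ ∧ c + b + a ≠ ζ) ≤ ind (c + c + b = ζ) := ind_mono And.left
  by_cases hx : (Xc ζ a ∧ Xc ζ b) ∨ (Xc ζ a ∧ Xc ζ c) ∨ (Xc ζ b ∧ Xc ζ c)
  · have : 1 ≤ ind (Xc ζ a ∧ Xc ζ b) + ind (Xc ζ a ∧ Xc ζ c) + ind (Xc ζ b ∧ Xc ζ c) := by
      rcases hx with h | h | h <;> rw [ind_pos h] <;> omega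
    have := ind_le (b + c = ζ)
    have := ind_le (a + c = ζ)
    have := ind_le (a + b = ζ)
    have := ind_le (a + a + b = ζ)
    have := ind_le (b + b + a = ζ)
    have := ind_le (a + a + c = ζ)
    have := ind_le (c + c + a = ζ)
    have := ind_le (b + b + c = ζ)
    have := ind_le (c + c + b = ζ)
    omega
  simp only [not_or] at hx
  have h := point1 ha hb hc hx.1 hx.2.1 hx.2.2
  have e1 : ind (a + b = ζ ∧ a + c = ζ) ≤ ind (b + a = ζ ∧ c + a = ζ) :=
    ind_mono fun h => ⟨(add_comm _ _).trans h.1, (add_comm _ _).trans h.2⟩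
  have e2 : ind (a + b = ζ ∧ a + c = ζ) ≤ ind (c + a = ζ ∧ b + a = ζ) :=
    ind_mono fun h => ⟨(add_comm _ _).trans h.2, (add_comm _ _).trans h.1⟩
  have e3 : ind (a + b = ζ ∧ b + c = ζ) ≤ ind (a + b = ζ ∧ c + b = ζ) :=
    ind_mono fun h => ⟨h.1, (add_comm _ _).trans h.2⟩
  have e4 : ind (a + b = ζ ∧ b + c = ζ) ≤ ind (c + b = ζ ∧ a + b = ζ) :=
    ind_mono fun h => ⟨(add_comm _ _).trans h.2, h.1⟩
  have e5 : ind (a + c = ζ ∧ b + c = ζ) ≤ ind (b + c = ζ ∧ a + c = ζ) := ind_mono And.symm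
  omega

/-- a quasigroup table on three `n`-subsets of a cyclic group that miss `0` disagrees with the
group in at least `9 n / 4` cells, up to lower-order terms -/
theorem core [IsAddCyclic H] (ζ : H) (u : Fin 3 → α → H) (R : Fin 3 → Finset H) (n j : ℕ)
    (hj : Fintype.card H = n + j) (hR : ∀ i, (R i).card = n) (hm : ∀ i x, u i x ∈ R i)
    (h0 : ∀ i x, u i x ≠ 0)
    (ex : ∀ i k, i ≠ k → ∀ a ∈ R i, ∀ b ∈ R k, ∃ x, u i x = a ∧ u k x = b)
    (inj : ∀ i k, i ≠ k → ∀ x y, u i x = u i y → u k x = u k y → x = y) :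
    9 * n ≤ 4 * (univ.filter fun x => u 0 x + u 1 x + u 2 x ≠ ζ).card + 21 * j + 13005 := by
  have hs := sum_le_sum fun x (_ : x ∈ univ) => point2 (ζ := ζ) (h0 0 x) (h0 1 x) (h0 2 x)
  simp only [sum_add_distrib, ← mul_sum, sum_ind] at hs
  have hc : ∀ i, (R i)ᶜ.card = j := fun i => by
    have := card_compl_add_card (R i)
    rw [hR, hj] at this
    omega
  have d := fun i k h => cnt_D ζ (u i) (u k) (R i) (R k) (ex i k h)
  have q := fun i k l h h' => cnt_Q ζ (u i) (u k) (u l) (R i) (R k) (ex i k h) (hm i) (h0 i)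
    (inj i k h) (inj i l h')
  have x := fun i k h => cnt_X ζ (u i) (u k) (inj i k h)
  simp only [hR, hc, hj] at d q
  have d1 := d 1 2 (by decide)
  have d2 := d 0 2 (by decide)
  have d3 := d 0 1 (by decide)
  have q1 := q 0 1 2 (by decide) (by decide)
  have q2 := q 1 0 2 (by decide) (by decide)
  have q3 := q 0 2 1 (by decide) (by decide)
  have q4 := q 2 0 1 (by decide) (by decide)
  have q5 := q 1 2 0 (by decide) (by decide)
  have q6 := q 2 1 0 (by decide) (by decide)
  have x1 := x 0 1 (by decide)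
  have x2 := x 0 2 (by decide)
  have x3 := x 1 2 (by decide)
  omega

end Core

theorem card_compl_le {n : ℕ} (S : Sq n) (P : Finset (Cell n)) (hP : ∀ l, n ≤ S.cnt P l + 2) :
    Pᶜ.card ≤ 2 * n := by
  rw [← S.sum_cnt_type Pᶜ 0]
  calc _ ≤ ∑ _a : Fin n, 2 := sum_le_sum fun a _ => by
        have := S.cnt_add_compl P (0, a)
        have := hP (0, a)
        omega
    _ = _ := by simp [mul_comm]

theorem local_contra {n : ℕ} (S : Sq n) {H : Type} [AddCommGroup H] [Fintype H] [DecidableEq H]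
    [IsAddCyclic H] (P : Finset (Cell n)) (lab : Ln n → H) (e : ℕ) (hP : ∀ l, n ≤ S.cnt P l + 2)
    (he : 10 ≤ e) (hn : 10000 * e ≤ n) (hH : Fintype.card H ≤ n + 4 * e)
    (hH' : n < Fintype.card H) (hi : ∀ i, Function.Injective fun a => lab (i, a))
    (hb : (P.filter fun x => S.df lab x ≠ 0).card ≤ 90 * e) : False := by
  have hz : ∀ i : Fin 3, ∃ z, ∀ a, lab (i, a) ≠ z := fun i => by
    by_contra hc
    push Not at hc
    have := Fintype.card_le_of_surjective _ hc
    rw [Fintype.card_fin] at this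
    omega
  choose z hz using hz
  have hi' : ∀ i, Function.Injective fun a => lab (i, a) - z i :=
    fun i a b h => hi i (sub_left_injective h)
  obtain ⟨j, hj⟩ := Nat.exists_eq_add_of_le hH'.le
  have h := core (-(z 0 + z 1 + z 2)) (fun i x => lab (i, S.co i x) - z i)
    (fun i => univ.image fun a => lab (i, a) - z i) n j hj
    (fun i => by rw [card_image_of_injective _ (hi' i), card_univ, Fintype.card_fin])
    (fun i x => mem_image_of_mem _ (mem_univ _)) (fun i x => sub_ne_zero.2 (hz i _))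
    (fun i k hik a ha b hb => by
      obtain ⟨a, -, rfl⟩ := mem_image.1 ha
      obtain ⟨b, -, rfl⟩ := mem_image.1 hb
      exact ⟨S.pt i k a b, by rw [S.co_pt_fst hik], by rw [S.co_pt_snd hik]⟩)
    (fun i k hik x y h1 h2 => S.ext2 hik (hi' i h1) (hi' k h2))
  have h1 : (univ.filter fun x => lab (0, S.co 0 x) - z 0 + (lab (1, S.co 1 x) - z 1) +
      (lab (2, S.co 2 x) - z 2) ≠ -(z 0 + z 1 + z 2)) ⊆ (P.filter fun x => S.df lab x ≠ 0) ∪ Pᶜ := by
    intro x hx
    by_cases hxP : x ∈ P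
    · refine mem_union_left _ (mem_filter.2 ⟨hxP, fun h => (mem_filter.1 hx).2 ?_⟩)
      rw [Sq.df] at h
      linear_combination (norm := abel1) h
    · exact mem_union_right _ (mem_compl.2 hxP)
  have h2 := (card_le_card h1).trans (card_union_le _ _)
  have h3 := card_compl_le S P hP
  omega

section Inj

variable {n : ℕ} (S : Sq n) {H : Type} [AddCommGroup H] [Fintype H] [DecidableEq H]

theorem df_eq (lab : Ln n → H) {i j k : Fin 3} (hij : i ≠ j) (hik : i ≠ k) (hjk : j ≠ k)
    (x : Cell n) :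
    S.df lab x = lab (i, S.co i x) + lab (j, S.co j x) + lab (k, S.co k x) := by
  rw [Sq.df]
  fin_cases i <;> fin_cases j <;> fin_cases k <;> simp_all <;> abel

/-- two lines of the same type: most transversal lines meet both in cells without defect -/
theorem two_good (lab : Ln n → H) (d : ℕ)
    (hb : ∀ l, S.cnt (univ.filter fun x => S.df lab x ≠ 0) l ≤ d) {i j k : Fin 3} (hij : i ≠ j)
    (hik : i ≠ k) (hjk : j ≠ k) (a b : Fin n) :
    n ≤ (univ.filter fun s => ∃ t, lab (k, t) = lab (k, s) + (lab (i, a) - lab (i, b)) ∧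
      (t = s → a = b)).card + 2 * d := by
  have h1 := hb (i, a)
  have h2 := hb (i, b)
  rw [S.cnt_eq_card hij] at h1 h2
  set G := univ.filter fun c => S.df lab (S.pt i j a c) = 0 ∧ S.df lab (S.pt i j b c) = 0 with hG
  have h3 : Gᶜ ⊆ (univ.filter fun c => S.pt i j a c ∈ univ.filter fun x => S.df lab x ≠ 0) ∪
      (univ.filter fun c => S.pt i j b c ∈ univ.filter fun x => S.df lab x ≠ 0) := by
    intro c hc
    simp only [hG, mem_compl, mem_filter, mem_univ, true_and, mem_union] at hc ⊢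
    tauto
  have h4 := (card_le_card h3).trans (card_union_le _ _)
  have h5 := card_compl_add_card G
  rw [Fintype.card_fin] at h5
  have h6 : G.card ≤ (univ.filter fun s => ∃ t,
      lab (k, t) = lab (k, s) + (lab (i, a) - lab (i, b)) ∧ (t = s → a = b)).card := by
    refine card_le_card_of_injOn (fun c => S.co k (S.pt i j a c)) (fun c hc => ?_)
      (S.co_pt_bij hij hik a).1.injOn
    obtain ⟨e1, e2⟩ := (mem_filter.1 (mem_coe.1 hc)).2
    rw [df_eq S lab hij hik hjk, S.co_pt_fst hij, S.co_pt_snd hij] at e1 e2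
    refine mem_coe.2 (mem_filter.2 ⟨mem_univ _, S.co k (S.pt i j b c), ?_, fun h => ?_⟩)
    · linear_combination (norm := abel1) e2 - e1
    · have := S.ext2 hjk ((S.co_pt_snd hij b c).trans (S.co_pt_snd hij a c).symm) h
      rw [← S.co_pt_fst hij a c, ← this, S.co_pt_fst hij]
  omega

/-- a function with few isolated points has a small image -/
theorem image_small (f : Fin n → H) :
    2 * (univ.image f).card + (univ.filter fun s => ∃ t, f t = f s ∧ t ≠ s).card ≤ 2 * n := by
  set T := univ.filter fun s => ∃ t, f t = f s ∧ t ≠ s with hT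
  have h1 : 2 * (T.image f).card ≤ T.card := by
    refine mul_card_image_le_card T 2 fun g hg => ?_
    obtain ⟨s, hs, rfl⟩ := mem_image.1 hg
    obtain ⟨t, h, h'⟩ := (mem_filter.1 hs).2
    refine one_lt_card.2 ⟨s, mem_filter.2 ⟨hs, rfl⟩, t, mem_filter.2 ⟨?_, h⟩, h'.symm⟩
    exact mem_filter.2 ⟨mem_univ _, s, h.symm, h'.symm⟩
  have h2 : (univ.image f).card ≤ (T.image f).card + (Tᶜ.image f).card := by
    rw [← union_compl T, image_union]; exact card_union_le _ _
  have h3 : (Tᶜ.image f).card ≤ Tᶜ.card := card_image_le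
  have h4 := card_compl_add_card T
  rw [Fintype.card_fin] at h4
  omega

theorem lab_inj (lab : Ln n → H) (e : ℕ) (he : 10 ≤ e) (hn : 10000 * e ≤ n)
    (hb : ∀ l, S.cnt (univ.filter fun x => S.df lab x ≠ 0) l ≤ 100 * e)
    (hg : addOrderOf (∑ l, lab l) = Fintype.card H) (hH' : n ≤ Fintype.card H + 100 * e)
    (hr : ∀ g, ∃ a b, g = lab (0, a) - lab (0, b)) :
    (∀ i, Function.Injective fun a => lab (i, a)) ∧ n < Fintype.card H := by
  have small : ∀ {i j k : Fin 3}, i ≠ j → i ≠ k → j ≠ k →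
      ¬ (Function.Injective fun a => lab (i, a)) →
      2 * (univ.image fun s => lab (k, s)).card ≤ n + 200 * e := by
    intro i j k hij hik hjk h
    obtain ⟨a, b, h1, h2⟩ := Function.not_injective_iff.1 h
    have h3 := two_good S lab _ hb hij hik hjk a b
    have h4 := image_small fun s => lab (k, s)
    have h5 : (univ.filter fun s => ∃ t, lab (k, t) = lab (k, s) + (lab (i, a) - lab (i, b)) ∧
        (t = s → a = b)) ⊆ univ.filter fun s => ∃ t, lab (k, t) = lab (k, s) ∧ t ≠ s := by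
      intro s hs
      obtain ⟨t, e1, e2⟩ := (mem_filter.1 hs).2
      exact mem_filter.2 ⟨mem_univ _, t, by rw [e1, h1, sub_self, add_zero], fun e => h2 (e2 e)⟩
    have := card_le_card h5
    omega
  have big : ¬ 2 * (univ.image fun s => lab (2, s)).card ≤ n + 200 * e := by
    intro hs
    set T := univ.image fun s => lab (2, s) with hT
    have h1 : ∀ g : H, n ≤ (univ.filter fun s => lab (2, s) + g ∈ T).card + 200 * e := by
      intro g
      obtain ⟨a, b, rfl⟩ := hr g
      refine (two_good S lab _ hb (i := 0) (j := 1) (k := 2) (by decide) (by decide) (by decide)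
        a b).trans (add_le_add (card_le_card fun s hs => ?_) (by omega))
      obtain ⟨t, e1, -⟩ := (mem_filter.1 hs).2
      exact mem_filter.2 ⟨mem_univ _, e1 ▸ mem_image_of_mem _ (mem_univ t)⟩
    have h2 : ∑ g : H, (univ.filter fun s => lab (2, s) + g ∈ T).card = n * T.card := by
      simp only [card_filter]
      rw [sum_comm]
      simp only [← card_filter]
      rw [sum_congr rfl fun s _ => (show (univ.filter fun g => lab (2, s) + g ∈ T).card = T.card
        from card_bij (fun g _ => lab (2, s) + g) (fun g hg => (mem_filter.1 hg).2)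
          (fun _ _ _ _ h => add_left_cancel h) fun t ht => ⟨t - lab (2, s),
            mem_filter.2 ⟨mem_univ _, by rwa [add_sub_cancel]⟩, add_sub_cancel _ _⟩)]
      simp
    have h3 := sum_le_sum fun g (_ : g ∈ univ) => h1 g
    rw [sum_add_distrib, h2] at h3
    simp only [sum_const, card_univ, smul_eq_mul] at h3
    obtain ⟨r, rfl⟩ := Nat.exists_eq_add_of_le hn
    obtain ⟨m, hm⟩ := Nat.exists_eq_add_of_le (show 9900 * e + r ≤ Fintype.card H by omega)
    rw [hm] at h3
    nlinarith [Nat.mul_le_mul_left (10000 * e + r) hs, Nat.zero_le (m * r), Nat.zero_le (m * e),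
      Nat.zero_le (r * e), Nat.zero_le (r * r), Nat.mul_pos (show 0 < e by omega)
        (show 0 < e by omega)]
  have i0 : Function.Injective fun a => lab (0, a) := by
    by_contra h
    exact big (small (j := 1) (by decide) (by decide) (by decide) h)
  have hi : ∀ i, Function.Injective fun a => lab (i, a) := by
    intro i
    by_contra h
    fin_cases i
    · exact h i0
    · exact big (small (j := 0) (by decide) (by decide) (by decide) h)
    · have := small (j := 1) (k := 0) (by decide) (by decide) (by decide) h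
      rw [card_image_of_injective _ i0, card_univ, Fintype.card_fin] at this
      omega
  refine ⟨hi, lt_of_le_of_ne (by simpa using Fintype.card_le_of_injective _ i0) fun hm => ?_⟩
  have hs : ∀ i, 2 • ∑ a, lab (i, a) = 0 := by
    intro i
    have hb := (Fintype.bijective_iff_injective_and_card _).2 ⟨hi i, by simpa using hm⟩
    rw [hb.sum_comp fun g => g, two_nsmul]
    nth_rewrite 1 [← Equiv.sum_comp (Equiv.neg H) fun g => g]
    simp [← sum_add_distrib]
  have h2 : 2 • ∑ l, lab l = 0 := by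
    rw [Fintype.sum_prod_type, smul_sum]
    exact sum_eq_zero fun i _ => hs i
  have := addOrderOf_le_of_nsmul_eq_zero (by norm_num) h2
  omega

end Inj

end PlexX
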