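import Pool.Agent.Lib.MP_3d3eb4_co.PX.Fill
import Pool.Agent.Lib.MP_3d3eb4_co.PX.Local
import Pool.Agent.Lib.MP_3d3eb4_co.NZS

/-! A consistent choice of the exceptional cells exists. -/

namespace PlexX

open Finset Pool.Agent.Lib.MP_3d3eb4_co.NE

/-- layers of private cells on the lines of `Z` -/
theorem exists_layers {n : ℕ} (S : Sq n) (P : Finset (Cell n)) (Z : Finset (Ln n)) (k : ℕ)
    (hP : ∀ l, S.cnt P l = k + Z.card) :
    ∃ c : Z × Fin k → Cell n, Function.Injective c ∧ (∀ p, c p ∈ P) ∧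
      ∀ p, ∀ l ∈ Z, S.co l.1 (c p) = l.2 ↔ l = p.1 := by
  have h : ∀ z : Z, ∃ f : Fin k → Cell n, Function.Injective f ∧ ∀ j, f j ∈ P ∧
      ∀ l ∈ Z, S.co l.1 (f j) = l.2 ↔ l = z := by
    rintro ⟨z, hz⟩
    set T := (P.filter (S.Off (Z.erase z))).filter fun x => S.co z.1 x = z.2 with hT
    have h1 := S.cnt_on_le (Z.erase z) (P.filter fun x => ¬ S.Off (Z.erase z) x) z
      (notMem_erase z Z) fun x hx => (mem_filter.1 hx).2
    have h2 := S.cnt_union_le (P.filter (S.Off (Z.erase z)))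
      (P.filter fun x => ¬ S.Off (Z.erase z) x) z
    rw [filter_union_filter_not_eq, hP] at h2
    have h3 : (Z.erase z).card ≤ Z.card := card_erase_le
    have h4 : k ≤ T.card := by
      change _ ≤ S.cnt _ z
      omega
    obtain ⟨f⟩ := Function.Embedding.nonempty_of_card_le (α := Fin k) (β := T) (by simpa using h4)
    refine ⟨fun j => f j, fun a b e => f.injective (Subtype.ext e), fun j => ?_⟩
    obtain ⟨h5, h6⟩ := mem_filter.1 (f j).2
    obtain ⟨h5, h7⟩ := mem_filter.1 h5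
    refine ⟨h5, fun l hl => ⟨fun e => ?_, fun e => by rw [e]; exact h6⟩⟩
    by_contra hne
    exact h7 l.1 (mem_erase.2 ⟨by rw [e]; exact hne, by rw [e]; exact hl⟩)
  choose f hf hf' using h
  refine ⟨fun p => f p.1 p.2, ?_, fun p => (hf' _ _).1, fun p => (hf' _ _).2⟩
  rintro ⟨z, j⟩ ⟨z', j'⟩ e
  have e' : f z j = f z' j' := e
  have : z = z' := Subtype.ext (((hf' z' j').2 z z.2).1 (e' ▸ ((hf' z j).2 z z.2).2 rfl))
  subst this
  rw [hf z e']

theorem cnt_image {n k : ℕ} (S : Sq n) {Z : Finset (Ln n)} {c : Z × Fin k → Cell n}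
    (hc : Function.Injective c) (hc' : ∀ p, ∀ l ∈ Z, S.co l.1 (c p) = l.2 ↔ l = p.1)
    (σ : Z → Equiv.Perm (Fin k)) (J : Finset (Fin k)) (z : Ln n) (hz : z ∈ Z) :
    S.cnt ((univ ×ˢ J).image fun p : Z × Fin k => c (p.1, σ p.1 p.2)) z = J.card := by
  symm
  refine card_bij (fun j _ => c (⟨z, hz⟩, σ ⟨z, hz⟩ j)) (fun j hj => ?_) (fun a _ b _ e => ?_)
    fun x hx => ?_
  · exact mem_filter.2 ⟨mem_image.2 ⟨(⟨z, hz⟩, j), mem_product.2 ⟨mem_univ _, hj⟩, rfl⟩,
      (hc' _ z hz).2 rfl⟩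
  · exact (σ _).injective (Prod.mk.inj (hc e)).2
  · obtain ⟨hx, e⟩ := mem_filter.1 hx
    obtain ⟨⟨z', j⟩, hp, rfl⟩ := mem_image.1 hx
    have : (⟨z, hz⟩ : Z) = z' := Subtype.ext ((hc' _ z hz).1 e)
    subst this
    exact ⟨j, (mem_product.1 hp).2, rfl⟩

theorem sum_image_lay {n k : ℕ} {H : Type} [AddCommGroup H] {Z : Finset (Ln n)}
    {c : Z × Fin k → Cell n} (hc : Function.Injective c) (g : Cell n → H)
    (σ : Z → Equiv.Perm (Fin k)) (J : Finset (Fin k)) :
    ∑ x ∈ (univ ×ˢ J).image fun p : Z × Fin k => c (p.1, σ p.1 p.2), g x =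
      ∑ j ∈ J, ∑ l, g (c (l, σ l j)) := by
  rw [sum_image, sum_product_right]
  rintro ⟨z, j⟩ - ⟨z', j'⟩ - e
  obtain ⟨rfl, e'⟩ := Prod.mk.inj (hc e)
  exact Prod.ext rfl ((σ z).injective e')

theorem df_sub {n : ℕ} (S : Sq n) {H : Type} [AddCommGroup H] (lab v : Ln n → H) (x : Cell n) :
    S.df (fun l => lab l - v l) x = S.df lab x - S.df v x := by
  simp only [Sq.df]; abel

theorem exists_goal {n : ℕ} (S : Sq n) {H : Type} [AddCommGroup H] [Fintype H] [DecidableEq H]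
    (P A : Finset (Cell n)) (Z : Finset (Ln n)) (lab : Ln n → H) (k u e : ℕ) (_hAP : A ⊆ P)
    (hP : ∀ l, S.cnt P l = k) (hk : n ≤ k + 2) (hS : S.Sparse A Z u) (he : 10 ≤ e)
    (hZ : Z.card ^ 2 ≤ e) (hn : 10000 * e ≤ n) (hH : Fintype.card H ≤ n + e)
    (h0 : ∀ x ∈ A, S.df lab x = 0)
    (hr : ∀ g, ∃ a b, (0, a) ∉ Z ∧ (0, b) ∉ Z ∧ g = lab (0, a) - lab (0, b)) :
    S.Goal P A Z lab e := by
  have hZ' : Z.card ≤ e := le_trans (Nat.le_self_pow (by norm_num) _) hZ
  obtain ⟨k, rfl⟩ : ∃ k', k = k' + Z.card := ⟨k - Z.card, by omega⟩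
  obtain ⟨c, hc, hcP, hc'⟩ := exists_layers S P Z k hP
  have hkn : k + Z.card ≤ n := by
    have := S.cnt_add_compl P (0, ⟨0, by omega⟩)
    rw [hP] at this
    omega
  set F := ∑ l, lab l with hF
  set La := (univ ×ˢ univ).image
    fun p : Z × Fin k => c (p.1, (1 : Z → Equiv.Perm (Fin k)) p.1 p.2) with hLa
  set On := P.filter fun x => ¬ S.Off Z x with hOn
  set Lo := (P \ A).filter (S.Off Z) with hLo
  have hcOn : ∀ p, c p ∈ On := fun p => mem_filter.2 ⟨hcP p, fun h => h p.1.1.1 (by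
    rw [(hc' p _ p.1.2).2 rfl]; exact p.1.2)⟩
  have hcLa : ∀ p, c p ∈ La := fun p => mem_image.2 ⟨p, by simp, rfl⟩
  have hLaOn : La ⊆ On := image_subset_iff.2 fun p _ => hcOn _
  have hOnA : On ⊆ P \ A := fun x hx =>
    mem_sdiff.2 ⟨(mem_filter.1 hx).1, fun h => (mem_filter.1 hx).2 (hS.off x h)⟩
  have hJ : ∀ z ∈ Z, S.cnt (On \ La) z = Z.card := by
    intro z hz
    have h1 := S.cnt_union (sdiff_disjoint (s := La) (t := On)) z
    rw [sdiff_union_of_subset hLaOn, cnt_image S hc hc' 1 univ z hz, card_univ,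
      Fintype.card_fin] at h1
    have h2 : S.cnt On z = S.cnt P z := by
      rw [Sq.cnt, hOn, filter_filter]
      exact congrArg card (filter_congr fun x _ => ⟨fun h => h.2, fun h =>
        ⟨fun ho => ho z.1 (by rw [h]; exact hz), h⟩⟩)
    rw [h2, hP] at h1
    omega
  have hLo0 : ∀ Q ⊆ Lo, ∀ z ∈ Z, S.cnt Q z = 0 := fun Q hQ z hz =>
    card_eq_zero.2 (filter_eq_empty_iff.2 fun x hx h =>
      (mem_filter.1 (hQ hx)).2 z.1 (by rw [h]; exact hz))
  have hdis : Disjoint On Lo := disjoint_left.2 fun x hx hx' =>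
    (mem_filter.1 hx).2 (mem_filter.1 hx').2
  let d : Option Lo → H := fun i =>
    i.elim (∑ x ∈ On \ La, S.df lab x - Z.card • F) fun x => S.df lab x
  have htot : ∑ j, (∑ l, S.df lab (c (l, j)) - F) + ∑ i, d i = 0 := by
    have h1 := S.sum_df lab P
    simp only [S.deg_apply, hP, natCast_zsmul, ← smul_sum, ← hF] at h1
    have h2 : ∑ x ∈ P, S.df lab x = ∑ x ∈ On, S.df lab x + ∑ x ∈ Lo, S.df lab x := by
      rw [← sum_union hdis]
      refine (sum_subset (union_subset (filter_subset _ _)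
        ((filter_subset _ _).trans sdiff_subset)) fun x hx hx' => ?_).symm
      refine h0 x (by_contra fun h => hx' ?_)
      by_cases ho : S.Off Z x
      · exact mem_union_right _ (mem_filter.2 ⟨mem_sdiff.2 ⟨hx, h⟩, ho⟩)
      · exact mem_union_left _ (mem_filter.2 ⟨hx, ho⟩)
    have h3 := sum_sdiff (f := S.df lab) hLaOn
    rw [sum_image_lay hc] at h3
    rw [Fintype.sum_option, sum_sub_distrib]
    simp only [d, Option.elim, Pi.one_apply, Equiv.Perm.one_apply] at h3 ⊢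
    rw [sum_coe_sort Lo (S.df lab), sum_const, card_univ, Fintype.card_fin]
    rw [add_nsmul] at h1
    linear_combination (norm := abel1) h1 - h2 + h3
  rcases zs_main (a := 3 * e) (fun l j => S.df lab (c (l, j))) F d (by omega) (by omega)
    (by omega) htot with ⟨σ, J, I, h1, h2, h3⟩ | ⟨v, h1, h2, h3, h4⟩
  · set Y₁ := (univ ×ˢ J).image fun p : Z × Fin k => c (p.1, σ p.1 p.2) with hY₁
    set Y₂ := if none ∈ I then On \ La else ∅ with hY₂
    set Y₃ := (I.eraseNone).image Subtype.val with hY₃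
    have s1 : Y₁ ⊆ La := image_subset_iff.2 fun p _ => hcLa _
    have s2 : Y₂ ⊆ On \ La := by rw [hY₂]; split_ifs <;> simp
    have s3 : Y₃ ⊆ Lo := image_subset_iff.2 fun x _ => x.2
    have s12 : Y₁ ∪ Y₂ ⊆ On := union_subset (s1.trans hLaOn) (s2.trans sdiff_subset)
    have d12 : Disjoint Y₁ Y₂ := disjoint_sdiff.mono s1 s2
    have d3 : Disjoint (Y₁ ∪ Y₂) Y₃ := hdis.mono s12 s3
    refine ⟨J.card + if none ∈ I then Z.card else 0, Y₁ ∪ Y₂ ∪ Y₃, by omega,
      by split_ifs <;> omega, union_subset (s12.trans hOnA) (s3.trans (filter_subset _ _)),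
      fun z hz => ?_, ?_⟩
    · rw [S.cnt_union d3, S.cnt_union d12, cnt_image S hc hc' σ J z hz, hLo0 _ s3 z hz, hY₂]
      split_ifs
      · rw [hJ z hz, add_zero]
      · simp [Sq.cnt]
    · rw [sum_union d3, sum_union d12, sum_image_lay hc, sum_image Subtype.val_injective.injOn,
        sum_eraseNone, add_nsmul]
      rw [sum_sub_distrib, sum_const] at h3
      have h4 : ∑ i ∈ I, d i = ∑ i ∈ I, Option.elim' 0 (fun x : Lo => S.df lab x) i +
          (∑ x ∈ Y₂, S.df lab x - (if none ∈ I then Z.card else 0) • F) := by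
        rw [show ∑ x ∈ Y₂, S.df lab x - (if none ∈ I then Z.card else 0) • F =
          ∑ i ∈ I, if i = none then d none else 0 by
            rw [sum_ite_eq', hY₂]; split_ifs <;> simp [d], ← sum_add_distrib]
        exact sum_congr rfl fun i _ => by cases i <;> simp [d]
      linear_combination (norm := abel1) h3 - h4
  exfalso
  let v' : Ln n → H := fun l => if h : l ∈ Z then v ⟨l, h⟩ else 0
  have hv0 : ∀ x, S.Off Z x → S.df v' x = 0 := fun x hx => by
    simp only [Sq.df, v', dif_neg (hx _), add_zero]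
  have hvc : ∀ p, S.df v' (c p) = v p.1 := by
    rintro ⟨⟨⟨i, a⟩, hz⟩, j⟩
    have e1 : S.co i (c (⟨(i, a), hz⟩, j)) = a := (hc' _ _ hz).2 rfl
    have e2 : ∀ i', i' ≠ i → v' (i', S.co i' (c (⟨(i, a), hz⟩, j))) = 0 := fun i' hi =>
      dif_neg fun h => hi (Prod.mk.inj ((hc' _ _ h).1 rfl)).1
    obtain ⟨i', i'', a1, a2, a3⟩ :=
      (by decide : ∀ i : Fin 3, ∃ i' i'' : Fin 3, i ≠ i' ∧ i ≠ i'' ∧ i' ≠ i'') i
    rw [df_eq S v' a1 a2 a3, e2 _ a1.symm, e2 _ a2.symm, e1]
    simp [v', hz]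
  have hsum : ∑ l, (lab l - v' l) = F - ∑ l, v l := by
    rw [sum_sub_distrib, ← sum_subset (f := v') (subset_univ Z) fun l _ hl => dif_neg hl,
      ← sum_coe_sort Z]
    simp [v', hF]
  have hbad : (P.filter fun x => S.df (fun l => lab l - v' l) x ≠ 0).card ≤ 90 * e := by
    have b1 : (P.filter fun x => S.df (fun l => lab l - v' l) x ≠ 0) ⊆
        (univ.filter fun p : Z × Fin k => S.df lab (c (p.1, p.2)) ≠ v p.1).image c ∪
        (Z.biUnion fun z => (On \ La).filter fun x => S.co z.1 x = z.2) ∪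
        ((univ.filter fun i => d i ≠ 0).eraseNone).image Subtype.val := by
      intro x hx
      obtain ⟨hx, hx'⟩ := mem_filter.1 hx
      rw [df_sub] at hx'
      by_cases ho : S.Off Z x
      · rw [hv0 x ho, sub_zero] at hx'
        exact mem_union_right _ (mem_image.2 ⟨⟨x, mem_filter.2 ⟨mem_sdiff.2 ⟨hx, fun h =>
          hx' (h0 x h)⟩, ho⟩⟩, mem_eraseNone.2 (mem_filter.2 ⟨mem_univ _, hx'⟩), rfl⟩)
      refine mem_union_left _ ?_
      by_cases hl : x ∈ La
      · obtain ⟨p, -, rfl⟩ := mem_image.1 hl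
        rw [hvc] at hx'
        exact mem_union_left _ (mem_image.2 ⟨p, mem_filter.2 ⟨mem_univ _, sub_ne_zero.1 hx'⟩, rfl⟩)
      · obtain ⟨i, hi⟩ : ∃ i, (i, S.co i x) ∈ Z := by simpa [Sq.Off] using ho
        exact mem_union_right _ (mem_biUnion.2 ⟨_, hi,
          mem_filter.2 ⟨mem_sdiff.2 ⟨mem_filter.2 ⟨hx, ho⟩, hl⟩, rfl⟩⟩)
    have b2 : (Z.biUnion fun z => (On \ La).filter fun x => S.co z.1 x = z.2).card ≤ e :=
      (card_biUnion_le_card_mul _ _ Z.card fun z hz => (hJ z hz).le).trans (by rwa [← sq])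
    have b3 := (card_le_card b1).trans ((card_union_le _ _).trans (add_le_add
      ((card_union_le _ _).trans (add_le_add (card_image_le.trans h2) b2))
      (card_image_le.trans ((card_eraseNone_le _).trans h3))))
    omega
  rw [← hsum] at h1
  have hP' : ∀ l, n ≤ S.cnt P l + 2 := fun l => by rwa [hP]
  obtain ⟨hi, hlt⟩ := lab_inj S (fun l => lab l - v' l) e he hn (fun l => by
      have c1 : (univ.filter fun x => S.df (fun l => lab l - v' l) x ≠ 0) ⊆
          (P.filter fun x => S.df (fun l => lab l - v' l) x ≠ 0) ∪ Pᶜ := fun x hx => by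
        by_cases h : x ∈ P
        · exact mem_union_left _ (mem_filter.2 ⟨h, (mem_filter.1 hx).2⟩)
        · exact mem_union_right _ (mem_compl.2 h)
      have c2 := (S.cnt_mono c1 l).trans (S.cnt_union_le _ _ l)
      have c3 := (S.cnt_le_card _ l).trans hbad
      have c4 := S.cnt_add_compl P l
      have c5 := hP' l
      omega) h1 (by omega) fun g => by
      obtain ⟨a, b, ha, hb, rfl⟩ := hr g
      exact ⟨a, b, by simp only [v', dif_neg ha, dif_neg hb, sub_zero]⟩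
  have : IsAddCyclic H :=
    isAddCyclic_of_addOrderOf_eq_card _ (by rw [h1, Nat.card_eq_fintype_card])
  exact local_contra S P _ e hP' he hn (by omega) hlt hi hbad

end PlexX
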