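import Pool.Agent.Lib.MP_3d3eb4_co.PX.Step
import Pool.Agent.Lib.MP_3d3eb4_co.NRand

/-! A random choice of cells with nearly regular degrees and all patterns. -/

namespace PlexX

open Finset Pool.Agent.Lib.MP_3d3eb4_co.NE

theorem poly_exp_small (η : ℝ) (hη : 0 < η) :
    ∃ N : ℕ, ∀ n : ℕ, N ≤ n →
      20 * (n : ℝ) ^ 4 * Real.exp (-(η ^ 2 * ((n / 4 : ℕ) : ℝ) / 4)) < 1 := by
  obtain ⟨N, hN⟩ := exists_nat_gt (2400 * 32 ^ 5 / η ^ 10)
  refine ⟨N + 4, fun n hn => ?_⟩
  have h1 : (n : ℝ) ≤ 8 * ((n / 4 : ℕ) : ℝ) := by exact_mod_cast (by omega : n ≤ 8 * (n / 4))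
  have h2 : (N : ℝ) + 4 ≤ n := by exact_mod_cast hn
  have h0 : (0 : ℝ) ≤ N := Nat.cast_nonneg _
  have hn0 : (0 : ℝ) < n := by linarith
  have h3 : η ^ 2 * n / 32 ≤ η ^ 2 * ((n / 4 : ℕ) : ℝ) / 4 := by nlinarith [sq_nonneg η]
  have h4 := Real.pow_div_factorial_le_exp (η ^ 2 * n / 32) (by positivity) 5
  have h5 := h4.trans (Real.exp_le_exp.2 h3)
  rw [Real.exp_neg, ← div_eq_mul_inv, div_lt_one (Real.exp_pos _)]
  refine lt_of_lt_of_le ?_ h5
  rw [div_lt_iff₀ (by positivity)] at hN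
  have h6 : 2400 * 32 ^ 5 < η ^ 10 * n := by nlinarith [pow_pos hη 10]
  have h7 := mul_lt_mul_of_pos_left h6 (pow_pos hn0 4)
  rw [show (Nat.factorial 5 : ℝ) = 120 by norm_num [Nat.factorial], lt_div_iff₀ (by norm_num)]
  nlinarith

section Rare

variable {β : Type} [Fintype β]

open Classical in
/-- the property fails on at most a fraction `δ` of the space -/
def Rare (δ : ℝ) (P : β → Prop) : Prop :=
  ((univ.filter fun ω => ¬ P ω).card : ℝ) ≤ δ * Fintype.card β

theorem Rare.and {δ δ' : ℝ} {P Q : β → Prop} (h : Rare δ P) (h' : Rare δ' Q) :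
    Rare (δ + δ') fun ω => P ω ∧ Q ω := by
  classical
  unfold Rare at *
  rw [add_mul]
  refine le_trans ?_ (add_le_add h h')
  rw [← Nat.cast_add, Nat.cast_le]
  refine le_trans (card_le_card fun ω hω => ?_) (card_union_le _ _)
  simp only [mem_union, mem_filter, mem_univ, true_and] at hω ⊢
  tauto

theorem Rare.all {ι : Type} [Fintype ι] {δ : ℝ} {P : ι → β → Prop} (h : ∀ i, Rare δ (P i)) :
    Rare (Fintype.card ι * δ) fun ω => ∀ i, P i ω := by
  classical
  unfold Rare at *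
  have h1 := sum_le_card_nsmul univ _ _ fun i _ => h i
  rw [nsmul_eq_mul, card_univ, ← mul_assoc, ← Nat.cast_sum] at h1
  refine le_trans (Nat.cast_le.2 (le_trans (card_le_card fun ω hω => ?_) card_biUnion_le)) h1
  simpa using hω

theorem Rare.imp {δ : ℝ} (hδ : 0 ≤ δ) {c : Prop} {P : β → Prop} (h : c → Rare δ P) :
    Rare δ fun ω => c → P ω := by
  by_cases hc : c
  · simpa [hc] using h hc
  · simp only [Rare, hc, IsEmpty.forall_iff, not_true, filter_false, card_empty, Nat.cast_zero]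
    positivity

theorem Rare.mono {δ : ℝ} {P Q : β → Prop} (h : Rare δ P) (h' : ∀ ω, P ω → Q ω) : Rare δ Q := by
  classical
  unfold Rare at *
  refine le_trans (Nat.cast_le.2 (card_le_card fun ω hω => ?_)) h
  simp only [mem_filter, mem_univ, true_and] at hω ⊢
  exact fun k => hω (h' ω k)

theorem Rare.exists [Nonempty β] {δ : ℝ} {P : β → Prop} (h : Rare δ P) (hδ : δ < 1) :
    ∃ ω, P ω := by
  by_contra hc
  push Not at hc
  have hp : (0 : ℝ) < Fintype.card β := Nat.cast_pos.2 Fintype.card_pos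
  simp only [Rare, hc, not_false_iff, filter_true, card_univ] at h
  nlinarith

end Rare

/-- a family of disjoint patterns succeeds about as often as expected -/
theorem rare_pat {Ω T κ : Type} [Fintype Ω] [DecidableEq Ω] [Fintype T] [DecidableEq T]
    [Nonempty T] [DecidableEq κ] {r : ℕ} (I : Finset κ) (x : Fin r → κ → Ω) (R : Fin r → Finset T)
    (q η : ℝ) (m : ℕ) (hη : 0 < η) (hη1 : η ≤ 1) (hq0 : 0 ≤ q) (hq1 : q ≤ 1)
    (hi : Set.InjOn (fun p : Fin r × κ => x p.1 p.2) {p | p.2 ∈ I})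
    (hq : ∀ k, q * Fintype.card T ≤ (R k).card) (hm : m ≤ I.card) :
    Rare (Real.exp (-(η ^ 2 * m / 4))) fun ω : Ω → T =>
      (q ^ r - η) * I.card ≤ (I.filter fun s => ∀ k, ω (x k s) ∈ R k).card := by
  have h := rand_tail (fun s => univ.image fun k => x k s) (fun s (ω : Ω → T) =>
    ∀ k, ω (x k s) ∈ R k) (q ^ r) η (pow_le_one₀ hq0 hq1) hη hη1
    (fun s ω ω' h k j => h _ (mem_image_of_mem _ (mem_univ j)) ▸ k j) I
    (fun s hs t ht hst => disjoint_left.2 fun z hz hz' => by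
      obtain ⟨k, -, rfl⟩ := mem_image.1 hz
      obtain ⟨k', -, e⟩ := mem_image.1 hz'
      exact hst (Prod.mk.inj (hi (x₁ := (k', t)) ht (x₂ := (k, s)) hs e)).2.symm)
    fun s hs => by
      have hs' : Function.Injective fun k => x k s := fun k k' e =>
        (Prod.mk.inj (hi (x₁ := (k, s)) hs (x₂ := (k', s)) hs e)).1
      have h1 := rand_pattern (univ.image fun k => x k s)
        (fun z => univ.filter fun t => ∀ k, x k s = z → t ∈ R k) q hq0 fun z hz => by
          obtain ⟨k, -, rfl⟩ := mem_image.1 hz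
          exact (hq k).trans (Nat.cast_le.2 (card_le_card fun t ht =>
            mem_filter.2 ⟨mem_univ _, fun k' e => hs' e ▸ ht⟩))
      rw [card_image_of_injective _ hs', card_univ, Fintype.card_fin] at h1
      refine h1.trans (Nat.cast_le.2 (card_le_card fun ω hω => mem_filter.2 ⟨mem_univ _, fun k =>
        (mem_filter.1 ((mem_filter.1 hω).2 _ (mem_image_of_mem _ (mem_univ k)))).2 k rfl⟩))
  unfold Rare
  simp only [not_le]
  refine le_trans (le_of_eq (by congr)) (h.trans (mul_le_mul_of_nonneg_right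
    (Real.exp_le_exp.2 ?_) (Nat.cast_nonneg _)))
  nlinarith [mul_le_mul_of_nonneg_left (Nat.cast_le (α := ℝ).2 hm) (sq_nonneg η)]

variable {n : ℕ} (S : Sq n)

theorem cnt_param (g : Fin n → Cell n) (hg : Function.Injective g) (l : Ln n)
    (hl : ∀ b, S.co l.1 (g b) = l.2) (Q : Finset (Cell n)) :
    (univ.filter fun b => g b ∈ Q).card ≤ S.cnt Q l :=
  card_le_card_of_injOn g (fun b hb => mem_coe.2 (mem_filter.2
    ⟨(mem_filter.1 (mem_coe.1 hb)).2, hl b⟩)) hg.injOn

/-- patterns along distinct lines of one type -/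
theorem rare_lines {T : Type} [Fintype T] [DecidableEq T] [Nonempty T] {r : ℕ} (hr : r ≤ 4)
    (Fx : Finset (Cell n)) (f : ℕ) (hf : 8 * f ≤ n) (i : Fin 3) (a : Fin r → Fin n)
    (ha : Function.Injective a) (x : Fin r → Fin n → Cell n) (hx : ∀ k, Function.Injective (x k))
    (hl : ∀ k b, S.co i (x k b) = a k) (hF : ∀ k, S.cnt Fx (i, a k) ≤ f) (R : Fin r → Finset T)
    (q η : ℝ) (hη : 0 < η) (hη1 : η ≤ 1) (hq0 : 0 ≤ q) (hq1 : q ≤ 1)
    (hq : ∀ k, q * Fintype.card T ≤ (R k).card) :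
    Rare (Real.exp (-(η ^ 2 * (n / 4 : ℕ) / 4))) fun ω : Cell n → T =>
      ∃ m : ℕ, n ≤ m + r * f ∧ m ≤ n ∧ (q ^ r - η) * m ≤
        (univ.filter fun s => ∀ k, x k s ∉ Fx ∧ ω (x k s) ∈ R k).card := by
  set I := univ.filter fun s => ∀ k, x k s ∉ Fx with hI
  have h1 : Iᶜ.card ≤ r * f := by
    refine le_trans (card_le_card (t := univ.biUnion fun k => univ.filter fun s => x k s ∈ Fx)
      fun s hs => by simpa [hI] using hs) ((card_biUnion_le_card_mul _ _ f fun k _ =>
      (cnt_param S _ (hx k) (i, a k) (hl k) Fx).trans (hF k)).trans (by simp))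
  have h2 := card_compl_add_card I
  rw [Fintype.card_fin] at h2
  have h3 := Nat.mul_le_mul_right f hr
  refine (rare_pat I x R q η (n / 4) hη hη1 hq0 hq1 ?_ hq (by omega)).mono fun ω h =>
    ⟨I.card, by omega, by omega, h.trans (le_of_eq ?_)⟩
  · rintro ⟨k, s⟩ - ⟨k', s'⟩ - e
    have e' : x k s = x k' s' := e
    obtain rfl : k = k' := ha (by rw [← hl k s, e', hl])
    rw [hx k e']
  · simp only [hI, filter_filter, forall_and]

/-- the colours of a given kind -/
def col (n h : ℕ) (t b : Bool) : Finset (Fin n × Bool) :=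
  univ.filter fun s => decide (s.1.val < h) = t ∧ s.2 = b

theorem card_col {h : ℕ} (hh : h ≤ n) (b : Bool) :
    (col n h true b).card = h ∧ (col n h false b).card + h = n := by
  have h1 : ∀ t, (col n h t b).card = (univ.filter fun s : Fin n => decide (s.val < h) = t).card :=
    fun t => card_bij (fun s _ => s.1) (fun s hs => by simp_all [col])
      (fun s hs s' hs' e => Prod.ext e (by simp_all [col]))
      fun s hs => ⟨(s, b), by simp_all [col], rfl⟩
  have h2 : (univ.filter fun s : Fin n => s.val < h).card = h := by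
    rw [Fin.card_filter_val_lt, min_eq_right hh]
  have h3 := card_filter_add_card_filter_not (s := univ) fun s : Fin n => s.val < h
  rw [h1, h1]
  simp only [decide_eq_true_eq, decide_eq_false_iff_not, card_univ, Fintype.card_fin] at h3 ⊢
  omega

theorem card_col2 {h : ℕ} (hh : h ≤ n) : (col n h true true ∪ col n h true false).card = 2 * h ∧
    (col n h false true ∪ col n h false false).card + 2 * h = 2 * n := by
  have d : ∀ t, Disjoint (col n h t true) (col n h t false) := fun t =>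
    disjoint_left.2 fun s h1 h2 => by simp_all [col]
  have h1 := card_col hh true
  have h2 := card_col hh false
  rw [card_union_of_disjoint (d _), card_union_of_disjoint (d _)]
  omega

theorem inj2 {α : Type} {a b : α} (h : a ≠ b) : Function.Injective ![a, b] := fun k k' e => by
  fin_cases k <;> fin_cases k' <;> simp_all [eq_comm]

theorem inj4 {α : Type} {a b c d : α} (h1 : a ≠ b) (h2 : a ≠ c) (h3 : a ≠ d) (h4 : b ≠ c)
    (h5 : b ≠ d) (h6 : c ≠ d) : Function.Injective ![a, b, c, d] := fun k k' e => by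
  fin_cases k <;> fin_cases k' <;> simp_all [eq_comm]

theorem pseudo (E D : ℕ) (hE : 0 < E) (hD : 0 < D) : ∃ N : ℕ, ∀ n : ℕ, N ≤ n → ∀ (S : Sq n)
    (Z : Finset (Ln n)) (Fx In : Finset (Cell n)) (h f : ℕ)
    (I : Fin n → Fin n → Finset (Fin n)) (x : Fin n → Fin n → Fin 4 → Fin n → Cell n),
    In ⊆ Fx → n ≤ E * h → n + E * h ≤ E * n → (∀ l, l ∉ Z → S.cnt Fx l ≤ f) → 8 * f ≤ n →
    (∀ a b k, ∀ s ∈ I a b, x a b k s ∉ Fx) →
    (∀ a b, Set.InjOn (fun p : Fin 4 × Fin n => x a b p.1 p.2) {p | p.2 ∈ I a b}) →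
    ∃ Q₀ Fi Fo : Finset (Cell n), Q₀ ∩ Fx = In ∧ Fi ⊆ Q₀ \ Fx ∧ Disjoint Fo (Q₀ ∪ Fx) ∧
      (∀ l, l ∉ Z → D * ((S.cnt Q₀ l : ℤ) - h).natAbs ≤ n + D * f) ∧
      S.Rich Z Fi Fo (n / (4 * (2 * E) ^ 4)) ∧
      ∀ a b, n ≤ 4 * (I a b).card → ∃ s ∈ I a b, x a b 0 s ∈ Q₀ ∧ x a b 1 s ∉ Q₀ ∧
        x a b 2 s ∈ Q₀ ∧ x a b 3 s ∉ Q₀ ∧ ∀ k, x a b k s ∉ Fi ∪ Fo := by
  set q : ℝ := 1 / (2 * E) with hq
  have hE' : (1 : ℝ) ≤ E := by exact_mod_cast hE
  have hD' : (1 : ℝ) ≤ D := by exact_mod_cast hD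
  have hq0 : 0 < q := by positivity
  have hq1 : q ≤ 1 := by rw [hq, div_le_one (by positivity)]; linarith
  have hq4 : 0 < q ^ 4 := by positivity
  have hq5 : q ^ 4 ≤ 1 := pow_le_one₀ hq0.le hq1
  set η : ℝ := min (1 / D) (q ^ 4 / 2) with hη
  have hη0 : 0 < η := lt_min (by positivity) (by positivity)
  have hη2 : η ≤ q ^ 4 / 2 := min_le_right _ _
  have hη1 : η ≤ 1 := by linarith
  have hηD : D * η ≤ 1 := by
    have := mul_le_mul_of_nonneg_left (min_le_left (1 / D : ℝ) (q ^ 4 / 2)) (by linarith : (0 : ℝ) ≤ D)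
    rwa [mul_one_div_cancel (by positivity)] at this
  obtain ⟨N, hN⟩ := poly_exp_small η hη0
  refine ⟨N + 1, fun n hn S Z Fx In h f I x hIn h1 h2 hf h8 hx hi => ?_⟩
  have hN' := hN n (by omega)
  have hn1 : (1 : ℝ) ≤ n := by exact_mod_cast (by omega : 1 ≤ n)
  have : Nonempty (Fin n) := ⟨⟨0, by omega⟩⟩
  have hh : h ≤ n := Nat.le_of_mul_le_mul_left (by omega) hE
  have hh' : (h : ℝ) ≤ n := by exact_mod_cast hh
  set δ := Real.exp (-(η ^ 2 * (n / 4 : ℕ) / 4)) with hδ
  have hδ0 : 0 < δ := Real.exp_pos _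
  have hT : (Fintype.card (Fin n × Bool) : ℝ) = 2 * n := by simp [mul_comm]
  have hcol : ∀ t b, q * Fintype.card (Fin n × Bool) ≤ (col n h t b).card := by
    intro t b
    have c := card_col hh b
    have : n ≤ E * (col n h t b).card := by
      cases t
      · rw [← c.2, mul_add] at h2; omega
      · rwa [c.1]
    have : (n : ℝ) ≤ E * (col n h t b).card := by exact_mod_cast this
    rw [hT, hq, div_mul_eq_mul_div, div_le_iff₀ (by positivity)]
    linarith
  have hj : ∀ i : Fin 3, i ≠ i + 1 := by decide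
  have one := fun (l : Ln n) (hl : l ∉ Z) => rare_lines S (T := Fin n × Bool) (r := 1)
    (by norm_num) Fx f h8 l.1 (fun _ => l.2) (Function.injective_of_subsingleton _)
    (fun _ => S.pt l.1 (l.1 + 1) l.2) (fun _ => S.pt_inj (hj _) _)
    (fun _ b => S.co_pt_fst (hj _) _ b) fun _ => hf l hl
  have r1 := Rare.all fun l : Ln n => Rare.imp hδ0.le fun hl => one l hl
    (fun _ => col n h true true ∪ col n h true false) (h / n) η hη0 hη1 (by positivity)
    ((div_le_one (by linarith)).2 hh') fun _ => by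
      rw [hT, (card_col2 hh).1]; push_cast; field_simp; rfl
  have r2 := Rare.all fun l : Ln n => Rare.imp hδ0.le fun hl => one l hl
    (fun _ => col n h false true ∪ col n h false false) (1 - h / n) η hη0 hη1
    (sub_nonneg.2 ((div_le_one (by linarith)).2 hh')) (sub_le_self _ (by positivity)) fun _ => by
      have : ((col n h false true ∪ col n h false false).card : ℝ) + 2 * h = 2 * n := by
        exact_mod_cast (card_col2 hh).2
      rw [hT, eq_sub_of_add_eq this]; field_simp; rfl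
  have r3 := Rare.all fun p : Ln n × Bool => Rare.imp hδ0.le fun hl => one p.1 hl
    (fun _ => col n h p.2 false) q η hη0 hη1 hq0.le hq1 fun _ => hcol _ _
  have r4 := Rare.all fun p : Fin 3 × Fin n × Fin n => Rare.imp hδ0.le
    fun hp : p.1 ≠ 2 ∧ p.2.1 ≠ p.2.2 ∧ (p.1, p.2.1) ∉ Z ∧ (p.1, p.2.2) ∉ Z =>
    rare_lines S (r := 2) (by norm_num) Fx f h8 p.1 ![p.2.1, p.2.2]
      (inj2 hp.2.1)
      (fun k => S.pt p.1 2 (![p.2.1, p.2.2] k)) (fun _ => S.pt_inj hp.1 _)
      (fun _ b => S.co_pt_fst hp.1 _ b)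
      (fun k => hf _ (by fin_cases k; exacts [hp.2.2.1, hp.2.2.2]))
      ![col n h true false, col n h false false] q η hη0 hη1 hq0.le hq1
      fun k => by fin_cases k <;> exact hcol _ _
  have r5 := Rare.all fun c : Fin 4 → Fin n => Rare.imp hδ0.le
    fun hp : Function.Injective c ∧ ∀ k, (1, c k) ∉ Z =>
    rare_lines S (r := 4) (by norm_num) Fx f h8 1 c hp.1
      ![S.tgt (c 0) (c 1), S.src (c 1), S.src (c 2), S.tgt (c 3) (c 2)]
      (fun k => by
        fin_cases k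
        exacts [S.tgt_inj _ _, S.src_inj _, S.src_inj _, S.tgt_inj _ _])
      (fun k b => by
        fin_cases k
        exacts [S.co1_tgt _ _ _, S.co1_src _ _, S.co1_src _ _, S.co1_tgt _ _ _])
      (fun k => hf _ (hp.2 k))
      ![col n h false false, col n h true false, col n h false false, col n h true false]
      q η hη0 hη1 hq0.le hq1 fun k => by fin_cases k <;> exact hcol _ _
  have r6 := Rare.all fun p : Fin n × Fin n => Rare.imp hδ0.le
    fun hp : n ≤ 4 * (I p.1 p.2).card => rare_pat (I p.1 p.2) (x p.1 p.2)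
      ![col n h true true, col n h false true, col n h true true, col n h false true]
      q η (n / 4) hη0 hη1 hq0.le hq1 (hi _ _) (fun k => by fin_cases k <;> exact hcol _ _)
      (by omega)
  obtain ⟨ω, ⟨⟨⟨⟨w1, w2⟩, w3⟩, w4⟩, w5⟩, w6⟩ :=
    (((((r1.and r2).and r3).and r4).and r5).and r6).exists (by
      refine lt_of_le_of_lt ?_ hN'
      simp only [Fintype.card_prod, Fintype.card_fin, Fintype.card_bool, Fintype.card_fun]
      push_cast
      have a1 : (n : ℝ) ≤ n ^ 4 := le_self_pow₀ hn1 (by norm_num)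
      have a2 : (n : ℝ) ^ 2 ≤ n ^ 4 := pow_le_pow_right₀ hn1 (by norm_num)
      nlinarith [mul_le_mul_of_nonneg_right a1 hδ0.le, mul_le_mul_of_nonneg_right a2 hδ0.le,
        mul_pos (pow_pos (by linarith : (0 : ℝ) < n) 4) hδ0])
  clear r1 r2 r3 r4 r5 r6 one
  let F : Bool → Bool → Finset (Cell n) := fun t b =>
    univ.filter fun y => y ∉ Fx ∧ ω y ∈ col n h t b
  have hF : ∀ t b y, y ∈ F t b ↔ y ∉ Fx ∧ ω y ∈ col n h t b := fun t b y => by simp [F]
  set Q := In ∪ (F true true ∪ F true false) with hQ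
  have hQ' : ∀ y, y ∉ Fx → (y ∈ Q ↔ (ω y).1.val < h) := fun y hy => by
    have : y ∉ In := fun k => hy (hIn k)
    simp only [hQ, mem_union, hF, col, mem_filter, mem_univ, this, hy]
    cases (ω y).2 <;> simp
  have big : ∀ (r m c : ℕ), r ≤ 4 → n ≤ m + r * f → (q ^ r - η) * m ≤ c →
      n / (4 * (2 * E) ^ 4) ≤ c := by
    intro r m c a1 a2 a3
    have a4 : (n : ℝ) ≤ 2 * m := by
      have := Nat.mul_le_mul_right f a1
      exact_mod_cast (by omega : n ≤ 2 * m)
    have a5 : q ^ 4 ≤ q ^ r := pow_le_pow_of_le_one hq0.le hq1 a1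
    have a6 : ((n / (4 * (2 * E) ^ 4) : ℕ) : ℝ) ≤ q ^ 4 * n / 4 := by
      refine Nat.cast_div_le.trans (le_of_eq ?_)
      rw [hq]; push_cast; field_simp
    have a7 : (0 : ℝ) ≤ m := Nat.cast_nonneg _
    have : ((n / (4 * (2 * E) ^ 4) : ℕ) : ℝ) ≤ c := by
      nlinarith [mul_le_mul_of_nonneg_right a5 a7, mul_le_mul_of_nonneg_right hη2 a7,
        mul_le_mul_of_nonneg_left a4 hq4.le]
    exact_mod_cast this
  refine ⟨Q, F true false, F false false, ?_, fun y hy => ?_, ?_, fun l hl => ?_,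
    ⟨fun l hl => ?_, fun i a b hi hab ha hb => ?_,
      fun c₁ c₂ c₃ c₄ a1 a2 a3 a4 a5 a6 b1 b2 b3 b4 => ?_⟩, fun a b hab => ?_⟩
  · ext y
    simp only [hQ, mem_inter, mem_union, hF]
    exact ⟨by tauto, fun k => ⟨Or.inl k, hIn k⟩⟩
  · exact mem_sdiff.2 ⟨mem_union_right _ (mem_union_right _ hy), ((hF _ _ _).1 hy).1⟩
  · refine disjoint_left.2 fun y hy hy' => ?_
    obtain ⟨k1, k2⟩ := (hF _ _ _).1 hy
    rw [mem_union, hQ' y k1] at hy'
    exact hy'.elim (of_decide_eq_false (mem_filter.1 k2).2.1) k1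
  · obtain ⟨m1, a1, a2, a3⟩ := w1 l hl
    obtain ⟨m2, b1, b2, b3⟩ := w2 l hl
    have c1 := a3.trans (Nat.cast_le.2 ((card_le_card (t := univ.filter fun s =>
      S.pt l.1 (l.1 + 1) l.2 s ∈ Q) fun s hs => by
        obtain ⟨k1, k2⟩ := (mem_filter.1 hs).2 0
        refine mem_filter.2 ⟨mem_univ _, (hQ' _ k1).2 ?_⟩
        simp only [col, mem_union, mem_filter, decide_eq_true_eq] at k2
        tauto).trans (cnt_param S _ (S.pt_inj (hj _) _) l (S.co_pt_fst (hj _) _) Q)))
    have c2 := b3.trans (Nat.cast_le.2 ((card_le_card (t := univ.filter fun s =>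
      S.pt l.1 (l.1 + 1) l.2 s ∈ Qᶜ) fun s hs => by
        obtain ⟨k1, k2⟩ := (mem_filter.1 hs).2 0
        refine mem_filter.2 ⟨mem_univ _, mem_compl.2 fun k => ?_⟩
        rw [hQ' _ k1] at k
        simp only [col, mem_union, mem_filter, decide_eq_false_iff_not] at k2
        tauto).trans (cnt_param S _ (S.pt_inj (hj _) _) l (S.co_pt_fst (hj _) _) Qᶜ)))
    have c3 : (S.cnt Q l : ℝ) + S.cnt Qᶜ l = n := by exact_mod_cast S.cnt_add_compl Q l
    have key : ∀ (p : ℝ) (m : ℕ), 0 ≤ p → p ≤ 1 → n ≤ m + 1 * f → m ≤ n →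
        p * n - f - η * n ≤ (p ^ 1 - η) * m := by
      intro p m p0 p1 k1 k2
      have k3 : (n : ℝ) ≤ m + f := by exact_mod_cast (by omega : n ≤ m + f)
      have k4 : (m : ℝ) ≤ n := by exact_mod_cast k2
      have k5 : (0 : ℝ) ≤ f := Nat.cast_nonneg _
      nlinarith [mul_le_mul_of_nonneg_left k3 p0, mul_le_mul_of_nonneg_left k4 hη0.le,
        mul_le_mul_of_nonneg_right p1 k5]
    have d1 := (key _ _ (by positivity) ((div_le_one (by linarith)).2 hh') a1 a2).trans c1
    have d2 := (key _ _ (sub_nonneg.2 ((div_le_one (by linarith)).2 hh'))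
      (sub_le_self _ (by positivity)) b1 b2).trans c2
    rw [sub_mul, div_mul_cancel₀ _ (by linarith)] at d2
    rw [div_mul_cancel₀ _ (by linarith)] at d1
    have d3 : |(S.cnt Q l : ℝ) - h| ≤ f + η * n := abs_le.2 ⟨by linarith, by linarith⟩
    have d4 : (D : ℝ) * ((S.cnt Q l : ℤ) - h).natAbs ≤ n + D * f := by
      rw [Nat.cast_natAbs]
      push_cast
      nlinarith [mul_le_mul_of_nonneg_left d3 (by linarith : (0 : ℝ) ≤ D),
        mul_le_mul_of_nonneg_right hηD (by linarith : (0 : ℝ) ≤ n)]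
    exact_mod_cast d4
  · have k : ∀ t, n / (4 * (2 * E) ^ 4) ≤ S.cnt (F t false) l := fun t => by
      obtain ⟨m, a1, -, a3⟩ := w3 (l, t) hl
      refine (big _ _ _ (by norm_num) a1 a3).trans ((card_le_card fun s hs => ?_).trans
        (cnt_param S _ (S.pt_inj (hj _) _) l (S.co_pt_fst (hj _) _) _))
      exact mem_filter.2 ⟨mem_univ _, (hF _ _ _).2 ((mem_filter.1 hs).2 0)⟩
    exact ⟨k _, k _⟩
  · obtain ⟨m, a1, -, a3⟩ := w4 (i, a, b) ⟨hi, hab, ha, hb⟩
    refine (big _ _ _ (by norm_num) a1 a3).trans (card_le_card fun s hs => ?_)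
    have k := (mem_filter.1 hs).2
    exact mem_filter.2 ⟨mem_univ _, (hF _ _ _).2 (k 0), (hF _ _ _).2 (k 1)⟩
  · obtain ⟨m, c1, -, c3⟩ := w5 ![c₁, c₂, c₃, c₄] ⟨inj4 a1 a2 a3 a4 a5 a6, fun k => by
      fin_cases k
      exacts [b1, b2, b3, b4]⟩
    refine (big _ _ _ (by norm_num) c1 c3).trans (card_le_card fun s hs => ?_)
    have k := (mem_filter.1 hs).2
    exact mem_filter.2 ⟨mem_univ _, (hF _ _ _).2 (k 1), (hF _ _ _).2 (k 0), (hF _ _ _).2 (k 2),
      (hF _ _ _).2 (k 3)⟩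
  · have a1 : (0 : ℝ) < (I a b).card := by exact_mod_cast (by omega : 0 < (I a b).card)
    obtain ⟨s, hs⟩ := card_pos.1 (Nat.cast_pos.1 (lt_of_lt_of_le
      (mul_pos (by linarith) a1) (w6 (a, b) hab)))
    obtain ⟨hs, k⟩ := mem_filter.1 hs
    have k0 : ω (x a b 0 s) ∈ col n h true true := k 0
    have k1 : ω (x a b 1 s) ∈ col n h false true := k 1
    have k2 : ω (x a b 2 s) ∈ col n h true true := k 2
    have k3 : ω (x a b 3 s) ∈ col n h false true := k 3
    simp only [col, mem_filter, mem_univ, true_and, decide_eq_true_eq,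
      decide_eq_false_iff_not] at k0 k1 k2 k3
    refine ⟨s, hs, (hQ' _ (hx a b _ s hs)).2 k0.1, fun e => k1.1 ((hQ' _ (hx a b _ s hs)).1 e),
      (hQ' _ (hx a b _ s hs)).2 k2.1, fun e => k3.1 ((hQ' _ (hx a b _ s hs)).1 e), fun j e => ?_⟩
    have e1 : (ω (x a b j s)).2 = true := by
      fin_cases j
      exacts [k0.2, k1.2, k2.2, k3.2]
    simp [hF, col, e1] at e

end PlexX
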