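import Pool.Agent.Lib.MP_3d3eb4_co.PX.Move
import Pool.Agent.Lib.MP_3d3eb4_co.PX.Pseudo

/-! Reduction of the discrepancy to a single pair of rows. -/

namespace PlexX

open Finset

/-- the invariant of the correction process -/
structure Sq.Inv {n : ℕ} (S : Sq n) (Z : Finset (Ln n)) (Q₀ Fi Fo : Finset (Cell n))
    (h cap M : ℕ) (Q Ch : Finset (Cell n)) : Prop where
  add : Q \ Q₀ ⊆ Fo ∩ Ch
  rem : Q₀ \ Q ⊆ Fi ∩ Ch
  load : ∀ l, S.cnt Ch l + ((S.cnt Q l : ℤ) - h).natAbs ≤ cap + 16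
  total : ∑ l, (S.cnt Ch l + ((S.cnt Q l : ℤ) - h).natAbs) +
    48 * pot (S.deg Q - fun _ => (h : ℤ)) ≤ M
  dead : ∀ z ∈ Z, S.cnt Q z = h

theorem Sq.cnt_eq_zero_of_off {n : ℕ} (S : Sq n) {Z : Finset (Ln n)} {g : Finset (Cell n)}
    (hg : ∀ x ∈ g, S.Off Z x) {z : Ln n} (hz : z ∈ Z) : S.cnt g z = 0 := by
  refine card_eq_zero.2 (filter_eq_empty_iff.2 fun x hx hxz => hg x hx z.1 ?_)
  rw [hxz]
  exact hz

theorem Sq.Inv.step {n : ℕ} {S : Sq n} {Z : Finset (Ln n)} {Q₀ Fi Fo : Finset (Cell n)}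
    {h c cap y M : ℕ} (hn : 0 < n) (hFi : Fi ⊆ Q₀) (hFo : Disjoint Fo Q₀) (hR : S.Rich Z Fi Fo c)
    (hoff : ∀ x ∈ Fi ∪ Fo, S.Off Z x) (hcap0 : 0 < cap) (hy : M ≤ cap * y)
    (hc : 8 * (cap + 16 + y) + 8 < c) {Q Ch : Finset (Cell n)}
    (H : S.Inv Z Q₀ Fi Fo h cap M Q Ch)
    (hne : ¬ ∃ a a', (S.deg Q - fun _ => (h : ℤ)) = pv a a') :
    ∃ Q' Ch', S.Inv Z Q₀ Fi Fo h cap M Q' Ch' ∧
      pot (S.deg Q' - fun _ => (h : ℤ)) < pot (S.deg Q - fun _ => (h : ℤ)) := by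
  set D : Ln n → ℤ := S.deg Q - fun _ => (h : ℤ) with hD
  have hDl : ∀ l, D l = (S.cnt Q l : ℤ) - h := fun l => by
    rw [hD, Pi.sub_apply, S.deg_apply]
  let ψ : Ln n → ℕ := fun l => S.cnt Ch l + ((S.cnt Q l : ℤ) - h).natAbs
  let Hv : Finset (Ln n) := univ.filter fun l => cap ≤ ψ l
  have hHv : Hv.card ≤ y := by
    have h1 : Hv.card * cap ≤ ∑ l, ψ l :=
      calc _ = ∑ _l ∈ Hv, cap := by simp
        _ ≤ ∑ l ∈ Hv, ψ l := sum_le_sum fun l hl => (mem_filter.1 hl).2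
        _ ≤ _ := sum_le_sum_of_subset (filter_subset _ _)
    have h2 : ∑ l, ψ l ≤ M := le_trans (Nat.le_add_right _ _) H.total
    refine Nat.le_of_mul_le_mul_right (c := cap) ?_ hcap0
    rw [mul_comm y]
    omega
  have hs : ∀ i, ∑ a, D (i, a) = Q.card - n * h := fun i => by
    simp only [hDl, sum_sub_distrib, ← Nat.cast_sum, S.sum_cnt_type]
    simp
  obtain ⟨gp, gm, p1, p2, p3, p4, p5⟩ := S.exists_move hn Z Fi Fo Ch Hv c (cap + 16) y D hR hc hoff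
    (fun z hz => by rw [hDl, H.dead z hz, sub_self]) (fun i j => by rw [hs, hs]) hHv
    (fun l => le_trans (Nat.le_add_right _ _) (H.load l)) hne
  have q1 : gp ⊆ Q := fun x hx => by
    obtain ⟨a1, a2⟩ := mem_sdiff.1 (p1 hx)
    by_contra a3
    exact a2 (mem_inter.1 (H.rem (mem_sdiff.2 ⟨hFi a1, a3⟩))).2
  have q2 : Disjoint (Q \ gp) gm := disjoint_right.2 fun x hx hx' => by
    obtain ⟨a1, a2⟩ := mem_sdiff.1 (p2 hx)
    exact a2 (mem_inter.1 (H.add (mem_sdiff.2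
      ⟨(mem_sdiff.1 hx').1, disjoint_left.1 hFo a1⟩))).2
  have q3 : S.deg (Q \ gp ∪ gm) = S.deg Q - S.deg gp + S.deg gm := by
    rw [S.deg_union q2, S.deg_sdiff q1]
  have q4 : (S.deg (Q \ gp ∪ gm) - fun _ => (h : ℤ)) = D - S.deg gp + S.deg gm := by
    rw [q3, hD]
    abel
  have q5 : ∀ l, (S.cnt (Q \ gp ∪ gm) l : ℤ) = S.cnt Q l - S.cnt gp l + S.cnt gm l := fun l => by
    have := congrFun q3 l
    simpa only [Pi.add_apply, Pi.sub_apply, S.deg_apply] using this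
  have q6 : ∀ l, S.cnt (Ch ∪ gp ∪ gm) l ≤ S.cnt Ch l + S.cnt gp l + S.cnt gm l := fun l =>
    (S.cnt_union_le _ _ l).trans (Nat.add_le_add_right (S.cnt_union_le _ _ l) _)
  have q7 : ∀ l, S.cnt (Ch ∪ gp ∪ gm) l + ((S.cnt (Q \ gp ∪ gm) l : ℤ) - h).natAbs ≤
      ψ l + 2 * (S.cnt gp l + S.cnt gm l) := fun l => by
    have := q6 l
    simp only [ψ, q5]
    omega
  refine ⟨Q \ gp ∪ gm, Ch ∪ gp ∪ gm, ⟨fun x hx => ?_, fun x hx => ?_, fun l => ?_, ?_,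
    fun z hz => ?_⟩, by rwa [q4]⟩
  · obtain ⟨a1, a2⟩ := mem_sdiff.1 hx
    rcases mem_union.1 a1 with a3 | a3
    · have := mem_inter.1 (H.add (mem_sdiff.2 ⟨(mem_sdiff.1 a3).1, a2⟩))
      exact mem_inter.2 ⟨this.1, mem_union_left _ (mem_union_left _ this.2)⟩
    · exact mem_inter.2 ⟨(mem_sdiff.1 (p2 a3)).1, mem_union_right _ a3⟩
  · obtain ⟨a1, a2⟩ := mem_sdiff.1 hx
    by_cases a3 : x ∈ gp
    · exact mem_inter.2 ⟨(mem_sdiff.1 (p1 a3)).1, mem_union_left _ (mem_union_right _ a3)⟩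
    · have := mem_inter.1 (H.rem (mem_sdiff.2
        ⟨a1, fun a4 => a2 (mem_union_left _ (mem_sdiff.2 ⟨a4, a3⟩))⟩))
      exact mem_inter.2 ⟨this.1, mem_union_left _ (mem_union_left _ this.2)⟩
  · by_cases hl : l ∈ Hv
    · obtain ⟨a1, a2⟩ := p4 l hl
      have a3 := q6 l
      have a4 := H.load l
      rw [hDl] at a1 a2
      rw [q5]
      omega
    · have a1 : ψ l < cap := by simpa [Hv] using hl
      have a2 := q7 l
      have a3 := S.cnt_le_card gp l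
      have a4 := S.cnt_le_card gm l
      omega
  · have a1 := sum_le_sum fun l (_ : l ∈ univ) => q7 l
    rw [sum_add_distrib (f := ψ), ← mul_sum, sum_add_distrib (f := fun l => S.cnt gp l),
      S.sum_cnt, S.sum_cnt] at a1
    have a2 := H.total
    rw [q4]
    change ∑ l, ψ l + 48 * pot D ≤ M at a2
    omega
  · have a1 := S.cnt_eq_zero_of_off
      (fun x hx => hoff x (mem_union_left _ (mem_sdiff.1 (p1 hx)).1)) hz
    have a2 := S.cnt_eq_zero_of_off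
      (fun x hx => hoff x (mem_union_right _ (mem_sdiff.1 (p2 hx)).1)) hz
    have a3 := q5 z
    have a4 := H.dead z hz
    omega

theorem Sq.process {n : ℕ} (hn : 0 < n) (S : Sq n) (Z : Finset (Ln n))
    (Q₀ Fi Fo : Finset (Cell n)) (h c d cap y : ℕ) (hFi : Fi ⊆ Q₀) (hFo : Disjoint Fo Q₀)
    (hR : S.Rich Z Fi Fo c) (hoff : ∀ x ∈ Fi ∪ Fo, S.Off Z x) (hZ : ∀ z ∈ Z, S.cnt Q₀ z = h)
    (hd : ∀ l, ((S.cnt Q₀ l : ℤ) - h).natAbs ≤ d) (hcap : d ≤ cap) (hcap0 : 0 < cap)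
    (hy : 400 * d * n ≤ cap * y) (hc : 8 * (cap + 16 + y) + 8 < c) :
    ∃ (Q : Finset (Cell n)) (a b : Fin n), Q \ Q₀ ⊆ Fo ∧ Q₀ \ Q ⊆ Fi ∧
      S.deg Q = (fun _ => (h : ℤ)) + pv a b := by
  have key : ∀ (k : ℕ) (Q Ch : Finset (Cell n)), S.Inv Z Q₀ Fi Fo h cap (400 * d * n) Q Ch →
      pot (S.deg Q - fun _ => (h : ℤ)) = k → ∃ (Q : Finset (Cell n)) (a b : Fin n),
        Q \ Q₀ ⊆ Fo ∧ Q₀ \ Q ⊆ Fi ∧ S.deg Q = (fun _ => (h : ℤ)) + pv a b := fun k => by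
    induction k using Nat.strong_induction_on with
    | _ k ih =>
      intro Q Ch H hk
      by_cases hne : ∃ a a', (S.deg Q - fun _ => (h : ℤ)) = pv a a'
      · obtain ⟨a, b, hab⟩ := hne
        exact ⟨Q, a, b, H.add.trans inter_subset_left, H.rem.trans inter_subset_left,
          by rw [← hab, add_sub_cancel]⟩
      · obtain ⟨Q', Ch', H', hlt⟩ := H.step hn hFi hFo hR hoff hcap0 hy hc hne
        exact ih _ (hk ▸ hlt) Q' Ch' H' rfl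
  have h0 : ∀ l, S.cnt ∅ l = 0 := fun l => by simp [Sq.cnt]
  refine key _ Q₀ ∅ ⟨by simp, by simp, fun l => ?_, ?_, hZ⟩ rfl
  · have := hd l
    rw [h0]
    omega
  · have a1 : ∑ l, (S.cnt ∅ l + ((S.cnt Q₀ l : ℤ) - h).natAbs) ≤ ∑ _l : Ln n, d :=
      sum_le_sum fun l _ => by rw [h0, zero_add]; exact hd l
    have a2 : pot (S.deg Q₀ - fun _ => (h : ℤ)) ≤ ∑ l : Ln n, 2 ^ l.1.val * d :=
      sum_le_sum fun l _ => Nat.mul_le_mul_left _ (by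
        rw [Pi.sub_apply, S.deg_apply]
        exact hd l)
    have a3 : ∑ l : Ln n, 2 ^ l.1.val * d = 7 * (d * n) := by
      rw [Fintype.sum_prod_type]
      simp [Fin.sum_univ_three]
      ring
    have a4 : ∑ _l : Ln n, d = 3 * (d * n) := by
      simp
      ring
    rw [mul_assoc]
    omega

theorem online (E : ℕ) (hE : 0 < E) : ∃ J N : ℕ, ∀ n : ℕ, N ≤ n → ∀ (S : Sq n)
    (Z : Finset (Ln n)) (Fx In : Finset (Cell n)) (h : ℕ)
    (I : Fin n → Fin n → Finset (Fin n)) (x : Fin n → Fin n → Fin 4 → Fin n → Cell n),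
    In ⊆ Fx → n ≤ E * h → n + E * h ≤ E * n → (∀ x, x ∉ Fx → S.Off Z x) →
    (∀ z ∈ Z, S.cnt In z = h) → (∀ l, l ∉ Z → J * S.cnt Fx l ≤ n) →
    (∀ a b k, ∀ s ∈ I a b, x a b k s ∉ Fx) →
    (∀ a b, Set.InjOn (fun p : Fin 4 × Fin n => x a b p.1 p.2) {p | p.2 ∈ I a b}) →
    ∃ (Q : Finset (Cell n)) (a b : Fin n), Q ∩ Fx = In ∧ S.deg Q = (fun _ => (h : ℤ)) + pv a b ∧
      (n ≤ 4 * (I a b).card → ∃ s ∈ I a b, x a b 0 s ∈ Q ∧ x a b 1 s ∉ Q ∧ x a b 2 s ∈ Q ∧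
        x a b 3 s ∉ Q) := by
  obtain ⟨B, hB⟩ : ∃ B, B = 4 * (2 * E) ^ 4 := ⟨_, rfl⟩
  have hB0 : 0 < B := by rw [hB]; positivity
  obtain ⟨J, hJ⟩ : ∃ J, J = 800 * (80 * B) ^ 2 := ⟨_, rfl⟩
  have hJ0 : 0 < J := by rw [hJ]; positivity
  have hJ1 : 160 * B ≤ J := by rw [hJ]; nlinarith
  obtain ⟨N, hN⟩ := pseudo E J hE hJ0
  refine ⟨J, max N (240 * B), fun n hn S Z Fx In h I x h1 h2 h3 h4 h5 h6 h7 h8 => ?_⟩
  have hn1 : 240 * B ≤ n := (le_max_right _ _).trans hn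
  have f1 : J * (n / J) ≤ n := Nat.mul_div_le n J
  obtain ⟨Q₀, Fi, Fo, p1, p2, p3, p4, p5, p6⟩ := hN n ((le_max_left _ _).trans hn) S Z Fx In h
    (n / J) I x h1 h2 h3
    (fun l hl => (Nat.le_div_iff_mul_le hJ0).2 (by rw [mul_comm]; exact h6 l hl))
    (le_trans (Nat.mul_le_mul_right _ (by omega)) f1) h7 h8
  rw [← hB] at p5
  have hi : ∀ x ∈ Fi, x ∉ Fx := fun x hx => (mem_sdiff.1 (p2 hx)).2
  have ho : ∀ x ∈ Fo, x ∉ Fx := fun x hx hx' => disjoint_left.1 p3 hx (mem_union_right _ hx')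
  have hZ : ∀ z ∈ Z, S.cnt Q₀ z = h := fun z hz => by
    rw [← h5 z hz, ← p1]
    refine congrArg card ?_
    ext y
    simp only [mem_filter, mem_inter]
    refine ⟨fun hy => ⟨⟨hy.1, by_contra fun a => h4 y a z.1 ?_⟩, hy.2⟩, fun hy => ⟨hy.1.1, hy.2⟩⟩
    rw [hy.2]
    exact hz
  obtain ⟨cap, hcap⟩ : ∃ cap, cap = n / (40 * B) := ⟨_, rfl⟩
  have c1 : 40 * B * cap ≤ n := hcap ▸ Nat.mul_div_le n _
  have c2 : 6 ≤ cap := hcap ▸ (Nat.le_div_iff_mul_le (by omega)).2 (by omega)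
  have c3 : n ≤ 80 * B * cap := by
    have : n < 40 * B * (cap + 1) := hcap ▸ Nat.lt_mul_div_succ n (by omega)
    nlinarith
  have c4 : 40 * cap ≤ n / B := (Nat.le_div_iff_mul_le hB0).2 (by nlinarith)
  obtain ⟨d, hd⟩ : ∃ d, d = 2 * n / J := ⟨_, rfl⟩
  have d1 : J * d ≤ 2 * n := hd ▸ Nat.mul_div_le _ J
  obtain ⟨Q, a, b, q1, q2, q3⟩ := S.process (by omega) Z Q₀ Fi Fo h (n / B) d cap cap
    (p2.trans sdiff_subset) (p3.mono_right subset_union_left) p5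
    (fun x hx => h4 x ((mem_union.1 hx).elim (hi x) (ho x))) hZ
    (fun l => by
      by_cases hl : l ∈ Z
      · simp [hZ l hl]
      · rw [hd]
        refine (Nat.le_div_iff_mul_le hJ0).2 ?_
        have := p4 l hl
        rw [mul_comm]
        omega)
    (Nat.le_of_mul_le_mul_left (d1.trans (by nlinarith)) hJ0) (by omega)
    (Nat.le_of_mul_le_mul_left (c := J) (by
      calc J * (400 * d * n) = 400 * n * (J * d) := by ring
        _ ≤ 400 * n * (2 * n) := Nat.mul_le_mul_left _ d1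
        _ = 800 * (n * n) := by ring
        _ ≤ 800 * (80 * B * cap * (80 * B * cap)) := Nat.mul_le_mul_left _ (Nat.mul_le_mul c3 c3)
        _ = J * (cap * cap) := by rw [hJ]; ring) hJ0) (by omega)
  have keep : ∀ y, y ∉ Fi ∪ Fo → (y ∈ Q ↔ y ∈ Q₀) := fun y hy =>
    ⟨fun a1 => by_contra fun a2 => hy (mem_union_right _ (q1 (mem_sdiff.2 ⟨a1, a2⟩))),
      fun a1 => by_contra fun a2 => hy (mem_union_left _ (q2 (mem_sdiff.2 ⟨a1, a2⟩)))⟩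
  refine ⟨Q, a, b, ?_, q3, fun hI => ?_⟩
  · rw [← p1]
    ext y
    simp only [mem_inter]
    refine and_congr_left fun hy => keep y fun a1 => ?_
    exact (mem_union.1 a1).elim (hi y) (ho y) hy
  · obtain ⟨s, r0, r1, r2, r3, r4, r5⟩ := p6 a b hI
    exact ⟨s, r0, (keep _ (r5 0)).2 r1, fun a1 => r2 ((keep _ (r5 1)).1 a1), (keep _ (r5 2)).2 r3,
      fun a1 => r4 ((keep _ (r5 3)).1 a1)⟩

end PlexX
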