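import Pool.Agent.Lib.MP_3d3eb4_co.PX.Stab
import Pool.Agent.Lib.MP_3d3eb4_co.PX.Absorb
import Pool.Agent.Lib.MP_3d3eb4_co.PX.Goal
import Pool.Agent.Lib.MP_3d3eb4_co.PX.Online
import Pool.Agent.Lib.MP_3d3eb4_co.PX.Asym
import Pool.Agent.Lib.MP_3d3eb4_co.PX.Assemble

/-! Every plex of order at least `n - 2` contains a plex of medium order. -/

namespace PlexX

open Finset

theorem card_le_of {c n u e : ℕ} (h : c * (n - 3 * u) ≤ n ^ 2) (h1 : 6 * u ≤ e) (h2 : 6 * u < n) :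
    c ≤ n + e := by
  obtain ⟨r, rfl⟩ : ∃ r, n = r + 3 * u := ⟨n - 3 * u, by omega⟩
  rw [Nat.add_sub_cancel] at h
  by_contra k
  have k1 : (r + 3 * u + e + 1) * r ≤ c * r := Nat.mul_le_mul_right _ (by omega)
  have k2 : 6 * u * r ≤ e * r := Nat.mul_le_mul_right _ h1
  have k3 : 3 * u * (3 * u) ≤ 3 * u * r := Nat.mul_le_mul_left _ (by omega)
  nlinarith

theorem pow_lt_of {X n : ℕ} (hn : 1 < n) (hX : X ^ 4 ≤ n ^ 3) : X ^ 9 * n ^ 2 < n ^ 9 :=
  lt_of_pow_lt_pow_left₀ 4 (Nat.zero_le _) (by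
    calc (X ^ 9 * n ^ 2) ^ 4 = (X ^ 4) ^ 9 * n ^ 8 := by ring
      _ ≤ (n ^ 3) ^ 9 * n ^ 8 := Nat.mul_le_mul_right _ (Nat.pow_le_pow_left hX 9)
      _ = n ^ 35 := by ring
      _ < n ^ 36 := Nat.pow_lt_pow_right hn (by norm_num)
      _ = _ := by ring)

/-- the scales: `m` = load cap, `y` = number of heavy lines, `B` = common bound -/
theorem scales (C J : ℕ) : ∃ N : ℕ, ∀ n : ℕ, N ≤ n → ∃ m y L B : ℕ, 0 < m ∧ 3000 * n ≤ m * y ∧
    2 * n < 2 ^ L ∧ (L + 1) * (m + 9 * y + y) ≤ B ∧ L * (m + 9 * y + y) ≤ B ∧ m + 10 * y ≤ B ∧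
    1000000 * B ≤ n ∧ 100 * (C * B) ≤ n ∧ 100 * (J * B) ≤ n ∧
    10000 * (L * (9 * y + y)) ^ 2 ≤ n ∧ ∀ X, X ≤ 100 * B → X ^ 9 * n ^ 2 < n ^ 9 := by
  obtain ⟨K, hK⟩ : ∃ K : ℕ, K = 10000000000000 * (C + J + 1) := ⟨_, rfl⟩
  obtain ⟨N, has⟩ := asym K
  refine ⟨N + 2, fun n hn => ?_⟩
  obtain ⟨t, L, ht, hnt, hL, hB⟩ := has n (by omega)
  obtain ⟨B, hB'⟩ : ∃ B, B = t ^ 2 * (L + 1) ^ 2 := ⟨_, rfl⟩
  rw [← hB'] at hB
  have hB1 : K * B ≤ n := le_of_pow_le_pow_left₀ (n := 4) (by norm_num) (Nat.zero_le _)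
    (hB.trans (Nat.pow_le_pow_right (by omega) (by norm_num)))
  have t1 : t ≤ t ^ 2 := Nat.le_self_pow (by norm_num) t
  have l1 : L + 1 ≤ (L + 1) ^ 2 := Nat.le_self_pow (by norm_num) _
  have b1 : (L + 1) * t ^ 2 ≤ B := by rw [hB', mul_comm]; exact Nat.mul_le_mul_left _ l1
  have b3 : (L + 1) * (t ^ 2 + 9 * (3000 * t) + 3000 * t) ≤ 30001 * B :=
    calc _ ≤ (L + 1) * (30001 * t ^ 2) := Nat.mul_le_mul_left _ (by linarith only [t1])
      _ = 30001 * ((L + 1) * t ^ 2) := by ring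
      _ ≤ _ := Nat.mul_le_mul_left _ b1
  have b4 : 10000000000000 * B + 10000000000000 * (C * B) + 10000000000000 * (J * B) ≤ n := by
    refine le_trans (le_of_eq ?_) hB1
    rw [hK]
    ring
  have p1 := Nat.zero_le B
  have p2 := Nat.zero_le (C * B)
  have p3 := Nat.zero_le (J * B)
  refine ⟨t ^ 2, 3000 * t, L, 30001 * B, by positivity, ?_, hL, b3,
    le_trans (Nat.mul_le_mul_right _ (Nat.le_succ L)) b3, ?_, by linarith only [b4, p1, p2, p3],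
    by linarith only [b4, p1, p2, p3], by linarith only [b4, p1, p2, p3], ?_, fun X hX => ?_⟩
  · calc _ ≤ 3000 * t ^ 3 := Nat.mul_le_mul_left _ hnt
      _ = _ := by ring
  · refine le_trans (le_trans (le_of_eq ?_) (Nat.le_mul_of_pos_left _ (Nat.succ_pos L))) b3
    ring
  · have : (L * (9 * (3000 * t) + 3000 * t)) ^ 2 ≤ 900000000 * B :=
      calc _ ≤ ((L + 1) * (30000 * t)) ^ 2 := Nat.pow_le_pow_left
            (Nat.mul_le_mul (Nat.le_succ L) (le_of_eq (by ring))) 2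
        _ = _ := by rw [hB']; ring
    linarith only [this, b4, p1, p2, p3]
  · refine pow_lt_of (by omega) (le_trans (Nat.pow_le_pow_left (hX.trans ?_) 4) hB)
    rw [hK]
    linarith only [p1, p2, p3]

theorem main : ∃ N : ℕ, ∀ n : ℕ, N ≤ n → ∀ (S : Sq n) (P : Finset (Cell n)) (k : ℕ),
    (∀ l, S.cnt P l = k) → n ≤ k + 2 →
    ∃ h : ℕ, 0 < h ∧ h + 2 < n ∧ ∃ Q ⊆ P, ∀ l, S.cnt Q l = h := by
  classical
  obtain ⟨J, N₁, hon⟩ := online 20000 (by norm_num)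
  obtain ⟨C, hab⟩ := absorber (2 * J + 40000)
  obtain ⟨N₂, has⟩ := scales C J
  refine ⟨N₁ + N₂ + 100000, fun n hn S P k hP hk => ?_⟩
  obtain ⟨m, y, L, B, hm, hmy, hL, b1, b2, b3, b4, b5, b6, b7, b8⟩ := has n (by omega)
  have hP2 : S.Sparse P ∅ 2 := ⟨by simp, fun x _ i => by simp, fun l _ => by
    have := S.cnt_add_compl P l
    rw [hP l] at this
    omega⟩
  obtain ⟨A, Z, u, hAP, hu, hZ, hS, hSt⟩ := S.exists_stable P (1000 * n) (9 * y) m y L hP2 hm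
    (by omega) hL (by omega)
  have hu1 : u ≤ 3 * B := by omega
  have hn2 : 100 * u + 1000 ≤ n := by omega
  have hZ2 := Nat.pow_le_pow_left hZ 2
  obtain ⟨lab, l0, lr, ll⟩ := S.exists_lab hS hn2
  have := S.grp_finite hS hn2
  let _ : Fintype (S.grp A Z) := Fintype.ofFinite _
  have hc := S.grp_card hS hn2
  rw [Nat.card_eq_fintype_card] at hc
  have hG := exists_goal S P A Z lab k u (n / 10000) hAP hP hk hS (by omega) (by omega) (by omega)
    (card_le_of hc (by omega) (by omega)) l0 lr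
  obtain ⟨Z', Rs, In, z1, z2, r1, r2, r3, r4⟩ := hab n S A Z u m y hS hSt hm (by omega)
    (le_trans (Nat.mul_le_mul_left C (show _ ≤ 100 * B by omega)) (by rw [mul_left_comm]; exact b5))
    (b8 _ (by omega))
  refine S.assemble (J := J) hAP hS l0 ll hG z1 r1 r2 (fun l => ?_) (fun l => ?_) (by omega)
    (by omega) r4 (hon n (by omega) S)
  · have := r3 l
    rw [add_mul] at this
    omega
  · have a1 := r3 l
    have a2 : J * (u + Z'.card) ≤ J * (10 * B) := Nat.mul_le_mul_left _ (by omega)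
    rw [add_mul, mul_assoc] at a1
    rw [mul_left_comm] at a2
    rw [add_right_comm, mul_add]
    omega

end PlexX
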