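import Pool.Agent.Lib.MP_3d3eb4_co.Defs
import Pool.Agent.Lib.MP_3d3eb4_co.PX.Main

/-! Transfer to latin squares given as arrays. -/

namespace PlexX

open Finset Pool.Agent.Lib.MP_3d3eb4_co

variable {n : ℕ} {L : Fin n → Fin n → Fin n}

/-- the three coordinates of a cell -/
def coord (L : Fin n → Fin n → Fin n) : Fin 3 → Cell n → Fin n :=
  ![Prod.fst, Prod.snd, fun p => L p.1 p.2]

theorem coord_inj (hL : IsLatinSquare L) (i j : Fin 3) (h : i ≠ j) :
    Function.Injective fun x => (coord L i x, coord L j x) := by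
  have h01 : ∀ x y : Cell n, x.1 = y.1 → x.2 = y.2 → x = y := fun x y => Prod.ext
  have h02 : ∀ x y : Cell n, x.1 = y.1 → L x.1 x.2 = L y.1 y.2 → x = y := fun x y a b =>
    Prod.ext a ((hL.1 x.1).1 (by simpa [a] using b))
  have h12 : ∀ x y : Cell n, x.2 = y.2 → L x.1 x.2 = L y.1 y.2 → x = y := fun x y a b =>
    Prod.ext ((hL.2 x.2).1 (by simpa [a] using b)) a
  intro x y e
  obtain ⟨a, b⟩ := Prod.mk.inj e
  fin_cases i <;> fin_cases j <;>
    first
    | exact absurd rfl h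
    | exact h01 x y a b
    | exact h01 x y b a
    | exact h02 x y a b
    | exact h02 x y b a
    | exact h12 x y a b
    | exact h12 x y b a

/-- the symmetric form of a latin square -/
def sqOf (hL : IsLatinSquare L) : Sq n :=
  ⟨coord L, fun i j h => Finite.injective_iff_bijective.1 (coord_inj hL i j h)⟩

theorem isPlex_iff (hL : IsLatinSquare L) (k : ℕ) (P : Finset (Cell n)) :
    IsPlex L k P ↔ ∀ l, (sqOf hL).cnt P l = k := by
  refine ⟨fun ⟨_, h1, h2, h3⟩ ⟨i, a⟩ => ?_, fun h => ⟨?_, fun a => h (0, a), fun a => h (1, a),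
    fun a => h (2, a)⟩⟩
  · fin_cases i
    exacts [h1 a, h2 a, h3 a]
  · rw [← (sqOf hL).sum_cnt_type P 0]
    simp [h]

theorem nearFull : ∃ N : ℕ, ∀ n : ℕ, N ≤ n → ∀ k : ℕ, n ≤ k + 2 →
    ¬ ∃ (L : Fin n → Fin n → Fin n) (P : Finset (Fin n × Fin n)),
      IsLatinSquare L ∧ IsIndivisiblePlex L k P := by
  obtain ⟨N, hN⟩ := main
  refine ⟨N, fun n hn k hk ⟨L, P, hL, hP, hI⟩ => ?_⟩
  obtain ⟨h, h1, h2, Q, h3, h4⟩ := hN n hn (sqOf hL) P k ((isPlex_iff hL k P).1 hP) hk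
  exact hI h h1 (by omega) Q h3 ((isPlex_iff hL h Q).2 h4)

end PlexX
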