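import Pool.Agent.Lib.MP_3d3eb4_co.PX.Step
import Pool.Agent.Lib.MP_3d3eb4_co.NAG

/-! Induction over the steps through pairs of rows whose vector lies in the lattice. -/

namespace PlexX

open Finset Pool.Agent.Lib.MP_3d3eb4_co.NE

namespace Sq

variable {n : ℕ} (S : Sq n) {A : Finset (Cell n)} {Z : Finset (Ln n)} {u : ℕ}

theorem conn_rep {s : ℕ} {Cs : Finset (Fin n)} {v : Ln n → ℤ} (h : S.Gad A s Cs v) :
    ∃ X ⊆ A, X.card ≤ s ∧ (∀ x ∈ X, S.co 1 x ∈ Cs) ∧ Rep S.vec X v := by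
  obtain ⟨gp, gm, h1, h2, h3, h4, h5, h6⟩ := h
  refine ⟨gp ∪ gm, union_subset h1 h2, (card_union_le _ _).trans h3,
    fun x hx => (mem_union.1 hx).elim (h4 x) (h5 x),
    fun x => (if x ∈ gp then 1 else 0) - (if x ∈ gm then 1 else 0), fun x => ?_, fun x hx => ?_, ?_⟩
  · dsimp only
    split_ifs <;> simp
  · rw [mem_union, not_or] at hx
    simp [hx.1, hx.2]
  · rw [← h6]
    simp only [sub_smul, sum_sub_distrib, ite_smul, one_smul, zero_smul, sum_ite_mem, univ_inter,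
      deg]

theorem conn_gad {t : ℕ} {X : Finset (Cell n)} {v : Ln n → ℤ} (hX : X ⊆ A) (ht : X.card ≤ t)
    (h : Rep S.vec X v) : S.Gad0 A t v := by
  obtain ⟨c, h1, h2, h3⟩ := h
  refine ⟨X.filter fun x => c x = 1, X.filter fun x => c x = -1, (filter_subset _ _).trans hX,
    (filter_subset _ _).trans hX, ?_, fun _ _ => mem_univ _, fun _ _ => mem_univ _, ?_⟩
  · rw [← card_union_of_disjoint]
    · exact (card_le_card (union_subset (filter_subset _ _) (filter_subset _ _))).trans ht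
    · exact disjoint_filter.2 fun x _ k k' => by omega
  · rw [← h3, deg, deg, sum_filter, sum_filter, ← sum_sub_distrib,
      ← sum_subset (subset_univ X) fun x _ hx => by rw [h2 x hx, zero_smul]]
    refine sum_congr rfl fun x _ => ?_
    have := abs_le.1 (h1 x)
    have k : c x = 1 ∨ c x = 0 ∨ c x = -1 := by omega
    rcases k with k | k | k <;> simp [k]

theorem conn_live (hS : S.Sparse A Z u) (hn : 100 * u + 1000 ≤ n) (i : Fin 3) :
    ∃ a, (i, a) ∉ Z := by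
  have h := card_mem_le (fun a : Fin n => ((i, a) : Ln n)) (fun a b k => (Prod.mk.inj k).2) Z
  have := hS.cardZ
  obtain ⟨a, ha⟩ := exists_not_mem (B := univ.filter fun a : Fin n => ((i, a) : Ln n) ∈ Z)
    (by omega)
  exact ⟨a, fun k => ha (mem_filter.2 ⟨mem_univ _, k⟩)⟩

/-- the system of available cells and pairs of live rows -/
def connSys (hS : S.Sparse A Z u) (hn : 100 * u + 1000 ≤ n) : Sys S.vec where
  G := A
  P := {v | ∃ a b, (0, a) ∉ Z ∧ (0, b) ∉ Z ∧ v = pv a b}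
  zero := by
    obtain ⟨a, ha⟩ := S.conn_live hS hn 0
    exact ⟨a, a, ha, ha, (pv_self a).symm⟩
  neg := by
    rintro _ ⟨a, b, ha, hb, rfl⟩
    exact ⟨b, a, hb, ha, by rw [pv, pv, neg_sub]⟩
  fresh := by
    rintro _ ⟨a, b, ha, hb, rfl⟩ _ ⟨r, s, hr, hs, rfl⟩ X hX
    obtain ⟨x, y, Cs, hx, hy, hd, hg⟩ := S.merge6 hS hn ha hb hr hs (X.image (S.co 1))
      (card_image_le.trans hX)
    obtain ⟨Y, h1, h2, h3, h4⟩ := S.conn_rep hg
    exact ⟨_, ⟨x, y, hx, hy, rfl⟩, Y, h1, h2, disjoint_left.2 fun z hz hz' =>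
      disjoint_left.1 hd (h3 z hz) (mem_image_of_mem _ hz'), h4⟩

theorem conn_cl (hS : S.Sparse A Z u) (hn : 100 * u + 1000 ≤ n) {a b : Fin n} (ha : (0, a) ∉ Z)
    (hb : (0, b) ∉ Z) (h : pv a b ∈ S.lat A) : (S.connSys hS hn).cl (pv a b) = 0 := by
  classical
  set T := S.connSys hS hn with hT
  have mem : ∀ {a b : Fin n}, (0, a) ∉ Z → (0, b) ∉ Z → pv a b ∈ T.P := fun ha hb =>
    ⟨_, _, ha, hb, rfl⟩
  have add : ∀ {a b c : Fin n}, (0, a) ∉ Z → (0, b) ∉ Z → (0, c) ∉ Z →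
      T.cl (pv a b) + T.cl (pv b c) = T.cl (pv a c) := fun ha hb hc =>
    T.cl_add (mem ha hb) (mem hb hc) (mem ha hc) ((Sys.R.zero 6).congr (by simp only [pv]; abel))
  obtain ⟨r0, hr0⟩ := S.conn_live hS hn 0
  obtain ⟨c0, hc0⟩ := S.conn_live hS hn 1
  obtain ⟨st, hst⟩ : ∃ st : Fin n → Fin n → T.H, ∀ c c' z, S.Good A c c' z →
      st c c' = T.cl (pv (S.mv c c' z) z) := by
    refine ⟨fun c c' => if k : ∃ z, S.Good A c c' z then T.cl (pv (S.mv c c' k.choose) k.choose)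
      else 0, fun c c' z hz => ?_⟩
    have k : ∃ z, S.Good A c c' z := ⟨z, hz⟩
    obtain ⟨X, h1, h2, -, h4⟩ := S.conn_rep (S.quad k.choose_spec hz)
    simp only [dif_pos k]
    exact T.cl_eq (mem (k.choose_spec.live hS).2.1 (k.choose_spec.live hS).1)
      (mem (hz.live hS).2.1 (hz.live hS).1) ⟨X, h1, by omega, h4⟩
  have sadd : ∀ {c c' c'' : Fin n}, (1, c) ∉ Z → (1, c') ∉ Z → (1, c'') ∉ Z →
      st c c' + st c' c'' = st c c'' := by
    intro c c' c'' hc hc' hc''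
    have k1 := S.card_not_good hS hc' hc''
    have k2 := S.card_not_good hS hc hc'
    have k3 := card_mem_le _ (S.mv_bij c' c'').1 (univ.filter fun b => ¬ S.Good A c c' b)
    obtain ⟨z, hz⟩ := exists_not_mem (lt_of_le_of_lt (card_union_le _ _) (by omega) :
      ((univ.filter fun b => ¬ S.Good A c' c'' b) ∪ (univ.filter fun b =>
        S.mv c' c'' b ∈ univ.filter fun b => ¬ S.Good A c c' b)).card < n)
    simp only [mem_union, mem_filter, mem_univ, true_and, not_or, not_not] at hz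
    have g3 : S.Good A c c'' z := ⟨hz.1.1, by rw [← S.tgt_comp c c' c'' z]; exact hz.2.2⟩
    rw [hst _ _ _ hz.1, hst _ _ _ hz.2, hst _ _ _ g3, S.mv_comp]
    exact add (g3.live hS).2.1 (hz.1.live hS).2.1 (g3.live hS).1
  have same : ∀ x ∈ A, ∀ y ∈ A, S.co 2 x = S.co 2 y →
      T.cl (pv (S.co 0 x) r0) + -st (S.co 1 x) c0 = T.cl (pv (S.co 0 y) r0) + -st (S.co 1 y) c0 := by
    intro x hx y hy e
    have e1 : S.src (S.co 1 y) (S.co 0 y) = y := S.pt_co (by decide) y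
    have e2 : S.tgt (S.co 1 x) (S.co 1 y) (S.co 0 y) = x := by
      rw [tgt, e1, ← e]
      exact S.pt_co (by decide) x
    have g : S.Good A (S.co 1 x) (S.co 1 y) (S.co 0 y) := ⟨by rwa [e1], by rwa [e2]⟩
    have k1 := hst _ _ _ g
    rw [mv, e2] at k1
    have k2 := sadd (hS.off x hx 1) (hS.off y hy 1) hc0
    have k3 := add (hS.off x hx 0) (hS.off y hy 0) hr0
    rw [← k2, ← k3, k1]
    abel
  obtain ⟨L2, hL2⟩ : ∃ L2 : Fin n → T.H, ∀ x ∈ A,
      L2 (S.co 2 x) = -(T.cl (pv (S.co 0 x) r0) + -st (S.co 1 x) c0) := by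
    refine ⟨fun s => if k : ∃ x ∈ A, S.co 2 x = s then
      -(T.cl (pv (S.co 0 k.choose) r0) + -st (S.co 1 k.choose) c0) else 0, fun x hx => ?_⟩
    have k : ∃ y ∈ A, S.co 2 y = S.co 2 x := ⟨x, hx, rfl⟩
    simp only [dif_pos k]
    rw [same _ k.choose_spec.1 x hx k.choose_spec.2]
  let lab : Ln n → T.H := fun l =>
    if l.1 = 0 then T.cl (pv l.2 r0) else if l.1 = 1 then -st l.2 c0 else L2 l.2
  let φ : (Ln n → ℤ) →+ T.H := (Fintype.linearCombination ℤ lab).toAddMonoidHom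
  have hφ : ∀ l, φ (Pi.single l 1) = lab l := fun l => by
    simp [φ, Fintype.linearCombination_apply_single]
  have hk : S.lat A ≤ φ.ker := by
    refine (AddSubgroup.closure_le _).2 ?_
    rintro _ ⟨x, hx, rfl⟩
    have l0 : lab (0, S.co 0 x) = T.cl (pv (S.co 0 x) r0) := if_pos rfl
    have l1 : lab (1, S.co 1 x) = -st (S.co 1 x) c0 :=
      (if_neg (by decide : (1 : Fin 3) ≠ 0)).trans (if_pos rfl)
    have l2 : lab (2, S.co 2 x) = L2 (S.co 2 x) :=
      (if_neg (by decide : (2 : Fin 3) ≠ 0)).trans (if_neg (by decide : (2 : Fin 3) ≠ 1))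
    change φ (S.vec x) = 0
    rw [vec_eq, map_add, map_add, hφ, hφ, hφ, l0, l1, l2, hL2 x hx, add_neg_cancel]
  have k : φ (pv a b) = 0 := hk h
  have la : lab (0, a) = T.cl (pv a r0) := if_pos rfl
  have lb : lab (0, b) = T.cl (pv b r0) := if_pos rfl
  rw [pv, er, er, map_sub, hφ, hφ, la, lb, ← add ha hb hr0, add_sub_cancel_right] at k
  exact k

/-- a pair of live rows in the lattice is reached from zero by links of at most 36 cells -/
theorem latInd (hS : S.Sparse A Z u) (hn : 100 * u + 1000 ≤ n) (Q : (Ln n → ℤ) → Prop)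
    (h0 : Q 0) (hs : ∀ a b a' b', (0, a) ∉ Z → (0, b) ∉ Z → (0, a') ∉ Z → (0, b') ∉ Z →
      Q (pv a' b') → S.Gad0 A 36 (pv a b - pv a' b') → Q (pv a b))
    {a b : Fin n} (ha : (0, a) ∉ Z) (hb : (0, b) ∉ Z) (h : pv a b ∈ S.lat A) : Q (pv a b) := by
  have hz := ((S.connSys hS hn).cl_eq_zero ⟨a, b, ha, hb, rfl⟩).1 (S.conn_cl hS hn ha hb h)
  refine Sys.Z0.ind h0 (fun p s hp hs' hq hr => ?_) hz
  obtain ⟨a', b', ha', hb', rfl⟩ := hp.mem
  obtain ⟨a1, b1, ha1, hb1, rfl⟩ := hs'.mem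
  obtain ⟨X, h1, h2, h3⟩ := hr
  exact hs a1 b1 a' b' ha1 hb1 ha' hb' hq (S.conn_gad h1 h2 h3)

theorem conn_card (G : Finset (Fin n)) (hG : G.card ≤ 36) (c c' : Fin n) :
    (G ∪ {c, c'}).card ≤ 50 := by
  have := card_union_le G {c, c'}
  have := card_le_two (a := c) (b := c')
  omega

theorem conn_disj {G : Finset (Fin n)} {c c' : Fin n} (h : c ∉ G) (h' : c' ∉ G) :
    Disjoint G {c, c'} := by
  rw [disjoint_insert_right, disjoint_singleton_right]
  exact ⟨h, h'⟩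

/-- induction over the steps through pairs of label zero; `U` = usable steps -/
theorem stepInd (hS : S.Sparse A Z u) (hn : 100 * u + 1000 ≤ n) (T U : Fin n → Fin n → Prop)
    (h0 : ∀ c, (1, c) ∉ Z → T c c)
    (hU : ∀ a b, (0, a) ∉ Z → (0, b) ∉ Z → ∀ G : Finset (Fin n), G.card ≤ 50 →
      ∃ c c', c ∉ G ∧ c' ∉ G ∧ S.Good A c c' b ∧ S.mv c c' b = a ∧ U c c')
    (hT : ∀ c c' d d', (1, c) ∉ Z → (1, c') ∉ Z → (1, d) ∉ Z → (1, d') ∉ Z →
      S.Par A c c' d d' → U d d' → T d d' → T c c')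
    {b c c' : Fin n} (hg : S.Good A c c' b) (h : pv (S.mv c c' b) b ∈ S.lat A) : T c c' := by
  refine S.latInd hS hn (fun v => ∀ c c' b, S.Good A c c' b → v = pv (S.mv c c' b) b → T c c')
    (fun c c' b g e => ?_) (fun a b a' b' _ _ ha' hb' hq hl c c' b1 g e => ?_)
    (hg.live hS).2.1 (hg.live hS).1 h c c' b hg rfl
  · have k : S.mv c c' b = b :=
      (pv_inj (e.symm.trans (pv_self b).symm)).elim (fun k => k.1) fun k => k.1
    obtain rfl := S.eq_of_mv_eq k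
    exact h0 c (g.live hS).2.2.1
  · rw [e] at hl
    obtain ⟨Cg, -, hC, hl⟩ := Gad.small hl
    obtain ⟨d, d', hd, hd', gd, ed, ud⟩ := hU _ b1 (g.live hS).2.1 (g.live hS).1 _
      (conn_card Cg hC c c')
    obtain ⟨f, f', hf, hf', gf, ef, uf⟩ := hU a' b' ha' hb' _ (conn_card Cg hC d d')
    rw [mem_union, not_or] at hd hd'
    have tf : T f f' := hq f f' b' gf (by rw [ef])
    have td : T d d' := by
      refine hT d d' f f' (gd.live hS).2.2.1 (gd.live hS).2.2.2 (gf.live hS).2.2.1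
        (gf.live hS).2.2.2 (fun z w gz gw => ?_) uf tf
      have k := ((hl.add (S.quad gz gd) (conn_disj hd.1 hd'.1)).sub (S.quad gw gf)
        (conn_disj hf hf')).gad0 (s' := 52) (by norm_num)
      rw [ed, ef] at k
      convert k using 1
      abel
    refine hT c c' d d' (g.live hS).2.2.1 (g.live hS).2.2.2 (gd.live hS).2.2.1
      (gd.live hS).2.2.2 (fun z w gz gw => ?_) ud td
    have k := ((S.quad gz g).sub (S.quad gw gd) (conn_disj hd.2 hd'.2)).gad0 (s' := 52)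
      (by norm_num)
    rw [ed] at k
    convert k using 1
    abel

end Sq

end PlexX
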