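import Mathlib

/-! Definitions for the non-existence of indivisible plexes of order at least `n - 2`. -/

namespace PlexX

open Finset

/-- cells of a square of order `n` -/
abbrev Cell (n : ℕ) : Type := Fin n × Fin n

/-- lines: rows (type 0), columns (type 1), symbols (type 2) -/
abbrev Ln (n : ℕ) : Type := Fin 3 × Fin n

/-- a latin square in symmetric form: any two of the three coordinates determine the cell -/
structure Sq (n : ℕ) where
  co : Fin 3 → Cell n → Fin n
  bij : ∀ i j, i ≠ j → Function.Bijective fun x => (co i x, co j x)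

variable {n : ℕ}

/-- the basis vector of a row -/
def er (a : Fin n) : Ln n → ℤ := Pi.single (0, a) 1

/-- the vector of an ordered pair of rows -/
def pv (a b : Fin n) : Ln n → ℤ := er a - er b

theorem pv_self (a : Fin n) : pv a a = 0 := sub_self _

/-- weighted size of a discrepancy vector: rows 1, columns 2, symbols 4 -/
def pot (D : Ln n → ℤ) : ℕ := ∑ l, 2 ^ l.1.val * (D l).natAbs

namespace Sq

variable (S : Sq n)

/-- the cell with `i`-th coordinate `a` and `j`-th coordinate `b` -/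
noncomputable def pt (i j : Fin 3) (a b : Fin n) : Cell n :=
  if h : i ≠ j then (Equiv.ofBijective _ (S.bij i j h)).symm (a, b) else (a, b)

theorem co_pt {i j : Fin 3} (h : i ≠ j) (a b : Fin n) :
    S.co i (S.pt i j a b) = a ∧ S.co j (S.pt i j a b) = b := by
  have := (Equiv.ofBijective _ (S.bij i j h)).apply_symm_apply (a, b)
  rw [Equiv.ofBijective_apply, Prod.mk.injEq] at this
  rw [pt, dif_pos h]
  exact this

theorem co_pt_fst {i j : Fin 3} (h : i ≠ j) (a b : Fin n) : S.co i (S.pt i j a b) = a :=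
  (S.co_pt h a b).1

theorem co_pt_snd {i j : Fin 3} (h : i ≠ j) (a b : Fin n) : S.co j (S.pt i j a b) = b :=
  (S.co_pt h a b).2

theorem ext2 {i j : Fin 3} (h : i ≠ j) {x y : Cell n} (h1 : S.co i x = S.co i y)
    (h2 : S.co j x = S.co j y) : x = y :=
  (S.bij i j h).1 (by simp only [h1, h2])

theorem eq_pt {i j : Fin 3} (h : i ≠ j) {x : Cell n} {a b : Fin n} (h1 : S.co i x = a)
    (h2 : S.co j x = b) : x = S.pt i j a b :=
  S.ext2 h (h1.trans (S.co_pt_fst h a b).symm) (h2.trans (S.co_pt_snd h a b).symm)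

theorem pt_co {i j : Fin 3} (h : i ≠ j) (x : Cell n) : S.pt i j (S.co i x) (S.co j x) = x :=
  (S.eq_pt h rfl rfl).symm

theorem pt_inj {i j : Fin 3} (h : i ≠ j) (a : Fin n) : Function.Injective (S.pt i j a) :=
  fun b b' hb => by rw [← S.co_pt_snd h a b, hb, S.co_pt_snd h]

/-- along a line, every other coordinate is a bijective parameter -/
theorem co_pt_bij {i j k : Fin 3} (h : i ≠ j) (h' : i ≠ k) (a : Fin n) :
    Function.Bijective fun b => S.co k (S.pt i j a b) := by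
  refine Finite.injective_iff_bijective.1 fun b b' hb => S.pt_inj h a ?_
  exact S.ext2 h' ((S.co_pt_fst h a b).trans (S.co_pt_fst h a b').symm) hb

/-- number of cells of `Q` on the line `l` -/
def cnt (Q : Finset (Cell n)) (l : Ln n) : ℕ := (Q.filter fun x => S.co l.1 x = l.2).card

/-- the sum of the basis vectors of the three lines through a cell -/
def vec (x : Cell n) : Ln n → ℤ := fun l => if S.co l.1 x = l.2 then 1 else 0

/-- the degree vector of a set of cells -/
def deg (Q : Finset (Cell n)) : Ln n → ℤ := ∑ x ∈ Q, S.vec x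

/-- the cell lies on no line of `Z` -/
def Off (Z : Finset (Ln n)) (x : Cell n) : Prop := ∀ i, (i, S.co i x) ∉ Z

instance (Z : Finset (Ln n)) (x : Cell n) : Decidable (S.Off Z x) :=
  inferInstanceAs (Decidable (∀ i, (i, S.co i x) ∉ Z))

theorem deg_apply (Q : Finset (Cell n)) (l : Ln n) : S.deg Q l = S.cnt Q l := by
  simp [deg, vec, cnt, Finset.sum_apply]

theorem vec_eq (x : Cell n) : S.vec x =
    Pi.single (0, S.co 0 x) 1 + Pi.single (1, S.co 1 x) 1 + Pi.single (2, S.co 2 x) 1 := by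
  funext ⟨i, a⟩
  fin_cases i <;> simp [vec, Pi.single_apply, eq_comm]

theorem deg_union {Q Q' : Finset (Cell n)} (h : Disjoint Q Q') :
    S.deg (Q ∪ Q') = S.deg Q + S.deg Q' := Finset.sum_union h

theorem deg_sdiff {Q Q' : Finset (Cell n)} (h : Q' ⊆ Q) : S.deg (Q \ Q') = S.deg Q - S.deg Q' :=
  Finset.sum_sdiff_eq_sub h

theorem deg_empty : S.deg ∅ = 0 := Finset.sum_empty

theorem cnt_mono {Q Q' : Finset (Cell n)} (h : Q ⊆ Q') (l : Ln n) : S.cnt Q l ≤ S.cnt Q' l :=
  Finset.card_le_card (Finset.filter_subset_filter _ h)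

theorem cnt_union_le (Q Q' : Finset (Cell n)) (l : Ln n) :
    S.cnt (Q ∪ Q') l ≤ S.cnt Q l + S.cnt Q' l := by
  rw [cnt, Finset.filter_union]; exact Finset.card_union_le _ _

theorem cnt_union {Q Q' : Finset (Cell n)} (h : Disjoint Q Q') (l : Ln n) :
    S.cnt (Q ∪ Q') l = S.cnt Q l + S.cnt Q' l := by
  rw [cnt, Finset.filter_union]
  exact Finset.card_union_of_disjoint (Finset.disjoint_filter_filter h)

theorem cnt_le_card (Q : Finset (Cell n)) (l : Ln n) : S.cnt Q l ≤ Q.card :=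
  Finset.card_filter_le _ _

/-- counting cells on a line through a second coordinate -/
theorem cnt_eq_card {i j : Fin 3} (h : i ≠ j) (Q : Finset (Cell n)) (a : Fin n) :
    S.cnt Q (i, a) = (univ.filter fun b => S.pt i j a b ∈ Q).card := by
  symm
  refine Finset.card_bij (fun b _ => S.pt i j a b) (fun b hb => ?_) (fun b _ b' _ hb => ?_)
    (fun x hx => ?_)
  · exact Finset.mem_filter.2 ⟨(Finset.mem_filter.1 hb).2, S.co_pt_fst h a b⟩
  · exact S.pt_inj h a hb
  · obtain ⟨hx, hx'⟩ := Finset.mem_filter.1 hx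
    have : S.pt i j a (S.co j x) = x := (S.eq_pt h hx' rfl).symm
    exact ⟨S.co j x, Finset.mem_filter.2 ⟨Finset.mem_univ _, by rwa [this]⟩, this⟩

theorem cnt_univ (l : Ln n) : S.cnt univ l = n := by
  obtain ⟨i, a⟩ := l
  obtain ⟨j, hj⟩ := exists_ne i
  rw [S.cnt_eq_card hj.symm]
  simp

theorem cnt_add_compl (Q : Finset (Cell n)) (l : Ln n) : S.cnt Q l + S.cnt Qᶜ l = n := by
  rw [← S.cnt_union disjoint_compl_right, Finset.union_compl, cnt_univ]

theorem sum_cnt_type (Q : Finset (Cell n)) (i : Fin 3) : ∑ a, S.cnt Q (i, a) = Q.card :=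
  (Finset.card_eq_sum_card_fiberwise (f := S.co i) (s := Q) (t := univ)
    (fun _ _ => Finset.mem_coe.2 (Finset.mem_univ _))).symm

theorem sum_cnt (Q : Finset (Cell n)) : ∑ l, S.cnt Q l = 3 * Q.card := by
  rw [Fintype.sum_prod_type]
  simp [sum_cnt_type]

/-- few lines carry many cells of a small set -/
theorem card_heavy (Q : Finset (Cell n)) (m : ℕ) :
    (univ.filter fun l => m ≤ S.cnt Q l).card * m ≤ 3 * Q.card := by
  rw [← S.sum_cnt]
  calc _ = ∑ _l ∈ univ.filter fun l => m ≤ S.cnt Q l, m := by simp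
    _ ≤ ∑ l ∈ univ.filter fun l => m ≤ S.cnt Q l, S.cnt Q l :=
      Finset.sum_le_sum fun l hl => (Finset.mem_filter.1 hl).2
    _ ≤ _ := Finset.sum_le_sum_of_subset (Finset.filter_subset _ _)

/-- a line outside `Z` meets the lines of `Z` in at most `Z.card` cells -/
theorem cnt_on_le (Z : Finset (Ln n)) (Q : Finset (Cell n)) (l : Ln n) (hl : l ∉ Z)
    (hQ : ∀ x ∈ Q, ¬ S.Off Z x) : S.cnt Q l ≤ Z.card := by
  have h : ∀ x ∈ Q.filter fun x => S.co l.1 x = l.2, ∃ i, (i, S.co i x) ∈ Z := by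
    intro x hx
    simpa [Off] using hQ x (Finset.mem_filter.1 hx).1
  choose! f hf using h
  refine Finset.card_le_card_of_injOn (fun x => (f x, S.co (f x) x)) (fun x hx => hf x hx) ?_
  intro x hx y hy hxy
  have hx' := (Finset.mem_filter.1 hx).2
  have hy' := (Finset.mem_filter.1 hy).2
  obtain ⟨h1, h2⟩ := Prod.mk.inj hxy
  have hne : l.1 ≠ f x := fun h => hl (by
    have := hf x hx
    rw [← h, hx'] at this
    exact this)
  exact S.ext2 hne (hx'.trans hy'.symm) (by rw [h2, h1])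

/-- `A` = available cells, `Z` = dead lines; every live line has at most `u` unavailable cells -/
structure Sparse (A : Finset (Cell n)) (Z : Finset (Ln n)) (u : ℕ) : Prop where
  cardZ : Z.card ≤ u
  off : ∀ x ∈ A, S.Off Z x
  few : ∀ l, l ∉ Z → S.cnt Aᶜ l ≤ u

theorem Sparse.mono {S : Sq n} {A : Finset (Cell n)} {Z : Finset (Ln n)} {u u' : ℕ}
    (h : S.Sparse A Z u) (hu : u ≤ u') : S.Sparse A Z u' :=
  ⟨h.cardZ.trans hu, h.off, fun l hl => (h.few l hl).trans hu⟩

/-- the lattice spanned by the available cells -/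
def lat (A : Finset (Cell n)) : AddSubgroup (Ln n → ℤ) := AddSubgroup.closure (S.vec '' A)

theorem vec_mem_lat {A : Finset (Cell n)} {x : Cell n} (hx : x ∈ A) : S.vec x ∈ S.lat A :=
  AddSubgroup.subset_closure ⟨x, hx, rfl⟩

theorem deg_mem_lat {A Q : Finset (Cell n)} (h : Q ⊆ A) : S.deg Q ∈ S.lat A :=
  sum_mem fun _ hx => S.vec_mem_lat (h hx)

theorem lat_mono {A A' : Finset (Cell n)} (h : A ⊆ A') : S.lat A ≤ S.lat A' :=
  AddSubgroup.closure_mono (Set.image_mono h)

/-- a gadget: two sets of available cells, `s` cells in total, in the columns `Cs`, whose degree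
vectors differ by `v` -/
def Gad (A : Finset (Cell n)) (s : ℕ) (Cs : Finset (Fin n)) (v : Ln n → ℤ) : Prop :=
  ∃ gp gm : Finset (Cell n), gp ⊆ A ∧ gm ⊆ A ∧ gp.card + gm.card ≤ s ∧
    (∀ x ∈ gp, S.co 1 x ∈ Cs) ∧ (∀ x ∈ gm, S.co 1 x ∈ Cs) ∧ S.deg gp - S.deg gm = v

/-- a gadget in arbitrary columns -/
def Gad0 (A : Finset (Cell n)) (s : ℕ) (v : Ln n → ℤ) : Prop := S.Gad A s univ v

section Gad

variable {S} {A A' : Finset (Cell n)} {s s' : ℕ} {Cs Cs' : Finset (Fin n)} {v v' : Ln n → ℤ}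

theorem Gad.zero : S.Gad A s Cs 0 :=
  ⟨∅, ∅, empty_subset _, empty_subset _, by simp, by simp, by simp, sub_self _⟩

theorem Gad.mono (h : S.Gad A s Cs v) (hA : A ⊆ A') (hs : s ≤ s') (hC : Cs ⊆ Cs') :
    S.Gad A' s' Cs' v := by
  obtain ⟨gp, gm, h1, h2, h3, h4, h5, h6⟩ := h
  exact ⟨gp, gm, h1.trans hA, h2.trans hA, h3.trans hs, fun x hx => hC (h4 x hx),
    fun x hx => hC (h5 x hx), h6⟩

theorem Gad.gad0 (h : S.Gad A s Cs v) (hs : s ≤ s') : S.Gad0 A s' v :=
  h.mono subset_rfl hs (subset_univ _)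

theorem Gad.neg (h : S.Gad A s Cs v) : S.Gad A s Cs (-v) := by
  obtain ⟨gp, gm, h1, h2, h3, h4, h5, h6⟩ := h
  exact ⟨gm, gp, h2, h1, by omega, h5, h4, by rw [← h6, neg_sub]⟩

theorem Gad.add (h : S.Gad A s Cs v) (h' : S.Gad A s' Cs' v') (hd : Disjoint Cs Cs') :
    S.Gad A (s + s') (Cs ∪ Cs') (v + v') := by
  obtain ⟨gp, gm, h1, h2, h3, h4, h5, h6⟩ := h
  obtain ⟨gp', gm', h1', h2', h3', h4', h5', h6'⟩ := h'
  have d1 : Disjoint gp gp' := Finset.disjoint_left.2 fun x hx hx' =>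
    Finset.disjoint_left.1 hd (h4 x hx) (h4' x hx')
  have d2 : Disjoint gm gm' := Finset.disjoint_left.2 fun x hx hx' =>
    Finset.disjoint_left.1 hd (h5 x hx) (h5' x hx')
  refine ⟨gp ∪ gp', gm ∪ gm', union_subset h1 h1', union_subset h2 h2', ?_, ?_, ?_, ?_⟩
  · rw [card_union_of_disjoint d1, card_union_of_disjoint d2]; omega
  · intro x hx
    rcases mem_union.1 hx with hx | hx
    · exact mem_union_left _ (h4 x hx)
    · exact mem_union_right _ (h4' x hx)
  · intro x hx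
    rcases mem_union.1 hx with hx | hx
    · exact mem_union_left _ (h5 x hx)
    · exact mem_union_right _ (h5' x hx)
  · rw [S.deg_union d1, S.deg_union d2, ← h6, ← h6']; abel

theorem Gad.sub (h : S.Gad A s Cs v) (h' : S.Gad A s' Cs' v') (hd : Disjoint Cs Cs') :
    S.Gad A (s + s') (Cs ∪ Cs') (v - v') := by
  rw [sub_eq_add_neg]; exact h.add h'.neg hd

/-- the columns of a gadget may be taken to be at most `s` many -/
theorem Gad.small (h : S.Gad A s Cs v) : ∃ Cs' ⊆ Cs, Cs'.card ≤ s ∧ S.Gad A s Cs' v := by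
  obtain ⟨gp, gm, h1, h2, h3, h4, h5, h6⟩ := h
  refine ⟨(gp ∪ gm).image (S.co 1), ?_, card_image_le.trans ((card_union_le _ _).trans h3),
    gp, gm, h1, h2, h3, fun x hx => mem_image_of_mem _ (mem_union_left _ hx),
    fun x hx => mem_image_of_mem _ (mem_union_right _ hx), h6⟩
  intro c hc
  obtain ⟨x, hx, rfl⟩ := mem_image.1 hc
  rcases mem_union.1 hx with hx | hx
  exacts [h4 x hx, h5 x hx]

/-- the two halves of a gadget may be taken disjoint -/
theorem Gad.disj (h : S.Gad A s Cs v) : ∃ gp gm : Finset (Cell n), gp ⊆ A ∧ gm ⊆ A ∧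
    Disjoint gp gm ∧ gp.card + gm.card ≤ s ∧ S.deg gp - S.deg gm = v := by
  obtain ⟨gp, gm, h1, h2, h3, -, -, h6⟩ := h
  refine ⟨gp \ gm, gm \ gp, sdiff_subset.trans h1, sdiff_subset.trans h2, disjoint_sdiff_sdiff,
    (add_le_add (card_le_card sdiff_subset) (card_le_card sdiff_subset)).trans h3, ?_⟩
  rw [← sdiff_inter_self_left gp gm, ← sdiff_inter_self_left gm gp,
    S.deg_sdiff inter_subset_left, S.deg_sdiff inter_subset_left, inter_comm gm gp, ← h6]
  abel

theorem Gad.mem_lat (h : S.Gad A s Cs v) : v ∈ S.lat A := by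
  obtain ⟨gp, gm, h1, h2, -, -, -, h6⟩ := h
  rw [← h6]
  exact sub_mem (S.deg_mem_lat h1) (S.deg_mem_lat h2)

end Gad

/-- source cell of the step `(c, c')` at the row `b` -/
noncomputable def src (c' b : Fin n) : Cell n := S.pt 0 1 b c'

/-- target cell of the step `(c, c')` at the row `b`: column `c`, symbol of the source cell -/
noncomputable def tgt (c c' b : Fin n) : Cell n := S.pt 1 2 c (S.co 2 (S.src c' b))

/-- the row reached from `b` by the step `(c, c')` -/
noncomputable def mv (c c' b : Fin n) : Fin n := S.co 0 (S.tgt c c' b)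

/-- both cells of the step are available -/
def Good (A : Finset (Cell n)) (c c' b : Fin n) : Prop := S.src c' b ∈ A ∧ S.tgt c c' b ∈ A

noncomputable instance (A : Finset (Cell n)) (c c' b : Fin n) : Decidable (S.Good A c c' b) :=
  inferInstanceAs (Decidable (S.src c' b ∈ A ∧ S.tgt c c' b ∈ A))

/-- two pairs of live rows joined by a gadget of at most 44 cells -/
def Link (A : Finset (Cell n)) (Z : Finset (Ln n)) (p q : Fin n × Fin n) : Prop :=
  (0, p.1) ∉ Z ∧ (0, p.2) ∉ Z ∧ (0, q.1) ∉ Z ∧ (0, q.2) ∉ Z ∧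
    S.Gad0 A 44 (pv p.1 p.2 - pv q.1 q.2)

/-- the steps `(c, c')` and `(d, d')` are parallel up to gadgets of at most 52 cells -/
def Par (A : Finset (Cell n)) (c c' d d' : Fin n) : Prop :=
  ∀ z w, S.Good A c c' z → S.Good A d d' w →
    S.Gad0 A 52 (pv (S.mv c c' z) z - pv (S.mv d d' w) w)

/-- the group of differences of live rows modulo the available cells -/
def grp (A : Finset (Cell n)) (Z : Finset (Ln n)) : AddSubgroup ((Ln n → ℤ) ⧸ S.lat A) :=
  AddSubgroup.closure {g | ∃ a b, (0, a) ∉ Z ∧ (0, b) ∉ Z ∧ g = QuotientAddGroup.mk (pv a b)}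

/-- removing at most `w` further cells and `z` further lines creates no new row labels -/
def Stable (A : Finset (Cell n)) (Z : Finset (Ln n)) (w z : ℕ) : Prop :=
  ∀ (A' : Finset (Cell n)) (Z' : Finset (Ln n)) (u' : ℕ), A' ⊆ A → Z ⊆ Z' → S.Sparse A' Z' u' →
    100 * u' + 1000 ≤ n → (Z' \ Z).card ≤ z → ((A \ A').filter (S.Off Z')).card ≤ w →
    ∀ a b, (0, a) ∉ Z' → (0, b) ∉ Z' → pv a b ∈ S.lat A → pv a b ∈ S.lat A'

/-- the cells `W` absorb the difference between any member of the class and any root -/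
def Absorbs {ι : Type} (K : Set ι) (vc : ι → Ln n → ℤ) (W : Finset (Cell n)) : Prop :=
  ∀ ρ ∈ K, ∃ Wp ⊆ W, ∀ x ∈ K, ∃ W' ⊆ W, S.deg W' = S.deg Wp - vc x + vc ρ

/-- the reserved cells `Rs` with initial pattern `In` absorb the vector `v` -/
def Solv (Rs In : Finset (Cell n)) (v : Ln n → ℤ) : Prop :=
  ∃ In' ⊆ Rs, S.deg In' = S.deg In - v

/-- the defect of a cell under a labelling of the lines -/
def df {H : Type} [AddCommGroup H] (lab : Ln n → H) (x : Cell n) : H :=
  lab (0, S.co 0 x) + lab (1, S.co 1 x) + lab (2, S.co 2 x)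

/-- a choice of exceptional cells `Y` and of the order `h` that is consistent with the labels -/
def Goal {H : Type} [AddCommGroup H] (P A : Finset (Cell n)) (Z : Finset (Ln n))
    (lab : Ln n → H) (e : ℕ) : Prop :=
  ∃ (h : ℕ) (Y : Finset (Cell n)), e ≤ h ∧ h + e ≤ n ∧ Y ⊆ P \ A ∧ (∀ z ∈ Z, S.cnt Y z = h) ∧
    ∑ x ∈ Y, S.df lab x = h • ∑ l, lab l

/-- enough free cells of every pattern: `Fi` may be removed, `Fo` may be added -/
structure Rich (Z : Finset (Ln n)) (Fi Fo : Finset (Cell n)) (c : ℕ) : Prop where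
  one : ∀ l, l ∉ Z → c ≤ S.cnt Fi l ∧ c ≤ S.cnt Fo l
  two : ∀ (i : Fin 3) (a b : Fin n), i ≠ 2 → a ≠ b → (i, a) ∉ Z → (i, b) ∉ Z →
    c ≤ (univ.filter fun s => S.pt i 2 a s ∈ Fi ∧ S.pt i 2 b s ∈ Fo).card
  four : ∀ c₁ c₂ c₃ c₄ : Fin n, c₁ ≠ c₂ → c₁ ≠ c₃ → c₁ ≠ c₄ → c₂ ≠ c₃ → c₂ ≠ c₄ → c₃ ≠ c₄ →
    (1, c₁) ∉ Z → (1, c₂) ∉ Z → (1, c₃) ∉ Z → (1, c₄) ∉ Z →
    c ≤ (univ.filter fun b => S.src c₂ b ∈ Fi ∧ S.tgt c₁ c₂ b ∈ Fo ∧ S.src c₃ b ∈ Fo ∧
      S.tgt c₄ c₃ b ∈ Fi).card

theorem sum_df {H : Type} [AddCommGroup H] (lab : Ln n → H) (Q : Finset (Cell n)) :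
    ∑ x ∈ Q, S.df lab x = ∑ l, S.deg Q l • lab l := by
  simp only [deg, Finset.sum_apply, Finset.sum_smul]
  rw [Finset.sum_comm]
  refine Finset.sum_congr rfl fun x _ => ?_
  simp [vec_eq, add_smul, Finset.sum_add_distrib, Pi.single_apply, df]

end Sq

end PlexX
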