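import Pool.Agent.Lib.MP_3d3eb4_co.PX.Defs

/-! Maximal forests of disjoint gadgets on the rows. -/

namespace PlexX

open Finset

namespace Sq

variable {n : ℕ} (S : Sq n) {A : Finset (Cell n)} {Z : Finset (Ln n)} {u : ℕ}

theorem fo_deg3 {W₁ W₂ U₁ U₂ g : Finset (Cell n)} (hW : Disjoint W₁ W₂) (h1 : U₁ ⊆ W₁)
    (h2 : U₂ ⊆ W₂) (hg : Disjoint g (W₁ ∪ W₂)) :
    S.deg (U₁ ∪ U₂ ∪ g) = S.deg U₁ + S.deg U₂ + S.deg g := by
  rw [S.deg_union (hg.mono_right (union_subset_union h1 h2)).symm, S.deg_union (hW.mono h1 h2)]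

theorem fo_half {S : Sq n} {ι : Type} {K₁ K₂ : Set ι} {vc : ι → Ln n → ℤ}
    {W₁ W₂ gp gm : Finset (Cell n)} (h₁ : S.Absorbs K₁ vc W₁) (h₂ : S.Absorbs K₂ vc W₂)
    {x₁ x₂ : ι} (hx₁ : x₁ ∈ K₁) (hx₂ : x₂ ∈ K₂) (hW : Disjoint W₁ W₂)
    (hp : Disjoint gp (W₁ ∪ W₂)) (hm : Disjoint gm (W₁ ∪ W₂))
    (hv : S.deg gp - S.deg gm = vc x₁ - vc x₂) {ρ : ι} (hρ : ρ ∈ K₁) :
    ∃ Wp ⊆ W₁ ∪ W₂ ∪ (gp ∪ gm), ∀ x ∈ K₁ ∪ K₂, ∃ W' ⊆ W₁ ∪ W₂ ∪ (gp ∪ gm),
      S.deg W' = S.deg Wp - vc x + vc ρ := by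
  obtain ⟨P₁, hP₁, H₁⟩ := h₁ ρ hρ
  obtain ⟨P₂, hP₂, H₂⟩ := h₂ x₂ hx₂
  refine ⟨P₁ ∪ P₂ ∪ gm, union_subset_union (union_subset_union hP₁ hP₂) subset_union_right,
    fun x hx => ?_⟩
  rw [S.fo_deg3 hW hP₁ hP₂ hm]
  rcases hx with hx | hx
  · obtain ⟨U, hU, e⟩ := H₁ x hx
    refine ⟨U ∪ P₂ ∪ gm, union_subset_union (union_subset_union hU hP₂) subset_union_right, ?_⟩
    rw [S.fo_deg3 hW hU hP₂ hm, e]
    abel
  · obtain ⟨U, hU, e⟩ := H₁ x₁ hx₁
    obtain ⟨U', hU', e'⟩ := H₂ x hx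
    refine ⟨U ∪ U' ∪ gp, union_subset_union (union_subset_union hU hU') subset_union_left, ?_⟩
    rw [S.fo_deg3 hW hU hU' hp, e, e', eq_add_of_sub_eq hv]
    abel

theorem Absorbs.merge {S : Sq n} {ι : Type} {K₁ K₂ : Set ι} {vc : ι → Ln n → ℤ}
    {W₁ W₂ gp gm : Finset (Cell n)} (h₁ : S.Absorbs K₁ vc W₁) (h₂ : S.Absorbs K₂ vc W₂)
    {x₁ x₂ : ι} (hx₁ : x₁ ∈ K₁) (hx₂ : x₂ ∈ K₂) (hW : Disjoint W₁ W₂)
    (hp : Disjoint gp (W₁ ∪ W₂)) (hm : Disjoint gm (W₁ ∪ W₂)) (hg : Disjoint gp gm)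
    (hv : S.deg gp - S.deg gm = vc x₁ - vc x₂) :
    S.Absorbs (K₁ ∪ K₂) vc (W₁ ∪ W₂ ∪ (gp ∪ gm)) := by
  have _ := hg
  rintro ρ (hρ | hρ)
  · exact fo_half h₁ h₂ hx₁ hx₂ hW hp hm hv hρ
  · rw [union_comm W₁ W₂] at hp hm ⊢
    rw [union_comm gp gm, Set.union_comm K₁ K₂]
    exact fo_half h₂ h₁ hx₂ hx₁ hW.symm hm hp (by rw [← neg_sub, hv, neg_sub]) hρ

/-- the invariant of the greedy construction of a forest -/
def FoInv (A : Finset (Cell n)) (m : ℕ) (cl : Fin n → Fin n) (W : Fin n → Finset (Cell n)) :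
    Prop :=
  (∀ i, W i ⊆ A) ∧ (Pairwise fun i j => Disjoint (W i) (W j)) ∧
    (∀ i, S.Absorbs {a | cl a = i} er (W i)) ∧
    (univ.biUnion W).card + 52 * (univ.image cl).card ≤ 52 * n ∧
    ∀ l, S.cnt (univ.biUnion W) l ≤ m + 52

theorem fo_start (m : ℕ) : S.FoInv A m id fun _ => ∅ := by
  have e : (univ.biUnion fun _ : Fin n => (∅ : Finset (Cell n))) = ∅ :=
    subset_empty.1 (biUnion_subset.2 fun _ _ => subset_rfl)
  refine ⟨fun _ => empty_subset _, fun _ _ _ => disjoint_bot_left, fun i ρ hρ => ?_, ?_,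
    fun l => ?_⟩
  · refine ⟨∅, subset_rfl, fun x hx => ⟨∅, subset_rfl, ?_⟩⟩
    rw [show x = ρ from (show x = i from hx).trans (show ρ = i from hρ).symm, sub_add_cancel]
  · rw [e]; simp
  · rw [e]; simp [cnt]

theorem fo_step {m : ℕ} {cl : Fin n → Fin n} {W : Fin n → Finset (Cell n)}
    (h : S.FoInv A m cl W) {a b : Fin n} (hab : cl a ≠ cl b) {gp gm : Finset (Cell n)}
    (hA : gp ∪ gm ⊆ A) (hd : Disjoint (gp ∪ gm) (univ.biUnion W)) (hg : Disjoint gp gm)
    (hc : (gp ∪ gm).card ≤ 52) (hl : ∀ x ∈ gp ∪ gm, ∀ i, S.cnt (univ.biUnion W) (i, S.co i x) < m)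
    (hv : S.deg gp - S.deg gm = pv a b) :
    ∃ cl' W', S.FoInv A m cl' W' ∧ (univ.image cl').card < (univ.image cl).card := by
  obtain ⟨h1, h2, h3, h4, h5⟩ := h
  let cl' : Fin n → Fin n := fun c => if cl c = cl b then cl a else cl c
  let W' : Fin n → Finset (Cell n) := fun i =>
    if i = cl a then W (cl a) ∪ W (cl b) ∪ (gp ∪ gm) else if i = cl b then ∅ else W i
  have hdi : ∀ i, Disjoint (gp ∪ gm) (W i) := fun i =>
    hd.mono_right (subset_biUnion_of_mem W (mem_univ i))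
  have hU : univ.biUnion W' ⊆ univ.biUnion W ∪ (gp ∪ gm) := biUnion_subset.2 fun i _ => by
    simp only [W']
    split_ifs
    · exact union_subset_union (union_subset (subset_biUnion_of_mem W (mem_univ _))
        (subset_biUnion_of_mem W (mem_univ _))) subset_rfl
    · exact empty_subset _
    · exact (subset_biUnion_of_mem W (mem_univ _)).trans subset_union_left
  have hI : (univ.image cl').card < (univ.image cl).card := by
    refine (card_le_card (t := (univ.image cl).erase (cl b)) fun i hi => ?_).trans_lt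
      (card_erase_lt_of_mem (mem_image_of_mem _ (mem_univ b)))
    obtain ⟨c, -, rfl⟩ := mem_image.1 hi
    simp only [cl']
    split_ifs with hc
    · exact mem_erase.2 ⟨hab, mem_image_of_mem _ (mem_univ a)⟩
    · exact mem_erase.2 ⟨hc, mem_image_of_mem _ (mem_univ c)⟩
  have hD : ∀ j, j ≠ cl a → Disjoint (W (cl a) ∪ W (cl b) ∪ (gp ∪ gm)) (W' j) := fun j hj => by
    simp only [W', if_neg hj]
    split_ifs with hj'
    · exact disjoint_bot_right
    · exact disjoint_union_left.2 ⟨disjoint_union_left.2 ⟨h2 hj.symm, h2 (Ne.symm hj')⟩, hdi j⟩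
  refine ⟨cl', W', ⟨fun i => ?_, fun i j hij => ?_, fun i => ?_, ?_, fun l => ?_⟩, hI⟩
  · simp only [W']
    split_ifs
    · exact union_subset (union_subset (h1 _) (h1 _)) hA
    · exact empty_subset _
    · exact h1 i
  · change Disjoint (W' i) (W' j)
    by_cases hi : i = cl a
    · have e : W' i = W (cl a) ∪ W (cl b) ∪ (gp ∪ gm) := if_pos hi
      rw [e]
      exact hD j fun hj => hij (hi.trans hj.symm)
    by_cases hj : j = cl a
    · have e : W' j = W (cl a) ∪ W (cl b) ∪ (gp ∪ gm) := if_pos hj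
      rw [e]
      exact (hD i hi).symm
    simp only [W', if_neg hi, if_neg hj]
    split_ifs
    · exact disjoint_bot_left
    · exact disjoint_bot_left
    · exact disjoint_bot_right
    · exact h2 hij
  · by_cases hi : i = cl a
    · have e : W' i = W (cl a) ∪ W (cl b) ∪ (gp ∪ gm) := if_pos hi
      have e' : {c | cl' c = i} = {c | cl c = cl a} ∪ {c | cl c = cl b} := by
        ext c
        by_cases hc : cl c = cl b <;> simp [cl', hi, hc]
      rw [e, e']
      exact Absorbs.merge (h3 _) (h3 _) (x₁ := a) (x₂ := b) rfl rfl (h2 hab)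
        (disjoint_union_right.2 ⟨(hdi _).mono_left subset_union_left,
          (hdi _).mono_left subset_union_left⟩)
        (disjoint_union_right.2 ⟨(hdi _).mono_left subset_union_right,
          (hdi _).mono_left subset_union_right⟩) hg hv
    by_cases hi' : i = cl b
    · intro ρ hρ
      have hρ' : cl' ρ = i := hρ
      simp only [cl'] at hρ'
      split_ifs at hρ' with hc
      · exact absurd hρ'.symm hi
      · exact absurd (hρ'.trans hi') hc
    · have e : W' i = W i := by simp only [W', if_neg hi, if_neg hi']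
      have e' : {c | cl' c = i} = {c | cl c = i} := by
        ext c
        by_cases hc : cl c = cl b
        · simp [cl', hc, Ne.symm hi, Ne.symm hi']
        · simp [cl', hc]
      rw [e, e']
      exact h3 i
  · have := (card_le_card hU).trans (card_union_le _ _)
    omega
  · refine (S.cnt_mono hU l).trans ((S.cnt_union_le _ _ l).trans ?_)
    rcases ((gp ∪ gm).filter fun x => S.co l.1 x = l.2).eq_empty_or_nonempty with h | ⟨x, hx⟩
    · have e : S.cnt (gp ∪ gm) l = 0 := by rw [cnt, h, card_empty]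
      rw [e]
      exact h5 l
    · obtain ⟨k1, k2⟩ := mem_filter.1 hx
      have k3 := hl x k1 l.1
      rw [k2] at k3
      exact add_le_add k3.le ((S.cnt_le_card _ l).trans hc)

theorem forest (hS : S.Sparse A Z u) (m y : ℕ) (hm : 0 < m) (hy : 156 * n ≤ m * y) :
    ∃ (cl : Fin n → Fin n) (W : Fin n → Finset (Cell n)) (A' : Finset (Cell n))
      (Z' : Finset (Ln n)), (∀ i, W i ⊆ A) ∧ (Pairwise fun i j => Disjoint (W i) (W j)) ∧
      (∀ i, S.Absorbs {a | cl a = i} er (W i)) ∧ (univ.biUnion W).card ≤ 52 * n ∧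
      (∀ l, S.cnt (univ.biUnion W) l ≤ m + 52) ∧ A' ⊆ A ∧ Z ⊆ Z' ∧ (Z' \ Z).card ≤ y ∧
      (∀ i, Disjoint A' (W i)) ∧ (∀ x ∈ A, S.Off Z' x → x ∈ A' ∨ x ∈ univ.biUnion W) ∧
      S.Sparse A' Z' (u + (m + y)) ∧ ∀ a b, S.Gad0 A' 52 (pv a b) → cl a = cl b := by
  obtain ⟨⟨cl, W⟩, hI, hmin⟩ := Set.exists_min_image
    {p : (Fin n → Fin n) × (Fin n → Finset (Cell n)) | S.FoInv A m p.1 p.2}
    (fun p => (univ.image p.1).card) (Set.toFinite _) ⟨(id, fun _ => ∅), S.fo_start m⟩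
  have hI' : S.FoInv A m cl W := hI
  obtain ⟨h1, h2, h3, h4, h5⟩ := id hI'
  let Hv : Finset (Ln n) := univ.filter fun l => m ≤ S.cnt (univ.biUnion W) l
  have hH : Hv.card ≤ y := by
    have := S.card_heavy (univ.biUnion W) m
    refine Nat.le_of_mul_le_mul_right (c := m) (this.trans ?_) hm
    rw [mul_comm y m]
    omega
  let A' := (A \ univ.biUnion W).filter (S.Off (Z ∪ Hv))
  have hA' : A' ⊆ A := (filter_subset _ _).trans sdiff_subset
  have hdis : Disjoint A' (univ.biUnion W) :=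
    sdiff_disjoint.mono_left (filter_subset _ _)
  refine ⟨cl, W, A', Z ∪ Hv, h1, h2, h3, by omega, h5, hA', subset_union_left, ?_,
    fun i => hdis.mono_right (subset_biUnion_of_mem W (mem_univ i)), fun x hx ho => ?_,
    ⟨?_, fun x hx => (mem_filter.1 hx).2, fun l hl => ?_⟩, fun a b hg => ?_⟩
  · rw [union_sdiff_left]
    exact (card_le_card sdiff_subset).trans hH
  · by_cases hx' : x ∈ univ.biUnion W
    · exact Or.inr hx'
    · exact Or.inl (mem_filter.2 ⟨mem_sdiff.2 ⟨hx, hx'⟩, ho⟩)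
  · have := card_union_le Z Hv
    have := hS.cardZ
    omega
  · have k1 : l ∉ Z := fun h => hl (mem_union_left _ h)
    have k2 : l ∉ Hv := fun h => hl (mem_union_right _ h)
    have k3 : A'ᶜ ⊆ Aᶜ ∪ (univ.biUnion W ∪ univ.filter fun x => ¬ S.Off Hv x) := fun x hx => by
      by_contra hc
      simp only [mem_union, mem_compl, not_or, not_not, mem_filter, mem_univ, true_and] at hc
      refine mem_compl.1 hx (mem_filter.2 ⟨mem_sdiff.2 ⟨hc.1, hc.2.1⟩, fun i hi => ?_⟩)
      exact (mem_union.1 hi).elim (hS.off x hc.1 i) (hc.2.2 i)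
    have k4 := hS.few l k1
    have k5 : S.cnt (univ.biUnion W) l < m :=
      not_le.1 fun h => k2 (mem_filter.2 ⟨mem_univ _, h⟩)
    have k6 := S.cnt_on_le Hv (univ.filter fun x => ¬ S.Off Hv x) l k2
      fun x hx => (mem_filter.1 hx).2
    have k7 := (S.cnt_mono k3 l).trans (S.cnt_union_le _ _ l)
    have k8 := S.cnt_union_le (univ.biUnion W) (univ.filter fun x => ¬ S.Off Hv x) l
    omega
  · by_contra hab
    obtain ⟨gp, gm, k1, k2, k3, k4, k5⟩ := Gad.disj hg
    have k6 := union_subset k1 k2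
    obtain ⟨cl', W', k7, k8⟩ := S.fo_step hI' hab (k6.trans hA') (hdis.mono_left k6) k3
      ((card_union_le _ _).trans k4) (fun x hx i => not_le.1 fun h =>
        (mem_filter.1 (k6 hx)).2 i (mem_union_right _ (mem_filter.2 ⟨mem_univ _, h⟩))) k5
    exact absurd (hmin (cl', W') k7) (not_le.2 k8)

theorem forests (hS : S.Sparse A Z u) (m y : ℕ) (hm : 0 < m) (hy : 156 * n ≤ m * y) (K : ℕ) :
    ∃ (cl : Fin K → Fin n → Fin n) (W : Fin n × Fin K → Finset (Cell n)) (A' : Finset (Cell n))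
      (Z' : Finset (Ln n)), (∀ k, W k ⊆ A) ∧ (Pairwise fun k k' => Disjoint (W k) (W k')) ∧
      (∀ i j, S.Absorbs {a | cl j a = i} er (W (i, j))) ∧ (univ.biUnion W).card ≤ K * (52 * n) ∧
      (∀ l, S.cnt (univ.biUnion W) l ≤ K * (m + 52)) ∧ A' ⊆ A ∧ Z ⊆ Z' ∧ (Z' \ Z).card ≤ K * y ∧
      (∀ k, Disjoint A' (W k)) ∧ (∀ x ∈ A, S.Off Z' x → x ∈ A' ∨ x ∈ univ.biUnion W) ∧
      S.Sparse A' Z' (u + K * (m + y)) ∧ ∀ j a b, S.Gad0 A' 52 (pv a b) → cl j a = cl j b := by
  induction K with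
  | zero =>
    refine ⟨fun j => j.elim0, fun k => k.2.elim0, A, Z, fun k => k.2.elim0, fun k => k.2.elim0,
      fun _ j => j.elim0, by simp, fun l => by simp [cnt], subset_rfl, subset_rfl, by simp,
      fun k => k.2.elim0, fun x hx _ => Or.inl hx, by simpa using hS, fun j => j.elim0⟩
  | succ K ih =>
    obtain ⟨cl, W, A1, Z1, h1, h2, h3, h4, h5, h6, h7, h8, h9, h10, h11, h12⟩ := ih
    obtain ⟨c, V, A2, Z2, g1, g2, g3, g4, g5, g6, g7, g8, g9, g10, g11, g12⟩ :=
      S.forest h11 m y hm hy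
    let W' : Fin n × Fin (K + 1) → Finset (Cell n) := fun k =>
      Fin.cases (motive := fun _ => Finset (Cell n)) (V k.1) (fun j => W (k.1, j)) k.2
    have hU : univ.biUnion W' = univ.biUnion V ∪ univ.biUnion W := by
      refine subset_antisymm (biUnion_subset.2 ?_) (union_subset (biUnion_subset.2 fun i _ => ?_)
        (biUnion_subset.2 fun k _ => ?_))
      · rintro ⟨i, j⟩ -
        refine Fin.cases ?_ (fun j => ?_) j
        · exact (subset_biUnion_of_mem V (mem_univ i)).trans subset_union_left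
        · exact (subset_biUnion_of_mem W (mem_univ (i, j))).trans subset_union_right
      · exact subset_biUnion_of_mem W' (mem_univ (i, 0))
      · exact subset_biUnion_of_mem W' (mem_univ (k.1, k.2.succ))
    have hVW : ∀ i k, Disjoint (V i) (W k) := fun i k => (h9 k).mono_left (g1 i)
    refine ⟨Fin.cons c cl, W', A2, Z2, ?_, ?_, fun i j => ?_, ?_, fun l => ?_, g6.trans h6,
      h7.trans g7, ?_, ?_, fun x hx ho => ?_, ?_, fun j a b hg => ?_⟩
    · rintro ⟨i, j⟩
      refine Fin.cases ?_ (fun j => ?_) j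
      · exact (g1 i).trans h6
      · exact h1 (i, j)
    · rintro ⟨i, j⟩ ⟨i', j'⟩
      refine Fin.cases ?_ (fun j => ?_) j <;> refine Fin.cases ?_ (fun j' => ?_) j' <;> intro h
      · exact g2 (i := i) (j := i') fun e => h (by rw [e])
      · exact hVW i (i', j')
      · exact (hVW i' (i, j)).symm
      · refine h2 (i := (i, j)) (j := (i', j')) fun e => h ?_
        obtain ⟨rfl, rfl⟩ := Prod.mk.inj e
        rfl
    · refine Fin.cases ?_ (fun j => ?_) j
      · exact g3 i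
      · exact h3 i j
    · rw [hU, Nat.succ_mul]
      have := card_union_le (univ.biUnion V) (univ.biUnion W)
      omega
    · rw [hU, Nat.succ_mul]
      have := S.cnt_union_le (univ.biUnion V) (univ.biUnion W) l
      have := h5 l
      have := g5 l
      omega
    · have k1 : Z2 \ Z ⊆ Z2 \ Z1 ∪ Z1 \ Z := sdiff_triangle _ _ _
      have := (card_le_card k1).trans (card_union_le _ _)
      rw [Nat.succ_mul]
      omega
    · rintro ⟨i, j⟩
      refine Fin.cases ?_ (fun j => ?_) j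
      · exact g9 i
      · exact (h9 (i, j)).mono_left g6
    · rw [hU]
      rcases h10 x hx fun i hi => ho i (g7 hi) with h | h
      · exact (g10 x h ho).imp_right (mem_union_left _)
      · exact Or.inr (mem_union_right _ h)
    · rwa [Nat.succ_mul, ← add_assoc]
    · revert j
      refine Fin.cases ?_ fun j => ?_
      · exact g12 a b hg
      · exact h12 j a b (Gad.mono hg g6 le_rfl subset_rfl)

end Sq

end PlexX
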