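import Pool.Agent.Lib.MP_3d3eb4_co.PX.Step

/-! The finite group of row labels. -/

namespace PlexX

open Finset

theorem grp_card_type {n : ℕ} (Z : Finset (Ln n)) (i : Fin 3) :
    (univ.filter fun a : Fin n => (i, a) ∈ Z).card ≤ Z.card :=
  Finset.card_le_card_of_injOn (fun a => (i, a)) (fun _ ha => (Finset.mem_filter.1 ha).2)
    fun _ _ _ _ h => (Prod.mk.inj h).2

theorem grp_card_bij {n : ℕ} {f : Fin n → Fin n} (hf : Function.Bijective f) (p : Fin n → Prop)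
    [DecidablePred p] : (univ.filter fun a => p (f a)).card ≤ (univ.filter p).card :=
  Finset.card_le_card_of_injOn f
    (fun _ ha => Finset.mem_coe.2 (Finset.mem_filter.2 ⟨Finset.mem_univ _,
      (Finset.mem_filter.1 ha).2⟩))
    fun _ _ _ _ h => hf.1 h

theorem grp_avoid {n : ℕ} (p q r : Fin n → Prop) [DecidablePred p] [DecidablePred q]
    [DecidablePred r]
    (h : (univ.filter p).card + (univ.filter q).card + (univ.filter r).card < n) :
    ∃ z, ¬ p z ∧ ¬ q z ∧ ¬ r z := by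
  by_contra hc
  push Not at hc
  have hs : (univ : Finset (Fin n)) ⊆ univ.filter p ∪ univ.filter q ∪ univ.filter r := by
    intro z _
    simp only [Finset.mem_union, Finset.mem_filter, Finset.mem_univ, true_and]
    by_cases h1 : p z
    · exact Or.inl (Or.inl h1)
    by_cases h2 : q z
    · exact Or.inl (Or.inr h2)
    · exact Or.inr (hc z h1 h2)
  have h1 := Finset.card_le_card hs
  have h2 := Finset.card_union_le (univ.filter p ∪ univ.filter q) (univ.filter r)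
  have h3 := Finset.card_union_le (univ.filter p) (univ.filter q)
  rw [Finset.card_univ, Fintype.card_fin] at h1
  omega

theorem grp_avoid1 {n : ℕ} (p : Fin n → Prop) [DecidablePred p] (h : (univ.filter p).card < n) :
    ∃ z, ¬ p z := by
  obtain ⟨z, hz, -⟩ := grp_avoid p (fun _ => False) (fun _ => False) (by simpa using h)
  exact ⟨z, hz⟩

namespace Sq

variable {n : ℕ} (S : Sq n) {A A' : Finset (Cell n)} {Z Z' : Finset (Ln n)} {u u' : ℕ}

theorem par_live (hS : S.Sparse A Z u) (Z' : Finset (Ln n)) (hn : 3 * u + 2 * Z'.card + 10 < n)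
    {a b : Fin n} (ha : (0, a) ∉ Z) (hb : (0, b) ∉ Z) :
    ∃ a' b', (0, a') ∉ Z' ∧ (0, b') ∉ Z' ∧ pv a b - pv a' b' ∈ S.lat A := by
  obtain ⟨c, c', -, -, hg, hm⟩ := S.exists_step hS ha hb ∅ (by simp; omega)
  obtain ⟨-, -, hc, hc'⟩ := hg.live hS
  have h1 := S.card_not_good hS hc hc'
  have h2 := grp_card_type Z' 0
  have h3 := grp_card_bij (S.mv_bij c c') fun a => (0, a) ∈ Z'
  obtain ⟨z, hz1, hz2, hz3⟩ := grp_avoid (fun b => ¬ S.Good A c c' b) (fun a => (0, a) ∈ Z')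
    (fun a => (0, S.mv c c' a) ∈ Z') (by omega)
  refine ⟨S.mv c c' z, z, hz3, hz2, ?_⟩
  have := (S.quad hg (not_not.1 hz1)).mem_lat
  rwa [hm] at this

theorem exists_live_row (hS : S.Sparse A Z u) (hn : 100 * u + 1000 ≤ n) :
    ∃ a : Fin n, (0, a) ∉ Z :=
  grp_avoid1 (fun a => (0, a) ∈ Z) (by
    have h1 := grp_card_type Z 0
    have h2 := hS.cardZ
    omega)

theorem mk_eq_of_sub {v w : Ln n → ℤ} (h : v - w ∈ S.lat A) :
    (QuotientAddGroup.mk v : (Ln n → ℤ) ⧸ S.lat A) = QuotientAddGroup.mk w :=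
  QuotientAddGroup.eq_iff_sub_mem.2 h

theorem pv_mem_grp {a b : Fin n} (ha : (0, a) ∉ Z) (hb : (0, b) ∉ Z) :
    (QuotientAddGroup.mk (pv a b) : (Ln n → ℤ) ⧸ S.lat A) ∈ S.grp A Z :=
  AddSubgroup.subset_closure ⟨a, b, ha, hb, rfl⟩

theorem grp_rep (hS : S.Sparse A Z u) (hn : 100 * u + 1000 ≤ n) {g : (Ln n → ℤ) ⧸ S.lat A}
    (hg : g ∈ S.grp A Z) :
    ∃ a b, (0, a) ∉ Z ∧ (0, b) ∉ Z ∧ g = QuotientAddGroup.mk (pv a b) := by
  induction hg using AddSubgroup.closure_induction with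
  | mem x hx => exact hx
  | zero =>
    obtain ⟨a, ha⟩ := S.exists_live_row hS hn
    exact ⟨a, a, ha, ha, by rw [pv_self]; rfl⟩
  | add x y _ _ hx hy =>
    obtain ⟨a, b, ha, hb, rfl⟩ := hx
    obtain ⟨r, s, hr, hs, rfl⟩ := hy
    obtain ⟨x, y, Cs, hx, hy, -, hG⟩ := S.merge6 hS hn ha hb hr hs ∅ (by simp)
    exact ⟨x, y, hx, hy, by rw [← QuotientAddGroup.mk_add]; exact S.mk_eq_of_sub hG.mem_lat⟩
  | neg x _ hx =>
    obtain ⟨a, b, ha, hb, rfl⟩ := hx
    exact ⟨b, a, hb, ha, by rw [← QuotientAddGroup.mk_neg, pv, pv, neg_sub]⟩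

theorem grp_set_finite (hS : S.Sparse A Z u) (hn : 100 * u + 1000 ≤ n) :
    (S.grp A Z : Set ((Ln n → ℤ) ⧸ S.lat A)).Finite := by
  refine (Set.finite_range fun p : Fin n × Fin n =>
    (QuotientAddGroup.mk (pv p.1 p.2) : (Ln n → ℤ) ⧸ S.lat A)).subset fun g hg => ?_
  obtain ⟨a, b, -, -, rfl⟩ := S.grp_rep hS hn hg
  exact ⟨(a, b), rfl⟩

theorem grp_finite (hS : S.Sparse A Z u) (hn : 100 * u + 1000 ≤ n) : Finite (S.grp A Z) := by
  exact (S.grp_set_finite hS hn).to_subtype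

theorem grp_card (hS : S.Sparse A Z u) (hn : 100 * u + 1000 ≤ n) :
    Nat.card (S.grp A Z) * (n - 3 * u) ≤ n ^ 2 := by
  classical
  have hf := S.grp_set_finite hS hn
  have hc : Nat.card (S.grp A Z) = hf.toFinset.card := by
    rw [← Set.ncard_eq_toFinset_card _ hf]; rfl
  set f : Fin n × Fin n → (Ln n → ℤ) ⧸ S.lat A := fun p => QuotientAddGroup.mk (pv p.1 p.2)
    with hfd
  have key := Finset.mul_card_image_le_card_of_maps_to (f := f)
    (s := univ.filter fun p => f p ∈ hf.toFinset) (t := hf.toFinset)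
    (fun p hp => (Finset.mem_filter.1 hp).2) (n - 3 * u) (fun g hg => by
      obtain ⟨a, b, ha, hb, hab⟩ := S.grp_rep hS hn (hf.mem_toFinset.1 hg)
      obtain ⟨c, c', -, -, hgood, hm⟩ := S.exists_step hS ha hb ∅ (by simp; omega)
      obtain ⟨-, -, hc, hc'⟩ := hgood.live hS
      have h1 := S.card_not_good hS hc hc'
      have h2 := Finset.card_filter_add_card_filter_not (s := (univ : Finset (Fin n)))
        fun b => S.Good A c c' b
      rw [Finset.card_univ, Fintype.card_fin] at h2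
      refine le_trans (by omega : n - 3 * u ≤ (univ.filter fun b => S.Good A c c' b).card) ?_
      refine Finset.card_le_card_of_injOn (fun z => (S.mv c c' z, z)) (fun z hz => ?_)
        fun _ _ _ _ h => (Prod.mk.inj h).2
      have hz' : f (S.mv c c' z, z) = g := by
        have := (S.quad (Finset.mem_filter.1 hz).2 hgood).mem_lat
        rw [hm] at this
        rw [hab]
        exact S.mk_eq_of_sub this
      exact Finset.mem_coe.2 (Finset.mem_filter.2 ⟨Finset.mem_filter.2 ⟨Finset.mem_univ _,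
        by rw [hz']; exact hg⟩, hz'⟩))
  have h3 := Finset.card_filter_le (univ : Finset (Fin n × Fin n)) fun p => f p ∈ hf.toFinset
  rw [Finset.card_univ, Fintype.card_prod, Fintype.card_fin] at h3
  rw [hc, mul_comm, sq]
  exact key.trans h3

theorem grp_transfer (hS : S.Sparse A Z u) (hn : 100 * u + 1000 ≤ n) (hS' : S.Sparse A' Z' u')
    (hn' : 100 * u' + 1000 ≤ n) (hA : A' ⊆ A) (hZ : Z ⊆ Z')
    (h : Nat.card (S.grp A' Z') < 2 * Nat.card (S.grp A Z)) {a b : Fin n} (ha : (0, a) ∉ Z')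
    (hb : (0, b) ∉ Z') (hab : pv a b ∈ S.lat A) : pv a b ∈ S.lat A' := by
  have := S.grp_finite hS' hn'
  let q : (Ln n → ℤ) ⧸ S.lat A' →+ (Ln n → ℤ) ⧸ S.lat A :=
    QuotientAddGroup.map (S.lat A') (S.lat A) (AddMonoidHom.id _) fun x hx => S.lat_mono hA hx
  have hq : ∀ v, q (QuotientAddGroup.mk v) = QuotientAddGroup.mk v := fun v => rfl
  have hmem : ∀ g : S.grp A' Z', q.comp (S.grp A' Z').subtype g ∈ S.grp A Z := by
    rintro ⟨g, hg⟩
    obtain ⟨a, b, ha, hb, rfl⟩ := S.grp_rep hS' hn' hg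
    exact S.pv_mem_grp (fun h => ha (hZ h)) fun h => hb (hZ h)
  let φ : S.grp A' Z' →+ S.grp A Z := (q.comp (S.grp A' Z').subtype).codRestrict _ hmem
  have hsurj : Function.Surjective φ := by
    rintro ⟨g, hg⟩
    obtain ⟨a, b, ha, hb, rfl⟩ := S.grp_rep hS hn hg
    have := hS'.cardZ
    obtain ⟨a', b', ha', hb', hl⟩ := S.par_live hS Z' (by omega) ha hb
    exact ⟨⟨_, S.pv_mem_grp ha' hb'⟩, Subtype.ext (S.mk_eq_of_sub hl).symm⟩
  have h1 := φ.ker.card_mul_index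
  rw [AddSubgroup.index_ker, AddMonoidHom.range_eq_top.2 hsurj, AddSubgroup.card_top] at h1
  have h2 : Nat.card φ.ker < 2 := by
    by_contra h2
    have := Nat.mul_le_mul_right (Nat.card (S.grp A Z)) (not_lt.1 h2)
    omega
  have h3 : φ.ker = ⊥ := AddSubgroup.eq_bot_of_card_le _ (by omega)
  have h4 : (⟨_, S.pv_mem_grp ha hb⟩ : S.grp A' Z') ∈ φ.ker :=
    Subtype.ext ((QuotientAddGroup.eq_zero_iff _).2 hab)
  rw [h3, AddSubgroup.mem_bot] at h4
  exact (QuotientAddGroup.eq_zero_iff _).1 (congrArg Subtype.val h4)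

theorem col_mem_grp (hS : S.Sparse A Z u) (hn : 100 * u + 1000 ≤ n) {c c' : Fin n}
    (hc : (1, c) ∉ Z) (hc' : (1, c') ∉ Z) :
    (QuotientAddGroup.mk (Pi.single (1, c) 1 - Pi.single (1, c') 1) : (Ln n → ℤ) ⧸ S.lat A) ∈
      S.grp A Z := by
  have h12 : (1 : Fin 3) ≠ 2 := by decide
  have h1 := S.card_not_both hS h12 hc hc'
  obtain ⟨s, hs⟩ := grp_avoid1 (fun s => ¬ (S.pt 1 2 c s ∈ A ∧ S.pt 1 2 c' s ∈ A)) (by omega)
  obtain ⟨hx, hx'⟩ := not_not.1 hs
  rw [S.mk_eq_of_sub (w := pv (S.co 0 (S.pt 1 2 c' s)) (S.co 0 (S.pt 1 2 c s))) ?_]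
  · exact S.pv_mem_grp (hS.off _ hx' 0) (hS.off _ hx 0)
  · have := sub_mem (S.vec_mem_lat hx) (S.vec_mem_lat hx')
    rw [vec_eq, vec_eq, S.co_pt_fst h12, S.co_pt_fst h12, S.co_pt_snd h12, S.co_pt_snd h12] at this
    convert this using 1
    rw [pv, er, er]
    abel

theorem sym_mem_grp (hS : S.Sparse A Z u) (hn : 100 * u + 1000 ≤ n) {c c' : Fin n}
    (hc : (2, c) ∉ Z) (hc' : (2, c') ∉ Z) :
    (QuotientAddGroup.mk (Pi.single (2, c) 1 - Pi.single (2, c') 1) : (Ln n → ℤ) ⧸ S.lat A) ∈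
      S.grp A Z := by
  have h12 : (2 : Fin 3) ≠ 1 := by decide
  have h1 := S.card_not_both hS h12 hc hc'
  obtain ⟨s, hs⟩ := grp_avoid1 (fun s => ¬ (S.pt 2 1 c s ∈ A ∧ S.pt 2 1 c' s ∈ A)) (by omega)
  obtain ⟨hx, hx'⟩ := not_not.1 hs
  rw [S.mk_eq_of_sub (w := pv (S.co 0 (S.pt 2 1 c' s)) (S.co 0 (S.pt 2 1 c s))) ?_]
  · exact S.pv_mem_grp (hS.off _ hx' 0) (hS.off _ hx 0)
  · have := sub_mem (S.vec_mem_lat hx) (S.vec_mem_lat hx')
    rw [vec_eq, vec_eq, S.co_pt_fst h12, S.co_pt_fst h12, S.co_pt_snd h12, S.co_pt_snd h12] at this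
    convert this using 1
    rw [pv, er, er]
    abel

theorem exists_lab (hS : S.Sparse A Z u) (hn : 100 * u + 1000 ≤ n) :
    ∃ lab : Ln n → S.grp A Z, (∀ x ∈ A, S.df lab x = 0) ∧
      (∀ g, ∃ a b, (0, a) ∉ Z ∧ (0, b) ∉ Z ∧ g = lab (0, a) - lab (0, b)) ∧
      ∀ a b, (0, a) ∉ Z → (0, b) ∉ Z → lab (0, a) = lab (0, b) → pv a b ∈ S.lat A := by
  obtain ⟨r, hr⟩ := S.exists_live_row hS hn
  have h01 : (0 : Fin 3) ≠ 1 := by decide
  have h1 := S.card_not_both hS h01 hr hr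
  obtain ⟨c, hc⟩ := grp_avoid1 (fun s => ¬ (S.pt 0 1 r s ∈ A ∧ S.pt 0 1 r s ∈ A)) (by omega)
  obtain ⟨x₀, hx₀⟩ : ∃ x, x ∈ A := ⟨_, (not_not.1 hc).1⟩
  let w : Ln n → Ln n → ℤ := fun l => Pi.single l 1 - Pi.single (l.1, S.co l.1 x₀) 1
  have hw : ∀ l, l ∉ Z → (QuotientAddGroup.mk (w l) : (Ln n → ℤ) ⧸ S.lat A) ∈ S.grp A Z := by
    rintro ⟨i, a⟩ hl
    fin_cases i
    · exact S.pv_mem_grp hl (hS.off _ hx₀ 0)
    · exact S.col_mem_grp hS hn hl (hS.off _ hx₀ 1)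
    · exact S.sym_mem_grp hS hn hl (hS.off _ hx₀ 2)
  let lab : Ln n → S.grp A Z := fun l => if h : l ∉ Z then ⟨_, hw l h⟩ else 0
  have hlab : ∀ l, l ∉ Z → (lab l : (Ln n → ℤ) ⧸ S.lat A) = QuotientAddGroup.mk (w l) :=
    fun l h => by simp only [lab, dif_pos h]
  have hpv : ∀ a b, (0, a) ∉ Z → (0, b) ∉ Z →
      ((lab (0, a) - lab (0, b) : S.grp A Z) : (Ln n → ℤ) ⧸ S.lat A) =
        QuotientAddGroup.mk (pv a b) := by
    intro a b ha hb
    rw [AddSubgroup.coe_sub, hlab _ ha, hlab _ hb, ← QuotientAddGroup.mk_sub]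
    congr 1
    simp only [w, pv, er]
    abel
  refine ⟨lab, fun x hx => Subtype.ext ?_, fun g => ?_, fun a b ha hb h => ?_⟩
  · rw [df, AddSubgroup.coe_add, AddSubgroup.coe_add, hlab _ (hS.off _ hx 0),
      hlab _ (hS.off _ hx 1), hlab _ (hS.off _ hx 2), ← QuotientAddGroup.mk_add,
      ← QuotientAddGroup.mk_add]
    refine (QuotientAddGroup.eq_zero_iff _).2 ?_
    have := sub_mem (S.vec_mem_lat hx) (S.vec_mem_lat hx₀)
    rw [vec_eq, vec_eq] at this
    convert this using 1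
    simp only [w]
    abel
  · obtain ⟨a, b, ha, hb, hg⟩ := S.grp_rep hS hn g.2
    exact ⟨a, b, ha, hb, Subtype.ext (hg.trans (hpv a b ha hb).symm)⟩
  · have := hpv a b ha hb
    rw [h, sub_self] at this
    exact (QuotientAddGroup.eq_zero_iff _).1 this.symm

end Sq

end PlexX
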