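import Pool.Agent.Lib.MP_3d3eb4_co.PX.Step

/-! One move that lowers the discrepancy. -/

namespace PlexX

open Finset

namespace Mv

variable {n : ℕ}

theorem pot_single (D : Ln n → ℤ) (l : Ln n) (e : ℤ) :
    pot (D + Pi.single l e) + 2 ^ l.1.val * (D l).natAbs =
      pot D + 2 ^ l.1.val * (D l + e).natAbs := by
  unfold pot
  rw [← Finset.add_sum_erase _ _ (mem_univ l), ← Finset.add_sum_erase _ _ (mem_univ l)]
  have : ∑ x ∈ univ.erase l, 2 ^ x.1.val * ((D + Pi.single l e : Ln n → ℤ) x).natAbs =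
      ∑ x ∈ univ.erase l, 2 ^ x.1.val * (D x).natAbs :=
    Finset.sum_congr rfl fun x hx => by
      rw [Pi.add_apply, Pi.single_eq_of_ne (ne_of_mem_erase hx), add_zero]
  rw [this, Pi.add_apply, Pi.single_eq_same]
  ring

theorem pot_add_neg {D : Ln n → ℤ} {l : Ln n} (h : D l < 0) :
    pot (D + Pi.single l 1) + 2 ^ l.1.val = pot D := by
  have h1 := pot_single D l 1
  have h2 : (D l).natAbs = (D l + 1).natAbs + 1 := by omega
  rw [h2, mul_add, mul_one] at h1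
  omega

theorem pot_sub_pos {D : Ln n → ℤ} {l : Ln n} (h : 0 < D l) :
    pot (D - Pi.single l 1) + 2 ^ l.1.val = pot D := by
  have h1 := pot_single D l (-1)
  have h2 : (D l).natAbs = (D l + -1).natAbs + 1 := by omega
  rw [h2, mul_add, mul_one, Pi.single_neg, ← sub_eq_add_neg] at h1
  omega

theorem pot_add_le (D : Ln n → ℤ) (l : Ln n) :
    pot (D + Pi.single l 1) ≤ pot D + 2 ^ l.1.val := by
  have h1 := pot_single D l 1
  have h2 : (D l + 1).natAbs ≤ (D l).natAbs + 1 := by omega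
  have h3 := Nat.mul_le_mul_left (2 ^ l.1.val) h2
  rw [mul_add, mul_one] at h3
  omega

theorem pot_sub_le (D : Ln n → ℤ) (l : Ln n) :
    pot (D - Pi.single l 1) ≤ pot D + 2 ^ l.1.val := by
  have h1 := pot_single D l (-1)
  have h2 : (D l + -1).natAbs ≤ (D l).natAbs + 1 := by omega
  have h3 := Nat.mul_le_mul_left (2 ^ l.1.val) h2
  rw [mul_add, mul_one] at h3
  rw [Pi.single_neg, ← sub_eq_add_neg] at h1
  omega

theorem pick {α : Type} [DecidableEq α] (L : List (Finset α)) (T : Finset α)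
    (h : (L.map card).sum < T.card) : ∃ s ∈ T, ∀ B ∈ L, s ∉ B := by
  induction L generalizing T with
  | nil =>
    obtain ⟨s, hs⟩ := card_pos.1 (show 0 < T.card by simpa using h)
    exact ⟨s, hs, by simp⟩
  | cons B L ih =>
    rw [List.map_cons, List.sum_cons] at h
    have := le_card_sdiff B T
    obtain ⟨s, hs, hs'⟩ := ih (T \ B) (by omega)
    refine ⟨s, (mem_sdiff.1 hs).1, fun C hC => ?_⟩
    rcases List.mem_cons.1 hC with rfl | hC
    · exact (mem_sdiff.1 hs).2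
    · exact hs' C hC

/-- parameters whose line of type `i` is heavy -/
def bH (Hv : Finset (Ln n)) (i : Fin 3) (f : Fin n → Fin n) : Finset (Fin n) :=
  univ.filter fun s => (i, f s) ∈ Hv

/-- parameters whose cell has been changed -/
def bC (Ch : Finset (Cell n)) (p : Fin n → Cell n) : Finset (Fin n) :=
  univ.filter fun s => p s ∈ Ch

/-- parameters with a given value -/
def bG (f : Fin n → Fin n) (g : Fin n) : Finset (Fin n) := univ.filter fun s => f s = g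

theorem mem_bH {Hv : Finset (Ln n)} {i : Fin 3} {f : Fin n → Fin n} {s : Fin n} :
    s ∈ bH Hv i f ↔ (i, f s) ∈ Hv := by simp [bH]

theorem mem_bC {Ch : Finset (Cell n)} {p : Fin n → Cell n} {s : Fin n} :
    s ∈ bC Ch p ↔ p s ∈ Ch := by simp [bC]

theorem mem_bG {f : Fin n → Fin n} {g s : Fin n} : s ∈ bG f g ↔ f s = g := by simp [bG]

theorem card_bH {Hv : Finset (Ln n)} {y : ℕ} (h : Hv.card ≤ y) (i : Fin 3) {f : Fin n → Fin n}
    (hf : Function.Injective f) : (bH Hv i f).card ≤ y :=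
  (card_le_card_of_injOn (fun s => (i, f s)) (fun _ hs => mem_bH.1 hs)
    fun _ _ _ _ e => hf (Prod.mk.inj e).2).trans h

theorem card_bC {S : Sq n} {Ch : Finset (Cell n)} {b : ℕ} (h : ∀ l, S.cnt Ch l ≤ b)
    {p : Fin n → Cell n} (hp : Function.Injective p) (i : Fin 3) (a : Fin n)
    (hl : ∀ s, S.co i (p s) = a) : (bC Ch p).card ≤ b :=
  (card_le_card_of_injOn p (fun s hs => mem_filter.2 ⟨mem_bC.1 hs, hl s⟩)
    fun _ _ _ _ e => hp e).trans (h (i, a))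

theorem card_bG {f : Fin n → Fin n} (hf : Function.Injective f) (g : Fin n) :
    (bG f g).card ≤ 1 :=
  card_le_one.2 fun _ ha _ hb => hf ((mem_bG.1 ha).trans (mem_bG.1 hb).symm)

theorem vec_of {S : Sq n} {Hv : Finset (Ln n)} {x : Cell n} (i : Fin 3)
    (h : ∀ j, j ≠ i → (j, S.co j x) ∉ Hv) {l : Ln n} (hl : l ∈ Hv) :
    S.vec x l = (Pi.single (i, S.co i x) 1 : Ln n → ℤ) l := by
  obtain ⟨j, a⟩ := l
  rw [Sq.vec, Pi.single_apply]
  by_cases hj : j = i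
  · subst hj
    simp [eq_comm]
  · rw [if_neg fun e : S.co j x = a => h j hj (e ▸ hl), if_neg fun e => hj (Prod.mk.inj e).1]

theorem vec_zero {S : Sq n} {Hv : Finset (Ln n)} {x : Cell n} (h0 : (0, S.co 0 x) ∉ Hv)
    (h1 : (1, S.co 1 x) ∉ Hv) (h2 : (2, S.co 2 x) ∉ Hv) {l : Ln n} (hl : l ∈ Hv) :
    S.vec x l = 0 := by
  obtain ⟨j, a⟩ := l
  refine if_neg fun e : S.co j x = a => ?_
  subst e
  fin_cases j
  exacts [h0 hl, h1 hl, h2 hl]

theorem vec0 {S : Sq n} {Hv : Finset (Ln n)} {x : Cell n} (h1 : (1, S.co 1 x) ∉ Hv)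
    (h2 : (2, S.co 2 x) ∉ Hv) {l : Ln n} (hl : l ∈ Hv) :
    S.vec x l = (Pi.single (0, S.co 0 x) 1 : Ln n → ℤ) l :=
  vec_of 0 (fun j hj => by
    fin_cases j
    exacts [absurd rfl hj, h1, h2]) hl

theorem vec1 {S : Sq n} {Hv : Finset (Ln n)} {x : Cell n} (h0 : (0, S.co 0 x) ∉ Hv)
    (h2 : (2, S.co 2 x) ∉ Hv) {l : Ln n} (hl : l ∈ Hv) :
    S.vec x l = (Pi.single (1, S.co 1 x) 1 : Ln n → ℤ) l :=
  vec_of 1 (fun j hj => by
    fin_cases j
    exacts [h0, absurd rfl hj, h2]) hl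

theorem vec2 {S : Sq n} {Hv : Finset (Ln n)} {x : Cell n} (h0 : (0, S.co 0 x) ∉ Hv)
    (h1 : (1, S.co 1 x) ∉ Hv) {l : Ln n} (hl : l ∈ Hv) :
    S.vec x l = (Pi.single (2, S.co 2 x) 1 : Ln n → ℤ) l :=
  vec_of 2 (fun j hj => by
    fin_cases j
    exacts [h0, h1, absurd rfl hj]) hl

theorem single_le {D : Ln n → ℤ} {l₀ : Ln n} (h : 0 < D l₀) (l : Ln n) :
    (Pi.single l₀ 1 : Ln n → ℤ) l ≤ max (D l) 0 := by
  rw [Pi.single_apply]
  split_ifs with e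
  · subst e
    exact le_max_of_le_left h
  · exact le_max_right _ _

theorem single_le2 {D : Ln n → ℤ} {l₀ l₁ : Ln n} (h : 0 < D l₀)
    (h' : 0 < D l₁ - (Pi.single l₀ 1 : Ln n → ℤ) l₁) (l : Ln n) :
    (Pi.single l₀ 1 : Ln n → ℤ) l + (Pi.single l₁ 1 : Ln n → ℤ) l ≤ max (D l) 0 := by
  by_cases e : l = l₁
  · subst e
    rw [Pi.single_eq_same]
    exact le_max_of_le_left (by omega)
  · rw [Pi.single_eq_of_ne e, add_zero]
    exact single_le h l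

theorem deg_one (S : Sq n) (x : Cell n) : S.deg {x} = S.vec x := Finset.sum_singleton _ _

theorem deg_four (S : Sq n) {x₁ x₂ x₃ x₄ : Cell n} (h12 : S.co 1 x₁ ≠ S.co 1 x₂)
    (h13 : S.co 1 x₁ ≠ S.co 1 x₃) (h14 : S.co 1 x₁ ≠ S.co 1 x₄) (h23 : S.co 1 x₂ ≠ S.co 1 x₃)
    (h24 : S.co 1 x₂ ≠ S.co 1 x₄) (h34 : S.co 1 x₃ ≠ S.co 1 x₄) :
    S.deg {x₁, x₂, x₃, x₄} = S.vec x₁ + S.vec x₂ + S.vec x₃ + S.vec x₄ := by
  have e12 : x₁ ≠ x₂ := fun e => h12 (by rw [e])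
  have e13 : x₁ ≠ x₃ := fun e => h13 (by rw [e])
  have e14 : x₁ ≠ x₄ := fun e => h14 (by rw [e])
  have e23 : x₂ ≠ x₃ := fun e => h23 (by rw [e])
  have e24 : x₂ ≠ x₄ := fun e => h24 (by rw [e])
  have e34 : x₃ ≠ x₄ := fun e => h34 (by rw [e])
  rw [Sq.deg, sum_insert (by simp [e12, e13, e14]), sum_insert (by simp [e23, e24]),
    sum_pair e34]
  abel

theorem exists_pos_neg {f : Fin n → ℤ} (h : ∑ a, f a = 0) {a : Fin n} (ha : f a ≠ 0) :
    (∃ p, 0 < f p) ∧ ∃ q, f q < 0 := by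
  constructor
  · by_contra hp
    simp only [not_exists, not_lt] at hp
    exact ha ((sum_eq_zero_iff_of_nonpos fun i _ => hp i).1 h a (mem_univ a))
  · by_contra hp
    simp only [not_exists, not_lt] at hp
    exact ha ((sum_eq_zero_iff_of_nonneg fun i _ => hp i).1 h a (mem_univ a))

/-- the conclusion of the move lemma -/
def Res (S : Sq n) (Fi Fo Ch : Finset (Cell n)) (Hv : Finset (Ln n)) (D : Ln n → ℤ) : Prop :=
  ∃ gp gm : Finset (Cell n), gp ⊆ Fi \ Ch ∧ gm ⊆ Fo \ Ch ∧ gp.card + gm.card ≤ 8 ∧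
    (∀ l ∈ Hv, (S.cnt gp l : ℤ) ≤ max (D l) 0 ∧ (S.cnt gm l : ℤ) ≤ max (-D l) 0) ∧
    pot (D - S.deg gp + S.deg gm) < pot D

variable {S : Sq n} {Z : Finset (Ln n)} {Fi Fo Ch : Finset (Cell n)} {Hv : Finset (Ln n)}
  {c b y : ℕ} {D : Ln n → ℤ}

theorem one_cell {F : Finset (Cell n)} {s : Fin n} (hF : c ≤ S.cnt F (2, s))
    (hc : 8 * (b + y) + 8 < c) (hHv : Hv.card ≤ y) (hCh : ∀ l, S.cnt Ch l ≤ b) :
    ∃ x ∈ F \ Ch, S.co 2 x = s ∧ (0, S.co 0 x) ∉ Hv ∧ (1, S.co 1 x) ∉ Hv := by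
  rw [S.cnt_eq_card (show (2 : Fin 3) ≠ 0 by decide)] at hF
  have h1 := card_bC hCh (S.pt_inj (show (2 : Fin 3) ≠ 0 by decide) s) 2 s
    (S.co_pt_fst (by decide) s)
  have h2 := card_bH hHv 0 (S.co_pt_bij (i := 2) (j := 0) (k := 0) (by decide) (by decide) s).1
  have h3 := card_bH hHv 1 (S.co_pt_bij (i := 2) (j := 0) (k := 1) (by decide) (by decide) s).1
  obtain ⟨a, ha, hB⟩ := pick [_, _, _] _ (lt_of_lt_of_le (by
    simp only [List.map_cons, List.map_nil, List.sum_cons, List.sum_nil]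
    exact lt_of_le_of_lt (add_le_add h1 (add_le_add h2 (add_le_add h3 le_rfl))) (by omega)) hF)
  simp only [List.mem_cons, List.not_mem_nil, or_false, forall_eq_or_imp, forall_eq, mem_bH,
    mem_bC] at hB
  exact ⟨_, mem_sdiff.2 ⟨(mem_filter.1 ha).2, hB.1⟩, S.co_pt_fst (by decide) _ _, hB.2⟩

theorem caseS (hR : S.Rich Z Fi Fo c) (hc : 8 * (b + y) + 8 < c) (hZ : ∀ z ∈ Z, D z = 0)
    (hHv : Hv.card ≤ y) (hCh : ∀ l, S.cnt Ch l ≤ b) {s : Fin n} (hs : D (2, s) ≠ 0) :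
    Res S Fi Fo Ch Hv D := by
  have hl := hR.one (2, s) fun h => hs (hZ _ h)
  rcases lt_or_gt_of_ne hs with h | h
  · obtain ⟨x, hx, rfl, h0, h1⟩ := one_cell hl.2 hc hHv hCh
    refine ⟨∅, {x}, empty_subset _, singleton_subset_iff.2 hx, by simp, fun l hl => ⟨?_, ?_⟩, ?_⟩
    · rw [← S.deg_apply, S.deg_empty]
      exact le_max_right _ _
    · rw [← S.deg_apply, deg_one, vec2 h0 h1 hl]
      exact single_le (D := -D) (neg_pos.2 h) l
    · have e : D - S.deg ∅ + S.deg {x} = D + Pi.single (2, S.co 2 x) 1 +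
          Pi.single (0, S.co 0 x) 1 + Pi.single (1, S.co 1 x) 1 := by
        rw [deg_one, S.deg_empty, S.vec_eq]
        abel
      have a1 := pot_add_neg h
      have a2 := pot_add_le (D + Pi.single (2, S.co 2 x) 1) (0, S.co 0 x)
      have a3 := pot_add_le (D + Pi.single (2, S.co 2 x) 1 + Pi.single (0, S.co 0 x) 1)
        (1, S.co 1 x)
      rw [e]
      simp only [Fin.isValue, Fin.val_zero, Fin.val_one, Fin.val_two] at a1 a2 a3
      omega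
  · obtain ⟨x, hx, rfl, h0, h1⟩ := one_cell hl.1 hc hHv hCh
    refine ⟨{x}, ∅, singleton_subset_iff.2 hx, empty_subset _, by simp, fun l hl => ⟨?_, ?_⟩, ?_⟩
    · rw [← S.deg_apply, deg_one, vec2 h0 h1 hl]
      exact single_le h l
    · rw [← S.deg_apply, S.deg_empty]
      exact le_max_right _ _
    · have e : D - S.deg {x} + S.deg ∅ = D - Pi.single (2, S.co 2 x) 1 -
          Pi.single (0, S.co 0 x) 1 - Pi.single (1, S.co 1 x) 1 := by
        rw [deg_one, S.deg_empty, S.vec_eq]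
        abel
      have a1 := pot_sub_pos h
      have a2 := pot_sub_le (D - Pi.single (2, S.co 2 x) 1) (0, S.co 0 x)
      have a3 := pot_sub_le (D - Pi.single (2, S.co 2 x) 1 - Pi.single (0, S.co 0 x) 1)
        (1, S.co 1 x)
      rw [e]
      simp only [Fin.isValue, Fin.val_zero, Fin.val_one, Fin.val_two] at a1 a2 a3
      omega

/-- two cells with the same symbol on two lines of type `i`, the other lines being light and
different from two given lines -/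
theorem two_cells (hR : S.Rich Z Fi Fo c) (hc : 8 * (b + y) + 8 < c) (hHv : Hv.card ≤ y)
    (hCh : ∀ l, S.cnt Ch l ≤ b) {i k : Fin 3} (hi : i ≠ 2) (hk : i ≠ k) {p q : Fin n}
    (hpq : p ≠ q) (hp : (i, p) ∉ Z) (hq : (i, q) ∉ Z) (g g' : Fin n) :
    ∃ x ∈ Fi \ Ch, ∃ x' ∈ Fo \ Ch, S.co i x = p ∧ S.co i x' = q ∧ S.co 2 x' = S.co 2 x ∧
      (2, S.co 2 x) ∉ Hv ∧ (k, S.co k x) ∉ Hv ∧ (k, S.co k x') ∉ Hv ∧
      S.co k x ≠ g ∧ S.co k x ≠ g' ∧ S.co k x' ≠ g ∧ S.co k x' ≠ g' := by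
  have hF := hR.two i p q hi hpq hp hq
  have ip := (S.co_pt_bij hi hk p).1
  have iq := (S.co_pt_bij hi hk q).1
  have h1 := card_bC hCh (S.pt_inj hi p) i p (S.co_pt_fst hi p)
  have h2 := card_bC hCh (S.pt_inj hi q) i q (S.co_pt_fst hi q)
  have h3 := card_bH hHv 2 (S.co_pt_bij hi hi p).1
  have h4 := card_bH hHv k ip
  have h5 := card_bH hHv k iq
  have h6 := card_bG ip g
  have h7 := card_bG ip g'
  have h8 := card_bG iq g
  have h9 := card_bG iq g'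
  obtain ⟨s, hs, hB⟩ := pick [_, _, _, _, _, _, _, _, _] _ (lt_of_lt_of_le (by
    simp only [List.map_cons, List.map_nil, List.sum_cons, List.sum_nil]
    exact lt_of_le_of_lt (add_le_add h1 (add_le_add h2 (add_le_add h3 (add_le_add h4
      (add_le_add h5 (add_le_add h6 (add_le_add h7 (add_le_add h8 (add_le_add h9 le_rfl)))))))))
      (by omega)) hF)
  simp only [List.mem_cons, List.not_mem_nil, or_false, forall_eq_or_imp, forall_eq, mem_bH,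
    mem_bC, mem_bG] at hB
  obtain ⟨b1, b2, b3⟩ := hB
  exact ⟨_, mem_sdiff.2 ⟨(mem_filter.1 hs).2.1, b1⟩, _, mem_sdiff.2 ⟨(mem_filter.1 hs).2.2, b2⟩,
    S.co_pt_fst hi _ _, S.co_pt_fst hi _ _,
    (S.co_pt_snd hi _ _).trans (S.co_pt_snd hi _ _).symm, b3⟩

theorem caseC (hR : S.Rich Z Fi Fo c) (hc : 8 * (b + y) + 8 < c) (hZ : ∀ z ∈ Z, D z = 0)
    (hHv : Hv.card ≤ y) (hCh : ∀ l, S.cnt Ch l ≤ b) {p q : Fin n} (hp : 0 < D (1, p))
    (hq : D (1, q) < 0) : Res S Fi Fo Ch Hv D := by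
  have hpq : p ≠ q := by
    rintro rfl
    omega
  obtain ⟨x, hx, x', hx', rfl, rfl, e2, s2, r, r', -⟩ := two_cells hR hc hHv hCh (i := 1) (k := 0)
    (by decide) (by decide) hpq (fun h => hp.ne' (hZ _ h)) (fun h => hq.ne (hZ _ h)) p p
  refine ⟨{x}, {x'}, singleton_subset_iff.2 hx, singleton_subset_iff.2 hx', by simp,
    fun l hl => ⟨?_, ?_⟩, ?_⟩
  · rw [← S.deg_apply, deg_one, vec1 r s2 hl]
    exact single_le hp l
  · rw [← S.deg_apply, deg_one, vec1 r' (e2 ▸ s2) hl]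
    exact single_le (D := -D) (neg_pos.2 hq) l
  · have e : D - S.deg {x} + S.deg {x'} = D - Pi.single (1, S.co 1 x) 1 +
        Pi.single (1, S.co 1 x') 1 - Pi.single (0, S.co 0 x) 1 + Pi.single (0, S.co 0 x') 1 := by
      rw [deg_one, deg_one, S.vec_eq, S.vec_eq, e2]
      abel
    have a1 := pot_sub_pos hp
    have a2 := pot_add_neg (D := D - Pi.single (1, S.co 1 x) 1) (l := (1, S.co 1 x')) (by
      rw [Pi.sub_apply, Pi.single_eq_of_ne fun e => hpq (Prod.mk.inj e).2.symm, sub_zero]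
      exact hq)
    have a3 := pot_sub_le (D - Pi.single (1, S.co 1 x) 1 + Pi.single (1, S.co 1 x') 1)
      (0, S.co 0 x)
    have a4 := pot_add_le (D - Pi.single (1, S.co 1 x) 1 + Pi.single (1, S.co 1 x') 1 -
      Pi.single (0, S.co 0 x) 1) (0, S.co 0 x')
    rw [e]
    simp only [Fin.isValue, Fin.val_zero, Fin.val_one] at a1 a2 a3 a4
    omega

theorem four_cells (hR : S.Rich Z Fi Fo c) (hc : 8 * (b + y) + 8 < c) (hHv : Hv.card ≤ y)
    (hCh : ∀ l, S.cnt Ch l ≤ b) {c₁ c₂ c₃ c₄ : Fin n} (h12 : c₁ ≠ c₂) (h13 : c₁ ≠ c₃)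
    (h14 : c₁ ≠ c₄) (h23 : c₂ ≠ c₃) (h24 : c₂ ≠ c₄) (h34 : c₃ ≠ c₄) (l1 : (1, c₁) ∉ Z)
    (l2 : (1, c₂) ∉ Z) (l3 : (1, c₃) ∉ Z) (l4 : (1, c₄) ∉ Z) :
    ∃ x₂ ∈ Fi \ Ch, ∃ x₄ ∈ Fi \ Ch, ∃ x₁ ∈ Fo \ Ch, ∃ x₃ ∈ Fo \ Ch,
      S.co 1 x₁ = c₁ ∧ S.co 1 x₂ = c₂ ∧ S.co 1 x₃ = c₃ ∧ S.co 1 x₄ = c₄ ∧
      S.co 0 x₃ = S.co 0 x₂ ∧ S.co 2 x₁ = S.co 2 x₂ ∧ S.co 2 x₄ = S.co 2 x₃ ∧
      (0, S.co 0 x₂) ∉ Hv ∧ (0, S.co 0 x₁) ∉ Hv ∧ (0, S.co 0 x₄) ∉ Hv ∧
      (2, S.co 2 x₂) ∉ Hv ∧ (2, S.co 2 x₃) ∉ Hv := by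
  have hF := hR.four c₁ c₂ c₃ c₄ h12 h13 h14 h23 h24 h34 l1 l2 l3 l4
  have h1 := card_bC hCh (S.src_inj c₂) 1 c₂ (S.co1_src c₂)
  have h2 := card_bC hCh (S.tgt_inj c₄ c₃) 1 c₄ (S.co1_tgt c₄ c₃)
  have h3 := card_bC hCh (S.tgt_inj c₁ c₂) 1 c₁ (S.co1_tgt c₁ c₂)
  have h4 := card_bC hCh (S.src_inj c₃) 1 c₃ (S.co1_src c₃)
  have h5 := card_bH hHv 0 (Function.injective_id (α := Fin n))
  have h6 := card_bH hHv 0 (S.mv_bij c₁ c₂).1
  have h7 := card_bH hHv 0 (S.mv_bij c₄ c₃).1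
  have h8 := card_bH hHv 2 (S.co2_src_bij c₂).1
  have h9 := card_bH hHv 2 (S.co2_src_bij c₃).1
  obtain ⟨s, hs, hB⟩ := pick [_, _, _, _, _, _, _, _, _] _ (lt_of_lt_of_le (by
    simp only [List.map_cons, List.map_nil, List.sum_cons, List.sum_nil]
    exact lt_of_le_of_lt (add_le_add h1 (add_le_add h2 (add_le_add h3 (add_le_add h4
      (add_le_add h5 (add_le_add h6 (add_le_add h7 (add_le_add h8 (add_le_add h9 le_rfl)))))))))
      (by omega)) hF)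
  simp only [List.mem_cons, List.not_mem_nil, or_false, forall_eq_or_imp, forall_eq, mem_bH,
    mem_bC, id] at hB
  obtain ⟨b1, b2, b3, b4, b5, b6⟩ := hB
  obtain ⟨f1, f2, f3, f4⟩ := (mem_filter.1 hs).2
  exact ⟨_, mem_sdiff.2 ⟨f1, b1⟩, _, mem_sdiff.2 ⟨f4, b2⟩, _, mem_sdiff.2 ⟨f2, b3⟩, _,
    mem_sdiff.2 ⟨f3, b4⟩, S.co1_tgt _ _ _, S.co1_src _ _, S.co1_src _ _, S.co1_tgt _ _ _,
    (S.co0_src _ _).trans (S.co0_src _ _).symm, S.co2_tgt _ _ _, S.co2_tgt _ _ _,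
    by rwa [S.co0_src], b6⟩

theorem caseR (hR : S.Rich Z Fi Fo c) (hc : 8 * (b + y) + 8 < c)
    (hoff : ∀ x ∈ Fi ∪ Fo, S.Off Z x) (hZ : ∀ z ∈ Z, D z = 0) (hHv : Hv.card ≤ y)
    (hCh : ∀ l, S.cnt Ch l ≤ b) {p q r t : Fin n} (hp : 0 < D (0, p)) (hq : D (0, q) < 0)
    (hr : 0 < (D - pv p q) (0, r)) (ht : (D - pv p q) (0, t) < 0) : Res S Fi Fo Ch Hv D := by
  have hpq : p ≠ q := by
    rintro rfl
    omega
  have hrt : r ≠ t := by
    rintro rfl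
    omega
  have ev : ∀ a, (D - pv p q) (0, a) = D (0, a) - (Pi.single (0, p) 1 : Ln n → ℤ) (0, a) +
      (Pi.single (0, q) 1 : Ln n → ℤ) (0, a) := fun a => by
    simp only [pv, er, Pi.sub_apply]
    ring
  have hr' : 0 < D (0, r) - (Pi.single (0, p) 1 : Ln n → ℤ) (0, r) := by
    rw [ev] at hr
    simp only [Pi.single_apply, Prod.mk.injEq, true_and] at hr ⊢
    split_ifs at hr ⊢ <;> subst_vars <;> omega
  have ht' : 0 < -D (0, t) - (Pi.single (0, q) 1 : Ln n → ℤ) (0, t) := by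
    rw [ev] at ht
    simp only [Pi.single_apply, Prod.mk.injEq, true_and] at ht ⊢
    split_ifs at ht ⊢ <;> subst_vars <;> omega
  have hr0 : D (0, r) ≠ 0 := by
    simp only [Pi.single_apply] at hr'
    split_ifs at hr' <;> omega
  have ht0 : D (0, t) ≠ 0 := by
    simp only [Pi.single_apply] at ht'
    split_ifs at ht' <;> omega
  obtain ⟨x, hx, x', hx', rfl, rfl, e2, s2, k, k', -⟩ := two_cells hR hc hHv hCh (i := 0) (k := 1)
    (by decide) (by decide) hpq (fun h => hp.ne' (hZ _ h)) (fun h => hq.ne (hZ _ h)) p p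
  obtain ⟨z, hz, z', hz', rfl, rfl, f2, t2, m, m', n1, n2, n3, n4⟩ := two_cells hR hc hHv hCh
    (i := 0) (k := 1) (by decide) (by decide) hrt (fun h => hr0 (hZ _ h)) (fun h => ht0 (hZ _ h))
    (S.co 1 x) (S.co 1 x')
  have n5 : S.co 1 x ≠ S.co 1 x' := fun e =>
    hpq (by rw [S.ext2 (show (1 : Fin 3) ≠ 2 by decide) e e2.symm])
  have n6 : S.co 1 z ≠ S.co 1 z' := fun e =>
    hrt (by rw [S.ext2 (show (1 : Fin 3) ≠ 2 by decide) e f2.symm])
  obtain ⟨x₂, h₂, x₄, h₄, x₁, h₁, x₃, h₃, c1, c2, c3, c4, g0, g1, g2, v1, v2, v3, v4, v5⟩ :=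
    four_cells hR hc hHv hCh n5 n1.symm n3.symm n2.symm n4.symm n6
      (hoff x (mem_union_left _ (mem_sdiff.1 hx).1) 1)
      (hoff x' (mem_union_right _ (mem_sdiff.1 hx').1) 1)
      (hoff z (mem_union_left _ (mem_sdiff.1 hz).1) 1)
      (hoff z' (mem_union_right _ (mem_sdiff.1 hz').1) 1)
  have dp : S.deg {x, z, x₂, x₄} = S.vec x + S.vec z + S.vec x₂ + S.vec x₄ :=
    deg_four S n1.symm (c2 ▸ n5) (c4 ▸ n3.symm) (c2 ▸ n2) (c4 ▸ n6) (by rw [c2, c4]; exact n4.symm)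
  have dm : S.deg {x', z', x₁, x₃} = S.vec x' + S.vec z' + S.vec x₁ + S.vec x₃ :=
    deg_four S n4.symm (c1 ▸ n5.symm) (c3 ▸ n2.symm) (c1 ▸ n3) (c3 ▸ n6.symm)
      (by rw [c1, c3]; exact n1.symm)
  refine ⟨{x, z, x₂, x₄}, {x', z', x₁, x₃}, ?_, ?_, add_le_add card_le_four card_le_four,
    fun l hl => ⟨?_, ?_⟩, ?_⟩
  · exact insert_subset hx (insert_subset hz (insert_subset h₂ (singleton_subset_iff.2 h₄)))
  · exact insert_subset hx' (insert_subset hz' (insert_subset h₁ (singleton_subset_iff.2 h₃)))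
  · rw [← S.deg_apply, dp]
    simp only [Pi.add_apply]
    rw [vec0 k s2 hl, vec0 m t2 hl, vec_zero v1 (c2 ▸ k') v4 hl,
      vec_zero v3 (c4 ▸ m') (g2 ▸ v5) hl, add_zero, add_zero]
    exact single_le2 hp hr' l
  · rw [← S.deg_apply, dm]
    simp only [Pi.add_apply]
    rw [vec0 k' (e2 ▸ s2) hl, vec0 m' (f2 ▸ t2) hl, vec_zero v2 (c1 ▸ k) (g1 ▸ v4) hl,
      vec_zero (g0 ▸ v1) (c3 ▸ m) v5 hl, add_zero, add_zero]
    exact single_le2 (D := -D) (neg_pos.2 hq) ht' l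
  · have e : D - S.deg {x, z, x₂, x₄} + S.deg {x', z', x₁, x₃} =
        D - pv (S.co 0 x) (S.co 0 x') - Pi.single (0, S.co 0 z) 1 + Pi.single (0, S.co 0 z') 1 +
          Pi.single (0, S.co 0 x₁) 1 - Pi.single (0, S.co 0 x₄) 1 := by
      rw [dp, dm]
      simp only [S.vec_eq, pv, er]
      rw [e2, f2, c1, c2, c3, c4, g0, g1, g2]
      abel
    have e' : D - pv (S.co 0 x) (S.co 0 x') =
        D - Pi.single (0, S.co 0 x) 1 + Pi.single (0, S.co 0 x') 1 := by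
      simp only [pv, er]
      abel
    have a1 := pot_sub_pos hp
    have a2 := pot_add_neg (D := D - Pi.single (0, S.co 0 x) 1) (l := (0, S.co 0 x')) (by
      rw [Pi.sub_apply, Pi.single_eq_of_ne fun e => hpq (Prod.mk.inj e).2.symm, sub_zero]
      exact hq)
    rw [← e'] at a2
    have a3 := pot_sub_pos hr
    have a4 := pot_add_neg (D := D - pv (S.co 0 x) (S.co 0 x') - Pi.single (0, S.co 0 z) 1)
      (l := (0, S.co 0 z')) (by
        rw [Pi.sub_apply, Pi.single_eq_of_ne fun e => hrt (Prod.mk.inj e).2.symm, sub_zero]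
        exact ht)
    have a5 := pot_add_le (D - pv (S.co 0 x) (S.co 0 x') - Pi.single (0, S.co 0 z) 1 +
      Pi.single (0, S.co 0 z') 1) (0, S.co 0 x₁)
    have a6 := pot_sub_le (D - pv (S.co 0 x) (S.co 0 x') - Pi.single (0, S.co 0 z) 1 +
      Pi.single (0, S.co 0 z') 1 + Pi.single (0, S.co 0 x₁) 1) (0, S.co 0 x₄)
    rw [e]
    simp only [Fin.isValue, Fin.val_zero] at a1 a2 a3 a4 a5 a6
    omega

theorem exists_row {D : Ln n → ℤ} (h1 : ∀ a, D (1, a) = 0) (h2 : ∀ a, D (2, a) = 0)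
    (h : D ≠ 0) : ∃ a, D (0, a) ≠ 0 := by
  by_contra h0
  simp only [not_exists, not_not] at h0
  refine h (funext fun ⟨i, a⟩ => ?_)
  fin_cases i
  exacts [h0 a, h1 a, h2 a]

end Mv

theorem Sq.exists_move {n : ℕ} (hn : 0 < n) (S : Sq n) (Z : Finset (Ln n))
    (Fi Fo Ch : Finset (Cell n))
    (Hv : Finset (Ln n)) (c b y : ℕ) (D : Ln n → ℤ) (hR : S.Rich Z Fi Fo c)
    (hc : 8 * (b + y) + 8 < c) (hoff : ∀ x ∈ Fi ∪ Fo, S.Off Z x) (hZ : ∀ z ∈ Z, D z = 0)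
    (hsum : ∀ i j, ∑ a, D (i, a) = ∑ a, D (j, a)) (hHv : Hv.card ≤ y)
    (hCh : ∀ l, S.cnt Ch l ≤ b) (hne : ¬ ∃ a a', D = pv a a') :
    ∃ gp gm : Finset (Cell n), gp ⊆ Fi \ Ch ∧ gm ⊆ Fo \ Ch ∧ gp.card + gm.card ≤ 8 ∧
      (∀ l ∈ Hv, (S.cnt gp l : ℤ) ≤ max (D l) 0 ∧ (S.cnt gm l : ℤ) ≤ max (-D l) 0) ∧
      pot (D - S.deg gp + S.deg gm) < pot D := by
  by_cases h2 : ∃ s, D (2, s) ≠ 0
  · obtain ⟨s, hs⟩ := h2
    exact Mv.caseS hR hc hZ hHv hCh hs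
  simp only [not_exists, not_not] at h2
  have hs : ∀ i, ∑ a, D (i, a) = 0 := fun i => by
    rw [hsum i 2]
    exact Finset.sum_eq_zero fun a _ => h2 a
  by_cases h1 : ∃ s, D (1, s) ≠ 0
  · obtain ⟨s, hs'⟩ := h1
    obtain ⟨⟨p, hp⟩, q, hq⟩ := Mv.exists_pos_neg (hs 1) hs'
    exact Mv.caseC hR hc hZ hHv hCh hp hq
  simp only [not_exists, not_not] at h1
  obtain ⟨a, ha⟩ := Mv.exists_row h1 h2 fun h => hne ⟨⟨0, hn⟩, ⟨0, hn⟩, by rw [h, pv_self]⟩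
  obtain ⟨⟨p, hp⟩, q, hq⟩ := Mv.exists_pos_neg (hs 0) ha
  obtain ⟨a', ha'⟩ := Mv.exists_row (D := D - pv p q) (fun a => by simp [pv, er, h1])
    (fun a => by simp [pv, er, h2]) fun h => hne ⟨p, q, sub_eq_zero.1 h⟩
  have hs' : ∑ a, (D - pv p q) (0, a) = 0 := by
    simp [pv, er, Finset.sum_sub_distrib, hs 0, Pi.single_apply]
  obtain ⟨⟨r, hr⟩, t, ht⟩ := Mv.exists_pos_neg hs' ha'
  exact Mv.caseR hR hc hoff hZ hHv hCh hp hq hr ht

end PlexX
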