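import Pool.Agent.Lib.MP_3d3eb4_co.PX.Grp

/-! A stable set of available cells exists. -/

namespace PlexX

open Finset

namespace Sq

variable {n : ℕ} (S : Sq n)

/-- a set that is not stable can be shrunk so that the group of labels doubles -/
theorem stab_step {A : Finset (Cell n)} {Z : Finset (Ln n)} {u w z m y : ℕ}
    (hS : S.Sparse A Z u) (hm : 0 < m) (hy : 3 * w ≤ m * y)
    (hn : 100 * (u + (m + z + y)) + 1000 ≤ n) (h : ¬ S.Stable A Z w z) :
    ∃ A1 Z1, A1 ⊆ A ∧ Z1.card ≤ Z.card + (z + y) ∧ S.Sparse A1 Z1 (u + (m + z + y)) ∧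
      2 * Nat.card (S.grp A Z) ≤ Nat.card (S.grp A1 Z1) := by
  classical
  unfold Stable at h
  push Not at h
  obtain ⟨A', Z', u', hA, hZ, hS', hu', hz, hw, a, b, ha, hb, hab, hnab⟩ := h
  obtain ⟨W, hW⟩ : ∃ W, W = (A \ A').filter (S.Off Z') := ⟨_, rfl⟩
  rw [← hW] at hw
  obtain ⟨Hv, hHv⟩ : ∃ Hv : Finset (Ln n), Hv = univ.filter fun l => m ≤ S.cnt W l := ⟨_, rfl⟩
  have hHc : Hv.card ≤ y := by
    have h1 := S.card_heavy W m
    rw [← hHv] at h1
    have h2 : Hv.card * m ≤ y * m := by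
      rw [mul_comm y m]
      omega
    exact Nat.le_of_mul_le_mul_right h2 hm
  have hd : ((Z' ∪ Hv) \ Z).card ≤ z + y := by
    rw [union_sdiff_distrib]
    exact (card_union_le _ _).trans (add_le_add hz ((card_le_card sdiff_subset).trans hHc))
  have hZ1 : Z ⊆ Z' ∪ Hv := hZ.trans subset_union_left
  have hc : (Z' ∪ Hv).card ≤ Z.card + (z + y) := by
    have h1 := card_sdiff_add_card_eq_card hZ1
    omega
  have hZu := hS.cardZ
  have hA1 : A'.filter (S.Off (Z' ∪ Hv)) ⊆ A' := filter_subset _ _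
  have hS1 : S.Sparse (A'.filter (S.Off (Z' ∪ Hv))) (Z' ∪ Hv) (u + (m + z + y)) := by
    refine ⟨by omega, fun x hx => (mem_filter.1 hx).2, fun l hl => ?_⟩
    have hsub : (A'.filter (S.Off (Z' ∪ Hv)))ᶜ ⊆
        (Aᶜ ∪ W) ∪ univ.filter fun x => ¬ S.Off ((Z' ∪ Hv) \ Z) x := by
      intro x hx
      rw [mem_compl, mem_filter] at hx
      by_cases hxA : x ∈ A
      · by_cases ho : S.Off (Z' ∪ Hv) x
        · refine mem_union_left _ (mem_union_right _ ?_)
          rw [hW]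
          exact mem_filter.2 ⟨mem_sdiff.2 ⟨hxA, fun h' => hx ⟨h', ho⟩⟩,
            fun i hi => ho i (mem_union_left _ hi)⟩
        · refine mem_union_right _ (mem_filter.2 ⟨mem_univ _, fun h' => ho fun i hi => ?_⟩)
          exact h' i (mem_sdiff.2 ⟨hi, hS.off x hxA i⟩)
      · exact mem_union_left _ (mem_union_left _ (mem_compl.2 hxA))
    have h1 := S.cnt_mono hsub l
    have h2 := S.cnt_union_le (Aᶜ ∪ W) (univ.filter fun x => ¬ S.Off ((Z' ∪ Hv) \ Z) x) l
    have h3 := S.cnt_union_le Aᶜ W l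
    have h4 := hS.few l fun h' => hl (hZ1 h')
    have h5 : S.cnt W l < m := by
      by_contra h'
      refine hl (mem_union_right _ ?_)
      rw [hHv]
      exact mem_filter.2 ⟨mem_univ _, not_lt.1 h'⟩
    have h6 := S.cnt_on_le ((Z' ∪ Hv) \ Z) (univ.filter fun x => ¬ S.Off ((Z' ∪ Hv) \ Z) x) l
      (fun h' => hl (mem_sdiff.1 h').1) (fun x hx => (mem_filter.1 hx).2)
    omega
  refine ⟨_, _, hA1.trans hA, hc, hS1, ?_⟩
  by_contra hlt
  obtain ⟨a1, b1, ha1, hb1, h1⟩ := S.par_live hS' (Z' ∪ Hv) (by omega) ha hb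
  have h2 : pv a1 b1 ∈ S.lat A := by
    have h3 := sub_mem hab (S.lat_mono hA h1)
    rwa [sub_sub_cancel] at h3
  have h4 := S.grp_transfer hS (by omega) hS1 hn (hA1.trans hA) hZ1 (not_le.1 hlt) ha1 hb1 h2
  have h5 := add_mem h1 (S.lat_mono hA1 h4)
  rw [sub_add_cancel] at h5
  exact hnab h5

theorem exists_stable (P : Finset (Cell n)) (w z m y L : ℕ) (hP : S.Sparse P ∅ 2) (hm : 0 < m)
    (hy : 3 * w ≤ m * y) (hL : 2 * n < 2 ^ L) (hn : 100 * (2 + (L + 1) * (m + z + y)) + 1000 ≤ n) :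
    ∃ A Z u, A ⊆ P ∧ u ≤ 2 + L * (m + z + y) ∧ Z.card ≤ L * (z + y) ∧ S.Sparse A Z u ∧
      S.Stable A Z w z := by
  by_contra hno
  have key : ∀ i, i ≤ L → ∃ A Z, A ⊆ P ∧ Z.card ≤ i * (z + y) ∧
      S.Sparse A Z (2 + i * (m + z + y)) ∧ 2 ^ i ≤ Nat.card (S.grp A Z) := by
    intro i
    induction i with
    | zero =>
      intro _
      have hf := S.grp_finite hP (by omega)
      refine ⟨P, ∅, subset_rfl, by simp, by simpa using hP, ?_⟩
      exact Nat.card_pos
    | succ i ih =>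
      intro hi
      obtain ⟨A, Z, hA, hZ, hS, hc⟩ := ih (by omega)
      have h1 : i * (m + z + y) ≤ L * (m + z + y) := Nat.mul_le_mul_right _ (by omega)
      have h2 : i * (z + y) ≤ L * (z + y) := Nat.mul_le_mul_right _ (by omega)
      have h3 : ¬ S.Stable A Z w z := fun h =>
        hno ⟨A, Z, _, hA, by omega, hZ.trans h2, hS, h⟩
      rw [add_mul, one_mul] at hn
      obtain ⟨A1, Z1, hA1, hZ1, hS1, hc1⟩ := S.stab_step hS hm hy (by omega) h3
      refine ⟨A1, Z1, hA1.trans hA, ?_, ?_, ?_⟩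
      · rw [add_mul, one_mul]
        omega
      · rw [add_mul, one_mul, ← add_assoc]
        exact hS1
      · rw [pow_succ]
        omega
  obtain ⟨A, Z, -, -, hS, hc⟩ := key L le_rfl
  rw [add_mul, one_mul] at hn
  have h1 := S.grp_card hS (by omega)
  obtain ⟨k, hk⟩ : ∃ k, k = n - 3 * (2 + L * (m + z + y)) := ⟨_, rfl⟩
  rw [← hk] at h1
  have h2 : n ≤ 2 * k := by omega
  have h3 : 0 < k := by omega
  have h4 : (2 * n + 1) * k ≤ Nat.card (S.grp A Z) * k := Nat.mul_le_mul_right _ (by omega)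
  have h5 : n * n ≤ n * (2 * k) := Nat.mul_le_mul_left _ h2
  nlinarith

end Sq

end PlexX
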