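import Pool.Agent.Lib.MP_3d3eb4_co.PX.Defs

/-! Steps between rows, quadrangle gadgets and merges of pairs. -/

namespace PlexX

open Finset

namespace Sq

variable {n : ℕ} (S : Sq n) {A A' : Finset (Cell n)} {Z : Finset (Ln n)} {u : ℕ}

theorem co0_src (c' b : Fin n) : S.co 0 (S.src c' b) = b := S.co_pt_fst (by decide) _ _

theorem co1_src (c' b : Fin n) : S.co 1 (S.src c' b) = c' := S.co_pt_snd (by decide) _ _

theorem co1_tgt (c c' b : Fin n) : S.co 1 (S.tgt c c' b) = c := S.co_pt_fst (by decide) _ _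

theorem co2_tgt (c c' b : Fin n) : S.co 2 (S.tgt c c' b) = S.co 2 (S.src c' b) :=
  S.co_pt_snd (by decide) _ _

theorem vec_tgt_sub (c c' b : Fin n) : S.vec (S.tgt c c' b) - S.vec (S.src c' b) =
    pv (S.mv c c' b) b + Pi.single (1, c) 1 - Pi.single (1, c') 1 := by
  rw [vec_eq, vec_eq, co1_tgt, co2_tgt, co0_src, co1_src, pv, er, er, mv]
  abel

theorem src_inj (c' : Fin n) : Function.Injective (S.src c') := fun b b' h => by
  rw [← S.co0_src c' b, h, co0_src]

theorem src_eq (c' b : Fin n) : S.src c' b = S.pt 1 0 c' b :=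
  S.eq_pt (by decide) (S.co1_src c' b) (S.co0_src c' b)

theorem co2_src_bij (c' : Fin n) : Function.Bijective fun b => S.co 2 (S.src c' b) := by
  simp only [src_eq]
  exact S.co_pt_bij (by decide) (by decide) c'

theorem tgt_inj (c c' : Fin n) : Function.Injective (S.tgt c c') := fun _ _ h =>
  (S.co2_src_bij c').1 (S.pt_inj (by decide) c h)

theorem mv_bij (c c' : Fin n) : Function.Bijective (S.mv c c') :=
  (S.co_pt_bij (i := 1) (j := 2) (k := 0) (by decide) (by decide) c).comp (S.co2_src_bij c')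

theorem tgt_self (c b : Fin n) : S.tgt c c b = S.src c b :=
  S.ext2 (i := 1) (j := 2) (by decide) ((S.co1_tgt c c b).trans (S.co1_src c b).symm)
    (S.co2_tgt c c b)

theorem mv_self (c b : Fin n) : S.mv c c b = b := by
  rw [mv, tgt_self, co0_src]

theorem eq_of_mv_eq {c c' b : Fin n} (h : S.mv c c' b = b) : c = c' := by
  have : S.tgt c c' b = S.src c' b :=
    S.ext2 (i := 0) (j := 2) (by decide) (h.trans (S.co0_src c' b).symm) (S.co2_tgt c c' b)
  rw [← S.co1_tgt c c' b, this, co1_src]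

theorem tgt_eq_src (c c' b : Fin n) : S.tgt c c' b = S.src c (S.mv c c' b) :=
  S.eq_pt (by decide) rfl (S.co1_tgt c c' b)

theorem tgt_comp (c c' c'' b : Fin n) : S.tgt c c' (S.mv c' c'' b) = S.tgt c c'' b := by
  rw [tgt, ← tgt_eq_src, co2_tgt, ← tgt]

theorem mv_comp (c c' c'' b : Fin n) : S.mv c c' (S.mv c' c'' b) = S.mv c c'' b := by
  rw [mv, tgt_comp, ← mv]

theorem mv_mv (c c' b : Fin n) : S.mv c' c (S.mv c c' b) = b := by
  rw [mv_comp, mv_self]

theorem Good.mono {S : Sq n} {c c' b : Fin n} (h : S.Good A c c' b) (hA : A ⊆ A') :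
    S.Good A' c c' b := ⟨hA h.1, hA h.2⟩

theorem Good.live {S : Sq n} {c c' b : Fin n} (h : S.Good A c c' b) (hS : S.Sparse A Z u) :
    (0, b) ∉ Z ∧ (0, S.mv c c' b) ∉ Z ∧ (1, c) ∉ Z ∧ (1, c') ∉ Z := by
  have h1 := hS.off _ h.1 0
  have h2 := hS.off _ h.2 0
  have h3 := hS.off _ h.2 1
  have h4 := hS.off _ h.1 1
  rw [co0_src] at h1
  rw [co1_tgt] at h3
  rw [co1_src] at h4
  exact ⟨h1, h2, h3, h4⟩

/-- an injective family of cells on a live line has at most `u` unavailable members -/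
theorem card_not_mem (hS : S.Sparse A Z u) {l : Ln n} (hl : l ∉ Z) {ι : Type} [Fintype ι]
    (f : ι → Cell n) (hf : Function.Injective f) (h : ∀ i, S.co l.1 (f i) = l.2) :
    (univ.filter fun i => f i ∉ A).card ≤ u :=
  (card_le_card_of_injOn f (fun i hi => mem_filter.2
    ⟨mem_compl.2 (mem_filter.1 hi).2, h i⟩) hf.injOn).trans (hS.few l hl)

/-- an injective parameter takes values in `G` at most `G.card` times -/
theorem card_mem_le {ι α : Type} [Fintype ι] [DecidableEq α] (f : ι → α)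
    (hf : Function.Injective f) (G : Finset α) : (univ.filter fun i => f i ∈ G).card ≤ G.card :=
  card_le_card_of_injOn f (fun _ hi => (mem_filter.1 hi).2) hf.injOn

theorem card_not_and {ι : Type} [Fintype ι] (p q : ι → Prop) [DecidablePred p] [DecidablePred q] :
    (univ.filter fun i => ¬ (p i ∧ q i)).card ≤
      (univ.filter fun i => ¬ p i).card + (univ.filter fun i => ¬ q i).card := by
  classical
  refine (card_le_card fun i hi => ?_).trans (card_union_le _ _)
  simp only [mem_filter, mem_univ, true_and, mem_union] at hi ⊢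
  exact not_and_or.1 hi

theorem exists_not_mem {B : Finset (Fin n)} (h : B.card < n) : ∃ s, s ∉ B := by
  by_contra k
  push Not at k
  rw [eq_univ_iff_forall.2 k, card_univ, Fintype.card_fin] at h
  exact lt_irrefl _ h

theorem card_not_good (hS : S.Sparse A Z u) {c c' : Fin n} (hc : (1, c) ∉ Z) (hc' : (1, c') ∉ Z) :
    (univ.filter fun b => ¬ S.Good A c c' b).card ≤ 2 * u := by
  have h1 := S.card_not_mem hS hc' (S.src c') (S.src_inj c') (S.co1_src c')
  have h2 := S.card_not_mem hS hc (S.tgt c c') (S.tgt_inj c c') (S.co1_tgt c c')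
  have h3 := card_not_and (fun b => S.src c' b ∈ A) (fun b => S.tgt c c' b ∈ A)
  calc _ = (univ.filter fun b => ¬ (S.src c' b ∈ A ∧ S.tgt c c' b ∈ A)).card := by
        congr 1
    _ ≤ _ := by omega

/-- the step through the pair `(a, b)` given by the symbol `s` -/
theorem thru (a b s : Fin n) :
    S.src (S.co 1 (S.pt 0 2 b s)) b = S.pt 0 2 b s ∧
    S.tgt (S.co 1 (S.pt 0 2 a s)) (S.co 1 (S.pt 0 2 b s)) b = S.pt 0 2 a s ∧
    S.mv (S.co 1 (S.pt 0 2 a s)) (S.co 1 (S.pt 0 2 b s)) b = a := by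
  have h1 : S.src (S.co 1 (S.pt 0 2 b s)) b = S.pt 0 2 b s :=
    (S.eq_pt (by decide) (S.co_pt_fst (by decide) b s) rfl).symm
  have h2 : S.tgt (S.co 1 (S.pt 0 2 a s)) (S.co 1 (S.pt 0 2 b s)) b = S.pt 0 2 a s := by
    rw [tgt, h1, S.co_pt_snd (by decide)]
    exact (S.eq_pt (by decide) rfl (S.co_pt_snd (by decide) a s)).symm
  exact ⟨h1, h2, by rw [mv, h2, S.co_pt_fst (by decide)]⟩

/-- two live lines of the same type have two available cells on most lines of another type -/
theorem card_not_both (hS : S.Sparse A Z u) {i j : Fin 3} (hij : i ≠ j) {a b : Fin n}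
    (ha : (i, a) ∉ Z) (hb : (i, b) ∉ Z) :
    (univ.filter fun s => ¬ (S.pt i j a s ∈ A ∧ S.pt i j b s ∈ A)).card ≤ 2 * u := by
  have h1 := S.card_not_mem hS ha (S.pt i j a) (S.pt_inj hij a) (S.co_pt_fst hij a)
  have h2 := S.card_not_mem hS hb (S.pt i j b) (S.pt_inj hij b) (S.co_pt_fst hij b)
  have h3 := card_not_and (fun s => S.pt i j a s ∈ A) (fun s => S.pt i j b s ∈ A)
  omega

theorem exists_step (hS : S.Sparse A Z u) {a b : Fin n} (ha : (0, a) ∉ Z) (hb : (0, b) ∉ Z)
    (G : Finset (Fin n)) (h : 2 * u + 2 * G.card < n) :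
    ∃ c c', c ∉ G ∧ c' ∉ G ∧ S.Good A c c' b ∧ S.mv c c' b = a := by
  have h1 := S.card_not_both hS (i := 0) (j := 2) (by decide) ha hb
  have h2 := card_mem_le _ (S.co_pt_bij (i := 0) (j := 2) (k := 1) (by decide) (by decide) a).1 G
  have h3 := card_mem_le _ (S.co_pt_bij (i := 0) (j := 2) (k := 1) (by decide) (by decide) b).1 G
  obtain ⟨s, hs⟩ := exists_not_mem (lt_of_le_of_lt ((card_union_le _ _).trans
    (add_le_add ((card_union_le _ _).trans (add_le_add h1 h2)) h3)) (by omega))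
  simp only [mem_union, mem_filter, mem_univ, true_and, not_or, not_not] at hs
  obtain ⟨k1, k2, k3⟩ := S.thru a b s
  exact ⟨_, _, hs.1.2, hs.2, ⟨by rw [k1]; exact hs.1.1.2, by rw [k2]; exact hs.1.1.1⟩, k3⟩

theorem deg_pair {x y : Cell n} (h : x ≠ y) : S.deg {x, y} = S.vec x + S.vec y := sum_pair h

theorem quad {c c' z w : Fin n} (h1 : S.Good A c c' z) (h2 : S.Good A c c' w) :
    S.Gad A 4 {c, c'} (pv (S.mv c c' z) z - pv (S.mv c c' w) w) := by
  by_cases hc : c = c'
  · subst hc
    rw [mv_self, mv_self, pv_self, pv_self, sub_self]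
    exact Gad.zero
  have ne : ∀ a b, S.tgt c c' a ≠ S.src c' b := fun a b h => hc (by
    rw [← S.co1_tgt c c' a, h, co1_src])
  refine ⟨{S.tgt c c' z, S.src c' w}, {S.tgt c c' w, S.src c' z}, ?_, ?_, ?_, ?_, ?_, ?_⟩
  · simp [insert_subset_iff, h1.2, h2.1]
  · simp [insert_subset_iff, h1.1, h2.2]
  · exact add_le_add card_le_two card_le_two
  · simp [co1_tgt, co1_src]
  · simp [co1_tgt, co1_src]
  · have e1 := S.vec_tgt_sub c c' z
    have e2 := S.vec_tgt_sub c c' w
    rw [S.deg_pair (ne z w), S.deg_pair (ne w z), sub_eq_iff_eq_add.1 e1, sub_eq_iff_eq_add.1 e2]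
    abel

theorem pv_inj {a b a' b' : Fin n} (h : pv a b = pv a' b') :
    (a = b ∧ a' = b') ∨ (a = a' ∧ b = b') := by
  have h1 := congrFun h (0, a)
  have h2 := congrFun h (0, b)
  have h3 := congrFun h (0, a')
  simp only [pv, er, Pi.sub_apply, Pi.single_apply, Prod.mk.injEq, true_and, if_true] at h1 h2 h3
  by_cases k : a = b
  · subst k
    left
    refine ⟨rfl, ?_⟩
    by_contra k'
    simp [k'] at h3
  · right
    have k' : ¬ b = a := fun e => k e.symm
    simp only [k, k', if_false] at h1 h2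
    constructor
    · by_contra e
      simp only [e, if_false] at h1
      split_ifs at h1 <;> omega
    · by_contra e
      simp only [e, if_false] at h2
      split_ifs at h2 <;> omega

/-- two pairs of live rows merge into one by six cells in fresh columns -/
theorem merge6 (hS : S.Sparse A Z u) (hn : 100 * u + 1000 ≤ n) {a b r s : Fin n}
    (ha : (0, a) ∉ Z) (hb : (0, b) ∉ Z) (hr : (0, r) ∉ Z) (hs : (0, s) ∉ Z) (G : Finset (Fin n))
    (hG : G.card ≤ 100) : ∃ (x y : Fin n) (Cs : Finset (Fin n)), (0, x) ∉ Z ∧ (0, y) ∉ Z ∧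
      Disjoint Cs G ∧ S.Gad A 6 Cs (pv a b + pv r s - pv x y) := by
  by_cases hab : a = b
  · refine ⟨r, s, ∅, hr, hs, disjoint_empty_left _, ?_⟩
    rw [hab, pv_self, zero_add, sub_self]
    exact Gad.zero
  by_cases hrs : r = s
  · refine ⟨a, b, ∅, ha, hb, disjoint_empty_left _, ?_⟩
    rw [hrs, pv_self, add_zero, sub_self]
    exact Gad.zero
  -- the column `c` is the parameter
  let f : Fin n → Cell n := fun c => S.pt 0 2 b (S.co 2 (S.pt 0 1 a c))
  let g : Fin n → Cell n := fun c => S.pt 0 2 r (S.co 2 (S.pt 0 1 s c))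
  have hf : Function.Injective f := (S.pt_inj (by decide) b).comp
    (S.co_pt_bij (i := 0) (j := 1) (k := 2) (by decide) (by decide) a).1
  have hg : Function.Injective g := (S.pt_inj (by decide) r).comp
    (S.co_pt_bij (i := 0) (j := 1) (k := 2) (by decide) (by decide) s).1
  have f0 : ∀ c, S.co 0 (f c) = b := fun c => S.co_pt_fst (by decide) _ _
  have g0 : ∀ c, S.co 0 (g c) = r := fun c => S.co_pt_fst (by decide) _ _
  have hf' : Function.Injective fun c => S.co 1 (f c) := fun c d h =>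
    hf (S.ext2 (i := 0) (j := 1) (by decide) ((f0 c).trans (f0 d).symm) h)
  have hg' : Function.Injective fun c => S.co 1 (g c) := fun c d h =>
    hg (S.ext2 (i := 0) (j := 1) (by decide) ((g0 c).trans (g0 d).symm) h)
  have n1 := S.card_not_both hS (i := 0) (j := 1) (by decide) ha hs
  have n2 := S.card_not_mem hS hb f hf f0
  have n3 := S.card_not_mem hS hr g hg g0
  have n4 := card_mem_le _ hf' G
  have n5 := card_mem_le _ hg' G
  obtain ⟨c, hc⟩ := exists_not_mem (lt_of_le_of_lt ((card_union_le _ _).trans (add_le_add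
    ((card_union_le _ _).trans (add_le_add ((card_union_le _ _).trans (add_le_add
    ((card_union_le _ _).trans (add_le_add ((card_union_le _ _).trans (add_le_add n1 n2)) n3))
    n4)) n5)) hG)) (by omega))
  simp only [mem_union, mem_filter, mem_univ, true_and, not_or, not_not] at hc
  obtain ⟨⟨⟨⟨⟨⟨m1, m2⟩, m3⟩, m4⟩, m5⟩, m6⟩, m7⟩ := hc
  set c' := S.co 1 (f c) with hc'
  set d := S.co 1 (g c) with hd
  have s1 : S.src c' b = f c := (S.eq_pt (by decide) (f0 c) rfl).symm
  have t1 : S.tgt c c' b = S.pt 0 1 a c := by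
    rw [tgt, s1, S.co_pt_snd (by decide)]
    exact (S.eq_pt (by decide) (S.co_pt_snd (by decide) a c) rfl).symm
  have v1 : S.mv c c' b = a := by rw [mv, t1, S.co_pt_fst (by decide)]
  have t2 : S.tgt d c s = g c :=
    (S.eq_pt (by decide) rfl (S.co_pt_snd (by decide) r _)).symm
  have v2 : S.mv d c s = r := by rw [mv, t2, g0]
  have G1 : S.Good A c c' b := ⟨s1 ▸ m3, t1 ▸ m1⟩
  have G2 : S.Good A d c s := ⟨m2, t2 ▸ m4⟩
  have cc : c ≠ c' := fun e => hab (by rw [← v1, ← e, mv_self])
  have dc : d ≠ c := fun e => hrs (by rw [← v2, e, mv_self])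
  have n6 := S.card_not_good hS (G2.live hS).2.2.1 (G1.live hS).2.2.2
  obtain ⟨y, hy⟩ := exists_not_mem (lt_of_le_of_lt ((card_union_le _ _).trans
    (add_le_add n6 (card_le_two (a := r) (b := b)))) (by omega))
  simp only [mem_union, mem_filter, mem_univ, true_and, not_or, not_not, mem_insert,
    mem_singleton] at hy
  obtain ⟨G3, y1, y2⟩ := hy
  refine ⟨S.mv d c' y, y, {c, c', d}, (G3.live hS).2.1, (G3.live hS).1, ?_,
    {S.tgt c c' b, S.tgt d c s, S.src c' y}, {S.src c' b, S.src c s, S.tgt d c' y},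
    ?_, ?_, ?_, ?_, ?_, ?_⟩
  · simp [disjoint_left, m5, m6, m7]
  · simp [insert_subset_iff, G1.2, G2.2, G3.1]
  · simp [insert_subset_iff, G1.1, G2.1, G3.2]
  · exact add_le_add card_le_three card_le_three
  · simp [co1_tgt, co1_src]
  · simp [co1_tgt, co1_src]
  · have col : ∀ {x y : Cell n}, S.co 1 x ≠ S.co 1 y → x ≠ y := fun h e => h (by rw [e])
    have p1 : S.tgt c c' b ≠ S.tgt d c s := col (by rw [co1_tgt, co1_tgt]; exact dc.symm)
    have p2 : S.tgt c c' b ≠ S.src c' y := col (by rw [co1_tgt, co1_src]; exact cc)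
    have p3 : S.tgt d c s ≠ S.src c' y := fun e => y1 (by
      rw [← S.co0_src c' y, ← e, ← mv, v2])
    have q1 : S.src c' b ≠ S.src c s := col (by rw [co1_src, co1_src]; exact cc.symm)
    have q2 : S.src c' b ≠ S.tgt d c' y := fun e => by
      have e1 : d = c' := by rw [← S.co1_tgt d c' y, ← e, co1_src]
      rw [e1, tgt_self] at e
      exact y2 (S.src_inj c' e).symm
    have q3 : S.src c s ≠ S.tgt d c' y := col (by rw [co1_src, co1_tgt]; exact dc.symm)
    have e1 := S.vec_tgt_sub c c' b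
    have e2 := S.vec_tgt_sub d c s
    have e3 := S.vec_tgt_sub d c' y
    rw [v1] at e1
    rw [v2] at e2
    rw [deg, deg, sum_insert (by simp [p1, p2]), sum_pair p3, sum_insert (by simp [q1, q2]),
      sum_pair q3, sub_eq_iff_eq_add.1 e1, sub_eq_iff_eq_add.1 e2, sub_eq_iff_eq_add.1 e3]
    abel

end Sq

end PlexX
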